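import Pool.Agent.H757_X15.StmE

/-!
# Project X15-E: full two-torsion and no point of order four (E3, CNT4)
-/

set_option autoImplicit false

namespace Pool.Agent.H757_X15.EE

open WeierstrassCurve

open scoped Classical

open Pool.Agent.W262.SH (QB Pt act IsCoc IsCob LocTriv shaCoc cob)
open Pool.Agent.TH841.SH Pool.Agent.Y668
open Pool.Agent.Y700 (odd_of_inj diff_rat)

namespace Cnt4

/-- a finitely generated abelian group equal to its double up to elements of order two -/
theorem finite_of_halving2 {G : Type} [AddCommGroup G] (hG : AddGroup.FG G)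
    (h : ∀ P : G, ∃ T Q : G, T + T = 0 ∧ P = T + (Q + Q)) : Finite G := by
  have : Module.Finite ℤ G := Module.Finite.iff_addGroup_fg.2 hG
  let D : G →+ G := { toFun := fun x => x + x, map_zero' := add_zero 0, map_add' := fun x y => by abel }
  set K := G ⧸ D.ker with hK
  have : Module.Finite ℤ K := by
    have hs : Function.Surjective (QuotientAddGroup.mk' D.ker) := QuotientAddGroup.mk'_surjective _
    exact Module.Finite.of_surjective (QuotientAddGroup.mk' D.ker).toIntLinearMap hs
  have hdiv : ∀ x : K, ∃ y : K, 2 • y = x := by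
    intro x
    obtain ⟨P, rfl⟩ := QuotientAddGroup.mk'_surjective D.ker x
    obtain ⟨T, Q, hT, hQ⟩ := h P
    refine ⟨QuotientAddGroup.mk' _ Q, ?_⟩
    rw [← map_nsmul, hQ, map_add, two_nsmul]
    have : QuotientAddGroup.mk' D.ker T = 0 := (QuotientAddGroup.eq_zero_iff T).2 hT
    rw [this, zero_add]
  have hN : (⊤ : Submodule ℤ K) ≤ (Ideal.span {(2 : ℤ)}) • (⊤ : Submodule ℤ K) := by
    intro x _
    obtain ⟨y, hy⟩ := hdiv x
    rw [← hy]
    have : (2 : ℕ) • y = (2 : ℤ) • y := by norm_cast
    rw [this]
    exact Submodule.smul_mem_smul (Ideal.subset_span rfl) trivial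
  obtain ⟨r, hr1, hr2⟩ := Submodule.exists_sub_one_mem_and_smul_eq_zero_of_fg_of_le_smul _ _
    (Module.finite_def.1 inferInstance) hN
  have hr0 : r ≠ 0 := by
    rintro rfl
    rw [Ideal.mem_span_singleton] at hr1
    omega
  have htor : IsAddTorsion G := by
    intro P
    rw [isOfFinAddOrder_iff_zsmul_eq_zero]
    refine ⟨2 * r, mul_ne_zero two_ne_zero hr0, ?_⟩
    have h1 : r • (QuotientAddGroup.mk' D.ker P) = 0 := hr2 _ trivial
    rw [← map_zsmul] at h1
    have h2 : r • P ∈ D.ker := (QuotientAddGroup.eq_zero_iff _).1 h1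
    have h3 : r • P + r • P = 0 := h2
    rw [mul_zsmul, two_zsmul]
    exact h3
  exact AddCommGroup.finite_of_fg_isAddTorsion G htor

/-- the order of a group with four elements killed by two, none of them halved -/
theorem four_part {G : Type*} [AddCommGroup G] [Finite G] (S : Finset G) (hS4 : S.card = 4)
    (hS : ∀ x : G, x + x = 0 ↔ x ∈ S) (h4 : ∀ x : G, x + x ∈ S → x + x = 0) :
    ∃ k, Odd k ∧ Nat.card G = 4 * k := by
  let D : G →+ G := { toFun := fun x => x + x, map_zero' := add_zero 0, map_add' := fun x y => by abel }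
  have e2 : Nat.card G = Nat.card D.range * Nat.card D.ker := by
    rw [AddSubgroup.card_eq_card_quotient_mul_card_addSubgroup D.ker]
    congr 1
    exact Nat.card_congr (QuotientAddGroup.quotientKerEquivRange D).toEquiv
  have hker : Nat.card D.ker = 4 := by
    have h1 : (D.ker : Set G) = (S : Set G) := by
      ext x
      simp only [SetLike.mem_coe, AddMonoidHom.mem_ker]
      exact hS x
    have h2 : Nat.card (D.ker : Set G) = 4 := by
      rw [h1, Nat.card_coe_set_eq, Set.ncard_coe_finset, hS4]
    exact h2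
  have hodd : Odd (Nat.card D.range) := by
    apply odd_of_inj
    rintro ⟨x, y, rfl⟩ hx
    have hx' : D y + D y = 0 := congrArg Subtype.val hx
    exact Subtype.ext (h4 y ((hS _).1 hx'))
  exact ⟨_, hodd, by rw [e2, hker, mul_comm]⟩

variable {a b : ℚ}

/-- a point of order two which is twice a point -/
theorem half {x0 x1 x2 : ℚ} (ha : a = -(x0 + x1 + x2))
    (hb : b = x0 * x1 + x0 * x2 + x1 * x2) (hc : x0 * x1 * x2 = 0)
    (hn : (Wt a b).toAffine.Nonsingular x0 0) (x : (Wt a b).toAffine.Point)
    (hx : x + x = Affine.Point.some x0 0 hn) : IsSquare (x0 - x1) := by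
  rcases x with _ | ⟨u, v, hn'⟩
  · exact absurd (hx.symm.trans (add_zero _)) (Affine.Point.some_ne_zero _)
  · by_cases hv : v = v - 2 * v
    · have hv0 : v = 0 := by linarith
      have : (Affine.Point.some u v hn' : (Wt a b).toAffine.Point) + .some u v hn' = 0 := by
        apply Affine.Point.add_self_of_Y_eq
        show v = -v - 0 * u - 0
        rw [hv0]; ring
      rw [this] at hx
      exact absurd hx.symm (Affine.Point.some_ne_zero _)
    · have hY : v ≠ (Wt a b).toAffine.negY u v := by
        show v ≠ -v - 0 * u - 0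
        intro h; apply hv; linarith
      have hv0 : v ≠ 0 := fun h => hv (by rw [h]; ring)
      have he : v ^ 2 = (u - x0) * (u - x1) * (u - x2) := by
        have := hn'.1
        rw [Affine.equation_iff] at this
        have h' : v ^ 2 + 0 * u * v + 0 * v = u ^ 3 + a * u ^ 2 + b * u + 0 := this
        rw [ha, hb] at h'
        linear_combination h' + hc
      rw [Affine.Point.add_self_of_Y_ne hY, Affine.Point.some.injEq] at hx
      obtain ⟨hx1, -⟩ := hx
      rw [Affine.slope_of_Y_ne rfl hY] at hx1
      have hx2 : ((3 * u ^ 2 + 2 * a * u + b - 0 * v) / (v - (-v - 0 * u - 0))) ^ 2 +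
        0 * ((3 * u ^ 2 + 2 * a * u + b - 0 * v) / (v - (-v - 0 * u - 0))) - a - u - u = x0 := hx1
      have e0 : v - (-v - 0 * u - 0) = 2 * v := by ring
      rw [e0] at hx2
      have hv2 : (2 * v) ≠ 0 := mul_ne_zero two_ne_zero hv0
      have hx3 : (3 * u ^ 2 + 2 * a * u + b) ^ 2 - (a + 2 * u + x0) * (4 * v ^ 2) = 0 := by
        field_simp at hx2
        linear_combination hx2
      have hx4 : ((u - x0) ^ 2 - (x0 - x1) * (x0 - x2)) ^ 2 = 0 := by
        rw [he, ha, hb] at hx3
        linear_combination hx3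
      have h5 : (u - x0) ^ 2 = (x0 - x1) * (x0 - x2) := by
        have := pow_eq_zero_iff (two_ne_zero) |>.1 hx4
        linear_combination this
      refine ⟨(u - x0 + (x0 - x1)) * (u - x0) / v, ?_⟩
      have hvv : v * v ≠ 0 := mul_ne_zero hv0 hv0
      rw [div_mul_div_comm, eq_div_iff hvv]
      have h6 : v * v = (u - x0) * ((u - x0) + (x0 - x1)) * ((u - x0) + (x0 - x2)) := by
        linear_combination he
      rw [h6]
      linear_combination (-((u - x0) * (u - x0 + (x0 - x1)))) * h5

end Cnt4

/-- E3 (CNT4) -/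
theorem t_CNT4 : S_CNT4 := by
  intro a b r1 r2 ha hb hr1 hr2 hr12 q1 q2 q3 hfin hcard
  have hb0 : b ≠ 0 := by rw [hb]; exact mul_ne_zero hr1 hr2
  have hab : a ^ 2 - 4 * b ≠ 0 := by
    have : a ^ 2 - 4 * b = (r1 - r2) ^ 2 := by rw [ha, hb]; ring
    rw [this]
    exact pow_ne_zero 2 (sub_ne_zero.2 hr12)
  obtain ⟨e1, e2, -, hR, hne⟩ := exists_roots QB a b
  obtain ⟨n1, n2, n12⟩ := hne hb0 hab
  obtain ⟨j, hj, hjσ, hjf⟩ := exists_rat (Wt a b)
  have h2 : (2 : QB) ≠ 0 := two_ne_zero
  have hc : ∀ (g : (Wt a b).toAffine.Point) (Q : Pt (Wt a b) QB), j g = Q + Q →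
      (fun σ : QB ≃ₐ[ℚ] QB => act (Wt a b) σ.toAlgHom Q - Q) ∈ selCoc (Wt a b) := by
    intro g Q hQ
    apply cob_selCoc
    intro σ
    have e3 : act (Wt a b) σ.toAlgHom Q - Q + (act (Wt a b) σ.toAlgHom Q - Q) =
      (act (Wt a b) σ.toAlgHom Q + act (Wt a b) σ.toAlgHom Q) - (Q + Q) := by abel
    rw [e3, ← map_add, ← hQ, hjσ, sub_self]
  -- the points of order two
  have heq : ∀ u v : ℚ, (Wt a b).toAffine.Nonsingular u v → v ^ 2 = u * (u - r1) * (u - r2) := by
    intro u v hn
    have := hn.1
    rw [Affine.equation_iff] at this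
    have h' : v ^ 2 + 0 * u * v + 0 * v = u ^ 3 + a * u ^ 2 + b * u + 0 := this
    rw [ha, hb] at h'
    linear_combination h'
  have hns : ∀ u : ℚ, (u = 0 ∨ u = r1 ∨ u = r2) → (Wt a b).toAffine.Nonsingular u 0 := by
    intro u hu
    rw [Affine.nonsingular_iff]
    refine ⟨?_, Or.inl ?_⟩
    · rw [Affine.equation_iff]
      show (0 : ℚ) ^ 2 + 0 * u * 0 + 0 * 0 = u ^ 3 + a * u ^ 2 + b * u + 0
      rw [ha, hb]
      rcases hu with rfl | rfl | rfl <;> ring
    · show (0 : ℚ) * 0 ≠ 3 * u ^ 2 + 2 * a * u + b
      rw [ha, hb]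
      rcases hu with rfl | rfl | rfl
      · intro h
        exact mul_ne_zero hr1 hr2 (by linear_combination -h)
      · intro h
        exact mul_ne_zero hr1 (sub_ne_zero.2 hr12) (by linear_combination -h)
      · intro h
        exact mul_ne_zero hr2 (sub_ne_zero.2 hr12.symm) (by linear_combination -h)
  set P0 : (Wt a b).toAffine.Point := .some 0 0 (hns 0 (Or.inl rfl)) with hP0
  set P1 : (Wt a b).toAffine.Point := .some r1 0 (hns r1 (Or.inr (Or.inl rfl))) with hP1
  set P2 : (Wt a b).toAffine.Point := .some r2 0 (hns r2 (Or.inr (Or.inr rfl))) with hP2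
  set S : Finset (Wt a b).toAffine.Point := {0, P0, P1, P2} with hS
  have hS4 : S.card = 4 := by
    rw [hS, Finset.card_insert_of_notMem, Finset.card_insert_of_notMem,
      Finset.card_insert_of_notMem, Finset.card_singleton]
    · simp only [Finset.mem_singleton, hP1, hP2, Affine.Point.some.injEq, and_true]
      exact hr12
    · simp only [Finset.mem_insert, Finset.mem_singleton, hP0, hP1, hP2,
        Affine.Point.some.injEq, and_true, not_or]
      exact ⟨fun h => hr1 h.symm, fun h => hr2 h.symm⟩
    · simp only [Finset.mem_insert, Finset.mem_singleton, not_or]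
      exact ⟨(Affine.Point.some_ne_zero _).symm, (Affine.Point.some_ne_zero _).symm,
        (Affine.Point.some_ne_zero _).symm⟩
  have hself : ∀ (u : ℚ) (hn : (Wt a b).toAffine.Nonsingular u 0),
      (Affine.Point.some u 0 hn : (Wt a b).toAffine.Point) + .some u 0 hn = 0 := by
    intro u hn
    apply Affine.Point.add_self_of_Y_eq
    show (0 : ℚ) = -0 - 0 * u - 0
    ring
  have hSiff : ∀ x : (Wt a b).toAffine.Point, x + x = 0 ↔ x ∈ S := by
    intro x
    constructor
    · intro hx
      rcases x with _ | ⟨u, v, hn⟩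
      · rw [hS]
        exact Finset.mem_insert_self _ _
      · have hv0 : v = 0 := by
          by_contra hv
          have hY : v ≠ (Wt a b).toAffine.negY u v := by
            show v ≠ -v - 0 * u - 0
            intro h; apply hv; linarith
          rw [Affine.Point.add_self_of_Y_ne hY] at hx
          exact Affine.Point.some_ne_zero _ hx
        subst hv0
        have he := heq u 0 hn
        have h7 : u = 0 ∨ u = r1 ∨ u = r2 := by
          have h8 : u * (u - r1) * (u - r2) = 0 := by linear_combination -he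
          rcases mul_eq_zero.1 h8 with h9 | h9
          · rcases mul_eq_zero.1 h9 with h10 | h10
            · exact Or.inl h10
            · exact Or.inr (Or.inl (sub_eq_zero.1 h10))
          · exact Or.inr (Or.inr (sub_eq_zero.1 h9))
        rw [hS]
        simp only [Finset.mem_insert, Finset.mem_singleton]
        rcases h7 with rfl | rfl | rfl
        · exact Or.inr (Or.inl rfl)
        · exact Or.inr (Or.inr (Or.inl rfl))
        · exact Or.inr (Or.inr (Or.inr rfl))
    · intro hx
      rw [hS] at hx
      simp only [Finset.mem_insert, Finset.mem_singleton] at hx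
      rcases hx with rfl | rfl | rfl | rfl
      · exact add_zero 0
      · exact hself _ _
      · exact hself _ _
      · exact hself _ _
  -- no point of order two is twice a point
  have hnh : ∀ x : (Wt a b).toAffine.Point, x + x ∈ S → x + x = 0 := by
    intro x hx
    rw [hS] at hx
    simp only [Finset.mem_insert, Finset.mem_singleton] at hx
    rcases hx with hx | hx | hx | hx
    · exact hx
    · exfalso
      apply q3
      have := Cnt4.half (a := a) (b := b) (x0 := 0) (x1 := r1) (x2 := r2) (by rw [ha]; ring)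
        (by rw [hb]; ring) (by ring) _ x hx
      rwa [zero_sub] at this
    · exfalso
      apply q1
      have := Cnt4.half (a := a) (b := b) (x0 := r1) (x1 := 0) (x2 := r2) (by rw [ha]; ring)
        (by rw [hb]; ring) (by ring) _ x hx
      rwa [sub_zero] at this
    · exfalso
      apply q2
      have := Cnt4.half (a := a) (b := b) (x0 := r2) (x1 := 0) (x2 := r1) (by rw [ha]; ring)
        (by rw [hb]; ring) (by ring) _ x hx
      rwa [sub_zero] at this
  -- the cocycles of the points of order two
  have hdiv := fun g : (Wt a b).toAffine.Point => hR.div h2 n1 n2 n12 (j g)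
  choose Q hQ using hdiv
  set F : (Wt a b).toAffine.Point → selCoc (Wt a b) := fun g => ⟨_, hc g (Q g) (hQ g)⟩ with hF
  have hFinj : Set.InjOn F (S : Set (Wt a b).toAffine.Point) := by
    intro g hg g' hg' h
    obtain ⟨q, hq⟩ := diff_rat hj hjf (hQ g) (hQ g') (fun σ => congrFun (congrArg Subtype.val h) σ)
    have hg0 : g + g = 0 := (hSiff g).2 hg
    have hg'0 : g' + g' = 0 := (hSiff g').2 hg'
    have h5 : q + q = g + g' := by
      have h6 : g' + g = g' + g' + (q + q) := by rw [hq]; abel
      rw [hg'0, zero_add] at h6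
      rw [← h6, add_comm]
    have h6 : (g + g') + (g + g') = 0 := by
      have : (g + g') + (g + g') = (g + g) + (g' + g') := by abel
      rw [this, hg0, hg'0, add_zero]
    have h7 : q + q = 0 := hnh q (by rw [h5]; exact (hSiff _).1 h6)
    rw [hq, h7, add_zero]
  have : Fintype (selCoc (Wt a b)) := Fintype.ofFinite _
  have hall : ∀ f : selCoc (Wt a b), ∃ g ∈ S, F g = f := by
    have hSu : S.image F = Finset.univ := by
      apply Finset.eq_univ_of_card
      apply le_antisymm (Finset.card_le_univ _)
      rw [Finset.card_image_of_injOn hFinj, hS4, ← Nat.card_eq_fintype_card]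
      exact hcard
    intro f
    have hf : f ∈ S.image F := by rw [hSu]; exact Finset.mem_univ _
    exact Finset.mem_image.1 hf
  -- halving
  have hhalf : ∀ P : (Wt a b).toAffine.Point, ∃ T q : (Wt a b).toAffine.Point, T + T = 0 ∧
      P = T + (q + q) := by
    intro P
    obtain ⟨T, hT, hTF⟩ := hall (F P)
    obtain ⟨q, hq⟩ := diff_rat hj hjf (hQ P) (hQ T)
      (fun σ => congrFun (congrArg Subtype.val hTF.symm) σ)
    exact ⟨T, q, (hSiff T).2 hT, hq⟩
  have hfg : AddGroup.FG (Wt a b).toAffine.Point := fg_Wt hb0 hab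
  have hfinE : Finite (Wt a b).toAffine.Point := Cnt4.finite_of_halving2 hfg hhalf
  refine ⟨?_, hfinE, Cnt4.four_part S hS4 hSiff hnh⟩
  intro x hx
  have hkey : ∀ y : Pool.Agent.W262.SH.Sha (Wt a b), y + y = 0 → y = 0 := by
    intro y hy
    obtain ⟨f, rfl⟩ := (toShaC_range hR n1 n2 n12 y).2 hy
    obtain ⟨g, -, hg⟩ := hall f
    rw [← hg, ← AddMonoidHom.mem_ker, toShaC_ker]
    exact ⟨Q g, fun σ => rfl⟩
  have h8 := hkey (Pool.Agent.TH841.SH.D.eSha (Wt a b) x) (by rw [← map_add, hx, map_zero])
  exact (map_eq_zero_iff _ (Pool.Agent.TH841.SH.D.eSha (Wt a b)).injective).1 h8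

end Pool.Agent.H757_X15.EE
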