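import Pool.Agent.H757_X15.StmE
import Pool.Agent.Y700.Sel

/-!
# X15-E3a: the number of the Selmer cocycles (`b > 0`, `a < 0`)
-/

set_option autoImplicit false

namespace Pool.Agent.H757_X15.EE

open WeierstrassCurve

open scoped Classical

open Pool.Agent.W262.SH (QB Pt act)
open Pool.Agent.TH841.SH
open Pool.Agent.Y668 hiding PC
open Pool.Agent.Y700 (PC exists_SR)

/-- E3 (CARD) -/
theorem t_CARD : S_CARD := by
  intro a b ha hb hab S1 S2 hf1 hf2 h1 h2
  have hb' : b ≠ 0 := hb.ne'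
  have qb : (b : ℚ) ≠ 0 := by exact_mod_cast hb'
  have hab' : a ^ 2 - 4 * b ≠ 0 := hab.ne'
  have qab : (a : ℚ) ^ 2 - 4 * (b : ℚ) ≠ 0 := by exact_mod_cast hab'
  obtain ⟨e1, e2, hp12, hR, hne⟩ := exists_roots QB (a : ℚ) (b : ℚ)
  obtain ⟨n1, n2, n12⟩ := hne qb qab
  refine card_selCoc hR n1 n2 n12 hf1 hf2 ?_ ?_
  · intro f hf z hz hse
    obtain ⟨s, hs⟩ := IsAlgClosed.exists_pow_nat_eq ((z : ℤ) : QB) (n := 2) (by norm_num)
    apply h1 z hz
    · obtain ⟨x, y, hy, hxy, r, hr⟩ := loc_z1 (K := ℝ) (Ω := AlgebraicClosure ℝ) two_ne_zero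
        qb qab f hf.2.1 hf.2.2.2.2 (exists_SR hb' hab') z s hs (hse s hs)
      rw [map_intCast, map_intCast] at hxy
      have haR : (a : ℝ) < 0 := by exact_mod_cast ha
      have hbR : (0 : ℝ) < b := by exact_mod_cast hb
      have hx : 0 < x := by
        by_contra hneg
        push Not at hneg
        have hy2 : 0 < y ^ 2 := by positivity
        rw [hxy] at hy2
        have k1 : x * x ^ 2 ≤ 0 := mul_nonpos_of_nonpos_of_nonneg hneg (sq_nonneg x)
        have k2 : (a : ℝ) * x ^ 2 ≤ 0 := mul_nonpos_of_nonpos_of_nonneg haR.le (sq_nonneg x)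
        have k3 : (b : ℝ) * x ≤ 0 := mul_nonpos_of_nonneg_of_nonpos hbR.le hneg
        have e : x ^ 3 + (a : ℝ) * x ^ 2 + b * x = x * x ^ 2 + a * x ^ 2 + b * x := by ring
        rw [e] at hy2
        linarith
      have h5 : 0 ≤ x * (z : ℝ) := by rw [hr]; exact mul_self_nonneg r
      have h6 : (0 : ℝ) ≤ z := by
        by_contra hneg
        push Not at hneg
        have := mul_neg_of_pos_of_neg hx hneg
        linarith
      have h7 : z ≠ 0 := hz.ne_zero
      have h8 : 0 ≤ z := by exact_mod_cast h6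
      omega
    · intro p _
      obtain ⟨x, y, hy, hxy, hsq⟩ := loc_z1 (K := ℚ_[p]) (Ω := AlgebraicClosure ℚ_[p])
        two_ne_zero qb qab f hf.2.1 (hf.2.2.2.1 p) (exists_S p hb' hab') z s hs (hse s hs)
      refine ⟨x, y, hy, ?_, hsq⟩
      rw [hxy, map_intCast, map_intCast]
  · intro f hf hX z hz hse
    obtain ⟨s, hs⟩ := IsAlgClosed.exists_pow_nat_eq ((z : ℤ) : QB) (n := 2) (by norm_num)
    apply h2 z hz
    intro p _
    obtain ⟨x, y, hy, hxy, hsq⟩ := loc_z2 (K := ℚ_[p]) (Ω := AlgebraicClosure ℚ_[p]) two_ne_zero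
      qb qab f hf.2.1 hX (hf.2.2.2.1 p) (exists_S p hb' hab') z s hs (hse s hs)
    refine ⟨x, y, hy, ?_, hsq⟩
    rw [hxy]
    have k1 : (-2 : ℚ) * (a : ℚ) = ((-2 * a : ℤ) : ℚ) := by push_cast; ring
    have k2 : (a : ℚ) ^ 2 - 4 * (b : ℚ) = ((a ^ 2 - 4 * b : ℤ) : ℚ) := by push_cast; ring
    rw [k1, k2, map_intCast, map_intCast]

end Pool.Agent.H757_X15.EE
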