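import Pool.Agent.Y545.Z702.Tor

/-!
# Project X15-E (E10): finitely many points, full two-torsion, no halved point of order two
-/

set_option autoImplicit false

namespace Pool.Agent.H757_X15.EE.CV

open WeierstrassCurve Pool.Agent.Y668

/-- a point of order two which is twice a point (the same as `EE.Cnt4.half`) -/
theorem half {a b x0 x1 x2 : ℚ} (ha : a = -(x0 + x1 + x2))
    (hb : b = x0 * x1 + x0 * x2 + x1 * x2) (hc : x0 * x1 * x2 = 0)
    (hn : (Wt a b).toAffine.Nonsingular x0 0) (x : (Wt a b).toAffine.Point)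
    (hx : x + x = Affine.Point.some x0 0 hn) : IsSquare (x0 - x1) := by
  rcases x with _ | ⟨u, v, hn'⟩
  · exact absurd (hx.symm.trans (add_zero _)) (Affine.Point.some_ne_zero _)
  · by_cases hv : v = v - 2 * v
    · have hv0 : v = 0 := by linarith
      have : (Affine.Point.some u v hn' : (Wt a b).toAffine.Point) + .some u v hn' = 0 := by
        apply Affine.Point.add_self_of_Y_eq
        show v = -v - 0 * u - 0
        rw [hv0]; ring
      rw [this] at hx
      exact absurd hx.symm (Affine.Point.some_ne_zero _)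
    · have hY : v ≠ (Wt a b).toAffine.negY u v := by
        show v ≠ -v - 0 * u - 0
        intro h; apply hv; linarith
      have hv0 : v ≠ 0 := fun h => hv (by rw [h]; ring)
      have he : v ^ 2 = (u - x0) * (u - x1) * (u - x2) := by
        have := hn'.1
        rw [Affine.equation_iff] at this
        have h' : v ^ 2 + 0 * u * v + 0 * v = u ^ 3 + a * u ^ 2 + b * u + 0 := this
        rw [ha, hb] at h'
        linear_combination h' + hc
      rw [Affine.Point.add_self_of_Y_ne hY, Affine.Point.some.injEq] at hx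
      obtain ⟨hx1, -⟩ := hx
      rw [Affine.slope_of_Y_ne rfl hY] at hx1
      have hx2 : ((3 * u ^ 2 + 2 * a * u + b - 0 * v) / (v - (-v - 0 * u - 0))) ^ 2 +
        0 * ((3 * u ^ 2 + 2 * a * u + b - 0 * v) / (v - (-v - 0 * u - 0))) - a - u - u = x0 := hx1
      have e0 : v - (-v - 0 * u - 0) = 2 * v := by ring
      rw [e0] at hx2
      have hv2 : (2 * v) ≠ 0 := mul_ne_zero two_ne_zero hv0
      have hx3 : (3 * u ^ 2 + 2 * a * u + b) ^ 2 - (a + 2 * u + x0) * (4 * v ^ 2) = 0 := by
        field_simp at hx2
        linear_combination hx2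
      have hx4 : ((u - x0) ^ 2 - (x0 - x1) * (x0 - x2)) ^ 2 = 0 := by
        rw [he, ha, hb] at hx3
        linear_combination hx3
      have h5 : (u - x0) ^ 2 = (x0 - x1) * (x0 - x2) := by
        have := pow_eq_zero_iff (two_ne_zero) |>.1 hx4
        linear_combination this
      refine ⟨(u - x0 + (x0 - x1)) * (u - x0) / v, ?_⟩
      have hvv : v * v ≠ 0 := mul_ne_zero hv0 hv0
      rw [div_mul_div_comm, eq_div_iff hvv]
      have h6 : v * v = (u - x0) * ((u - x0) + (x0 - x1)) * ((u - x0) + (x0 - x2)) := by
        linear_combination he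
      rw [h6]
      linear_combination (-((u - x0) * (u - x0 + (x0 - x1)))) * h5

/-- the points killed by two -/
theorem two_cases {a b u v : ℚ} (ha : a = -(u + v)) (hb : b = u * v)
    (P : (Wt a b).toAffine.Point) (hP : P + P = 0) :
    P = 0 ∨ ∃ (x : ℚ) (h : (Wt a b).toAffine.Nonsingular x 0), P = Affine.Point.some x 0 h ∧
      (x = 0 ∨ x = u ∨ x = v) := by
  rcases P with _ | ⟨x, y, hn⟩
  · left; rfl
  · right
    have h1 : (Affine.Point.some x y hn : (Wt a b).toAffine.Point) =
        -Affine.Point.some x y hn := eq_neg_of_add_eq_zero_left hP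
    rw [Affine.Point.neg_some] at h1
    have h2 : y = (Wt a b).toAffine.negY x y := by
      simpa using h1
    have h3 : y = 0 := by
      simp only [Affine.negY, Wt] at h2
      linarith
    subst h3
    have h4 := Wt_eqn.mp hn.1
    have h5 : x * ((x - u) * (x - v)) = 0 := by
      rw [ha, hb] at h4
      linear_combination -h4
    refine ⟨x, hn, rfl, ?_⟩
    rcases mul_eq_zero.1 h5 with h6 | h6
    · left; exact h6
    · rcases mul_eq_zero.1 h6 with h7 | h7
      · right; left; linarith
      · right; right; linarith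

/-- every point is the sum of a point killed by two and of a double -/
theorem full_half {a b u v : ℚ} (ha : a = -(u + v)) (hb : b = u * v)
    (h0 : ¬ IsSquare (-u)) (h1 : ¬ IsSquare u) (h2 : ¬ IsSquare v)
    (hf : Finite (Wt a b).toAffine.Point) (P : (Wt a b).toAffine.Point) :
    ∃ T Q : (Wt a b).toAffine.Point, T + T = 0 ∧ P = T + (Q + Q) := by
  let f : (Wt a b).toAffine.Point →+ (Wt a b).toAffine.Point :=
    AddMonoidHom.id _ + AddMonoidHom.id _
  have hfa : ∀ Q, f Q = Q + Q := fun Q => rfl
  have hdis : Disjoint f.ker f.range := by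
    rw [AddSubgroup.disjoint_def]
    intro x hx hx'
    obtain ⟨Q, hQ⟩ := hx'
    rw [hfa] at hQ
    rw [AddMonoidHom.mem_ker, hfa] at hx
    rcases two_cases ha hb x hx with h | ⟨x0, hn, rfl, h | h | h⟩
    · exact h
    · exfalso
      subst h
      have := half (x0 := 0) (x1 := u) (x2 := v) (by rw [ha]; ring) (by rw [hb]; ring) (by ring) hn Q hQ
      rw [zero_sub] at this
      exact h0 this
    · exfalso
      subst h
      have := half (x1 := 0) (x2 := v) (by rw [ha]; ring) (by rw [hb]; ring) (by ring) hn Q hQ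
      rw [sub_zero] at this
      exact h1 this
    · exfalso
      subst h
      have := half (x1 := 0) (x2 := u) (by rw [ha]; ring) (by rw [hb]; ring) (by ring) hn Q hQ
      rw [sub_zero] at this
      exact h2 this
  have hcard : Nat.card f.ker * Nat.card f.range = Nat.card (Wt a b).toAffine.Point := by
    have h3 := f.ker.card_mul_index
    rwa [AddSubgroup.index_ker] at h3
  have hbij : Function.Bijective (fun g : f.ker × f.range => (g.1 : (Wt a b).toAffine.Point) + g.2) :=
    (Nat.bijective_iff_injective_and_card _).2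
      ⟨AddSubgroup.add_injective_of_disjoint hdis, (Nat.card_prod _ _).trans hcard⟩
  obtain ⟨⟨⟨T, hT⟩, ⟨R, Q, hQ⟩⟩, hTR⟩ := hbij.2 P
  exact ⟨T, Q, hT, by rw [← hTR, ← hfa, hQ]⟩

end Pool.Agent.H757_X15.EE.CV
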