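import Pool.Agent.H757_X15.ES.Sh
import Pool.Agent.H757_X15.ES.FHalf

/-!
# Project X15-E (E10): the converse
-/

set_option autoImplicit false

namespace Pool.Agent.H757_X15.EE

open WeierstrassCurve
open Pool.Agent.TH841.SH.D
open Pool.Agent.Y668 hiding PC
open Pool.Agent.Y700 (VR EQ)
open Pool.Agent.Z702 (WZ LocI coc S_COC S_LOT S_COB S_TRN S_LQ)
open Pool.Agent.H757_X15 (WD)
open Pool.Agent.H757_X15.DD (Fm Crit)
open Pool.Agent.H757_X15.CC (Hd)

namespace CV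

/-- a squarefree natural number different from `1` is not a square in `ℚ` -/
theorem nsq {D : ℕ} (hD : Squarefree D) (h1 : D ≠ 1) : ¬ IsSquare (D : ℚ) := by
  intro h
  rw [Rat.isSquare_natCast_iff] at h
  obtain ⟨r, hr⟩ := h
  have h2 : IsUnit r := hD r ⟨1, by rw [hr]; ring⟩
  rw [Nat.isUnit_iff] at h2
  rw [h2] at hr
  exact h1 hr

end CV

/-- E10 (TORI) -/
theorem t_TORI : S_TORI := by
  intro D hsq hFm hD1 hfin d hloc
  obtain ⟨X, Y, r, hX, hY, hXd⟩ := hloc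
  have hD0 : D ≠ 0 := hsq.ne_zero
  have hDQ : (0 : ℚ) < (D : ℚ) := by
    have : 0 < D := Nat.pos_of_ne_zero hD0
    exact_mod_cast this
  set a : ℚ := ((-34 * (D : ℤ) : ℤ) : ℚ) with ha
  set b : ℚ := ((225 * (D : ℤ) ^ 2 : ℤ) : ℚ) with hb
  have ha' : a = -34 * D := by rw [ha]; push_cast; ring
  have hb' : b = 225 * D ^ 2 := by rw [hb]; push_cast; ring
  have hb0 : b ≠ 0 := by rw [hb']; positivity
  have hc' : a ^ 2 - 4 * b = 256 * D ^ 2 := by rw [ha', hb']; ring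
  have hc0 : a ^ 2 - 4 * b ≠ 0 := by rw [hc']; positivity
  have hf := Pool.Agent.Y545.Z702.fin_iso hb0 hc0 hfin
  have e1 : -2 * a = -((-4 * (D : ℚ)) + (-64 * (D : ℚ))) := by rw [ha']; ring
  have e2 : a ^ 2 - 4 * b = (-4 * (D : ℚ)) * (-64 * (D : ℚ)) := by rw [hc']; ring
  have n0 : ¬ IsSquare (-(-4 * (D : ℚ))) := by
    rintro ⟨s, hs⟩
    refine CV.nsq hsq hD1 ⟨s / 2, ?_⟩
    field_simp
    linear_combination hs
  have n1 : ¬ IsSquare (-4 * (D : ℚ)) := by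
    rintro ⟨s, hs⟩
    nlinarith [mul_self_nonneg s]
  have n2 : ¬ IsSquare (-64 * (D : ℚ)) := by
    rintro ⟨s, hs⟩
    nlinarith [mul_self_nonneg s]
  have hD2 : (-2 * a) ^ 2 - 4 * (a ^ 2 - 4 * b) ≠ 0 := by
    have : (-2 * a) ^ 2 - 4 * (a ^ 2 - 4 * b) = 16 * b := by ring
    rw [this]
    exact mul_ne_zero (by norm_num) hb0
  have hY' : Y ^ 2 = X ^ 3 + (-2 * a) * X ^ 2 + (a ^ 2 - 4 * b) * X := by
    rw [hY]; ring
  have hn := Pool.Agent.Y545.Z702.ns_of hc0 hD2 hY'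
  have hr : r ≠ 0 := by
    rintro rfl
    apply hX
    rw [hXd]; ring
  have hal : al (-2 * a) (a ^ 2 - 4 * b) (Affine.Point.some X Y hn) = X := by
    rw [al_some]
    simp [hX]
  obtain ⟨T, Q, hT, hP⟩ := CV.full_half e1 e2 n0 n1 n2 hf (Affine.Point.some X Y hn)
  -- `X * al T` is a square
  have hXT : IsSquare (X * al (-2 * a) (a ^ 2 - 4 * b) T) := by
    have k1 := al_add (two_ne_zero (α := ℚ)) Q Q
    have k3 := al_add (two_ne_zero (α := ℚ)) T (Q + Q)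
    rw [← hP, hal] at k3
    obtain ⟨s, hs⟩ := k1
    obtain ⟨t, ht⟩ := k3
    set α := al (-2 * a) (a ^ 2 - 4 * b) Q
    set β := al (-2 * a) (a ^ 2 - 4 * b) (Q + Q)
    set τ := al (-2 * a) (a ^ 2 - 4 * b) T
    have hα : α ≠ 0 := al_ne hc0 Q
    have hβ : β ≠ 0 := al_ne hc0 (Q + Q)
    refine ⟨s * t / (α * β), ?_⟩
    have k4 : X * τ * (α * β) ^ 2 = (s * t) * (s * t) := by
      linear_combination (X * τ * β) * hs + s * s * ht
    field_simp
    linear_combination k4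
  have sq_of : ∀ (u v : ℚ), v ≠ 0 → IsSquare (X * (u * v ^ 2)) → IsSquare (u * (d : ℚ)) := by
    rintro u v hv ⟨s, hs⟩
    refine ⟨s / (r * v), ?_⟩
    rw [hXd] at hs
    field_simp
    linear_combination hs
  rcases CV.two_cases e1 e2 T hT with h | ⟨x, hx, rfl, h⟩
  · left
    rw [h, al_zero] at hXT
    have := sq_of 1 1 one_ne_zero (by simpa using hXT)
    simpa using this
  · rw [al_some] at hXT
    rcases h with h | h | h
    · left
      rw [if_pos h, hc'] at hXT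
      have := sq_of 1 (16 * D) (by positivity) (by
        have e : (1 : ℚ) * (16 * (D : ℚ)) ^ 2 = 256 * D ^ 2 := by ring
        rw [e]; exact hXT)
      simpa using this
    · right
      have hx0 : x ≠ 0 := by rw [h]; exact mul_ne_zero (by norm_num) hDQ.ne'
      rw [if_neg hx0, h] at hXT
      exact sq_of (-(D : ℚ)) 2 two_ne_zero (by
        have e : (-(D : ℚ)) * 2 ^ 2 = -4 * D := by ring
        rw [e]; exact hXT)
    · right
      have hx0 : x ≠ 0 := by rw [h]; exact mul_ne_zero (by norm_num) hDQ.ne'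
      rw [if_neg hx0, h] at hXT
      exact sq_of (-(D : ℚ)) 8 (by norm_num) (by
        have e : (-(D : ℚ)) * 8 ^ 2 = -64 * D := by ring
        rw [e]; exact hXT)

/-- E10 (CONV) -/
theorem t_CONV : S_CONV := by
  intro h1 h2 h3 h4 hLQ hLG hLE hTRN D hsq hFm hD1 hfin hsha
  have hD0 : D ≠ 0 := hsq.ne_zero
  have hDZ : (D : ℤ) ≠ 0 := by exact_mod_cast hD0
  have hD4 : (D : ℤ) % 4 = 1 := by
    rcases hFm with h | h <;> omega
  have hv := vr_WD hD4
  have hΔ : (EQ (WD (D : ℤ))).Δ ≠ 0 := by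
    intro h0
    have h5 := hv.delta
    rw [h0, mul_zero] at h5
    have h6 : (WZ (-34 * (D : ℤ)) (225 * (D : ℤ) ^ 2)).Δ =
        16 * (225 * (D : ℚ) ^ 2) ^ 2 * (256 * (D : ℚ) ^ 2) := by
      simp only [WZ, Wt, WeierstrassCurve.Δ, WeierstrassCurve.b₂, WeierstrassCurve.b₄,
        WeierstrassCurve.b₆, WeierstrassCurve.b₈]
      push_cast
      ring
    rw [h6] at h5
    have h7 : (D : ℚ) ≠ 0 := by exact_mod_cast hD0
    have : 16 * (225 * (D : ℚ) ^ 2) ^ 2 * (256 * (D : ℚ) ^ 2) ≠ 0 := by positivity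
    exact this h5
  obtain ⟨t1, t2, -⟩ := hTRN _ _ _ _ _ _ hv hΔ
  have hf := t1.2 hfin
  have hs := t2.2 hsha
  intro d hd c1 c2 c3
  by_contra hd1
  have hHd : Hd D d := ⟨hd, c1, c2⟩
  obtain ⟨l1, l2⟩ := hLE hLQ hLG D hsq hFm d hHd c3
  have hdsq : Squarefree d := hsq.squarefree_of_dvd hd
  have hd0 : d ≠ 0 := hdsq.ne_zero
  have hdZ : ((d : ℕ) : ℤ) ≠ 0 := by exact_mod_cast hd0
  have hb : (225 * (D : ℤ) ^ 2) ≠ 0 := by positivity
  have hab : (-34 * (D : ℤ)) ^ 2 - 4 * (225 * (D : ℤ) ^ 2) ≠ 0 := by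
    have : (-34 * (D : ℤ)) ^ 2 - 4 * (225 * (D : ℤ) ^ 2) = 256 * (D : ℤ) ^ 2 := by ring
    rw [this]
    positivity
  have nd : ¬ IsSquare (((d : ℕ) : ℤ) : ℚ) := by
    have := CV.nsq hdsq hd1
    simpa using this
  have hc : coc (a := -34 * (D : ℤ)) hb (d : ℤ) ∈ shaCoc (WZ (-34 * (D : ℤ)) (225 * (D : ℤ) ^ 2)) :=
    ⟨(h1 _ _ hb _).1, fun p _ => h2 _ _ hb _ hab hdZ ℚ_[p] (l1 p), h2 _ _ hb _ hab hdZ ℝ l2⟩
  let W := WZ (-34 * (D : ℤ)) (225 * (D : ℤ) ^ 2)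
  let N : AddSubgroup (shaCoc W) := (cob W).addSubgroupOf (shaCoc W)
  let y : shaCoc W := ⟨coc (a := -34 * (D : ℤ)) hb (d : ℤ), hc⟩
  have hx : (QuotientAddGroup.mk y : shaCoc W ⧸ N) = 0 := by
    refine hs (QuotientAddGroup.mk y : shaCoc W ⧸ N) ?_
    have h5 : (QuotientAddGroup.mk (y + y) : shaCoc W ⧸ N) = 0 := by
      rw [QuotientAddGroup.eq_zero_iff, AddSubgroup.mem_addSubgroupOf]
      have h6 : ((y + y : shaCoc W) : Coch W) = 0 := (h1 _ _ hb _).2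
      rw [h6]
      exact cob_zero _
    exact h5
  rw [QuotientAddGroup.eq_zero_iff, AddSubgroup.mem_addSubgroupOf] at hx
  rcases h3 _ _ hb _ hab hdZ hx with h | h | h
  · exact nd h
  · apply nd
    obtain ⟨s, hs⟩ := h
    have hDQ : (D : ℚ) ≠ 0 := by exact_mod_cast hD0
    refine ⟨s / (16 * D), ?_⟩
    push_cast at hs ⊢
    field_simp
    linear_combination hs
  · rcases h4 D hsq hFm hD1 hf _ h with h | h
    · exact nd h
    · obtain ⟨s, hs⟩ := h
      have hDQ : (0 : ℚ) < (D : ℚ) := by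
        have : 0 < D := Nat.pos_of_ne_zero hD0
        exact_mod_cast this
      have hdQ : (0 : ℚ) < (((d : ℕ) : ℤ) : ℚ) := by
        have : 0 < d := Nat.pos_of_ne_zero hd0
        exact_mod_cast this
      nlinarith [mul_self_nonneg s, mul_pos hDQ hdQ]

end Pool.Agent.H757_X15.EE
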