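import Pool.Agent.H757_X15.StmE
import Pool.Agent.H757_X15.DN.Den2

/-!
Project X15-E, part E13: the densities of the class and of the squarefree numbers.
-/

set_option autoImplicit false

open scoped Classical

namespace Pool.Agent.H757_X15.EE

open Finset Filter Topology
open Pool.Agent.H66R2.RZFI1 (mu mu_abs mu_summable mu_tsum mu_sq_eq)
open Pool.Agent.H757_X15.DD.DEN2 (sq_div)

/-- E13 (CLASS) -/
theorem t_CLASS : S_CLASS := by
  have h := Pool.Agent.H757_X15.DD.t_DEN2
  unfold Pool.Agent.H757_X15.DD.S_DEN2 at h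
  unfold S_CLASS
  convert h

theorem card_mult_all (X a : ℕ) (ha : a ≠ 0) :
    ((Icc 1 X).filter fun n => a ^ 2 ∣ n).card = X / a ^ 2 := by
  have ha2 : 0 < a ^ 2 := by positivity
  have h := Nat.card_multiples X (a ^ 2)
  rw [← h]
  symm
  apply Finset.card_bij (fun e _ => e + 1)
  · intro e he
    rw [Finset.mem_filter, Finset.mem_range] at he
    rw [Finset.mem_filter, Finset.mem_Icc]
    exact ⟨⟨by omega, by omega⟩, he.2⟩
  · intro e _ e' _ h'
    omega
  · intro n hn
    rw [Finset.mem_filter, Finset.mem_Icc] at hn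
    refine ⟨n - 1, ?_, by omega⟩
    rw [Finset.mem_filter, Finset.mem_range]
    refine ⟨by omega, ?_⟩
    have : n - 1 + 1 = n := by omega
    rw [this]
    exact hn.2

theorem count_all (X : ℕ) :
    (((Icc 1 X).filter fun D => Squarefree D).card : ℝ) = ∑' a : ℕ, mu a * ((X / a ^ 2 : ℕ) : ℝ) := by
  rw [Finset.card_filter]
  push_cast
  have h2 : ∀ n ∈ Icc 1 X, (if Squarefree n then (1 : ℝ) else 0) =
      ∑' a : ℕ, if a ^ 2 ∣ n then mu a else 0 := by
    intro n hn
    rw [Finset.mem_Icc] at hn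
    exact mu_sq_eq n (by omega)
  rw [Finset.sum_congr rfl h2, ← Summable.tsum_finsetSum]
  · apply tsum_congr
    intro a
    have h3 : ∑ n ∈ Icc 1 X, (if a ^ 2 ∣ n then mu a else 0) =
        mu a * (((Icc 1 X).filter fun n => a ^ 2 ∣ n).card : ℝ) := by
      rw [← Finset.sum_filter, Finset.sum_const, nsmul_eq_mul, mul_comm]
    rw [h3]
    by_cases ha : a = 0
    · subst ha
      unfold mu
      simp
    · rw [card_mult_all X a ha]
  · intro n hn
    rw [Finset.mem_Icc] at hn
    apply summable_of_hasFiniteSupport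
    apply Set.Finite.subset (Finset.finite_toSet (range (n + 1)))
    intro a ha
    rw [Function.mem_support] at ha
    have h4 : a ^ 2 ∣ n := by
      by_contra h5
      rw [if_neg h5] at ha
      exact ha rfl
    have h6 : a ^ 2 ≤ n := Nat.le_of_dvd (by omega) h4
    have h7 : a ≤ n := by nlinarith
    simp only [Finset.coe_range, Set.mem_Iio]
    omega

/-- the density of the squarefree numbers -/
theorem t_SQF' : Filter.Tendsto
    (fun X : ℕ => (((Icc 1 X).filter fun D => Squarefree D).card : ℝ) / X)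
    Filter.atTop (nhds (6 / Real.pi ^ 2)) := by
  rw [← mu_tsum]
  have e : (fun X : ℕ => (((Icc 1 X).filter fun D => Squarefree D).card : ℝ) / X) =
      fun X : ℕ => ∑' a : ℕ, mu a * ((X / a ^ 2 : ℕ) : ℝ) / X := by
    funext X
    rw [count_all, tsum_div_const]
  rw [e]
  apply tendsto_tsum_of_dominated_convergence (bound := fun a : ℕ => 1 / (a : ℝ) ^ 2)
    (Real.summable_one_div_nat_pow.mpr one_lt_two)
  · intro a
    by_cases ha : a = 0
    · subst ha
      simp [mu]
    · have ha1 : 0 < a := Nat.pos_of_ne_zero ha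
      have ha0 : (0 : ℝ) < (a : ℝ) ^ 2 := by positivity
      have l2 : Tendsto (fun X : ℕ => ((X / a ^ 2 : ℕ) : ℝ) / X) atTop (𝓝 (1 / (a : ℝ) ^ 2)) := by
        rw [tendsto_iff_norm_sub_tendsto_zero]
        refine squeeze_zero' (Eventually.of_forall fun _ => norm_nonneg _) ?_
          (tendsto_one_div_atTop_nhds_zero_nat (𝕜 := ℝ))
        filter_upwards [eventually_ge_atTop 1] with X hX
        have hX0 : (0 : ℝ) < X := by exact_mod_cast hX
        obtain ⟨h1, h2⟩ := sq_div a X ha1
        rw [Real.norm_eq_abs]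
        have e1 : ((X / a ^ 2 : ℕ) : ℝ) / X - 1 / (a : ℝ) ^ 2 =
            (((X / a ^ 2 : ℕ) : ℝ) - (X : ℝ) / (a : ℝ) ^ 2) / X := by
          field_simp
        rw [e1, abs_div, abs_of_pos hX0]
        refine div_le_div_of_nonneg_right ?_ hX0.le
        rw [abs_le]
        constructor <;> linarith
      have l3 := l2.const_mul (mu a)
      have e1 : mu a / (a : ℝ) ^ 2 = mu a * (1 / (a : ℝ) ^ 2) := by ring
      rw [e1]
      refine l3.congr fun X => ?_
      rw [mul_div_assoc]
  · rw [eventually_atTop]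
    refine ⟨1, fun X hX a => ?_⟩
    have hX0 : (0 : ℝ) < X := by exact_mod_cast hX
    by_cases ha : a = 0
    · subst ha
      simp [mu]
    · have ha1 : 0 < a := Nat.pos_of_ne_zero ha
      have ha0 : (0 : ℝ) < (a : ℝ) ^ 2 := by positivity
      rw [norm_div, norm_mul, Real.norm_natCast, Real.norm_natCast, Real.norm_eq_abs]
      have h1 : ((X / a ^ 2 : ℕ) : ℝ) ≤ (X : ℝ) / (a : ℝ) ^ 2 := (sq_div a X ha1).1
      calc |mu a| * ((X / a ^ 2 : ℕ) : ℝ) / X ≤ 1 * ((X : ℝ) / (a : ℝ) ^ 2) / X := by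
            gcongr
            exact mu_abs a
        _ = 1 / (a : ℝ) ^ 2 := by field_simp

/-- E13 (SQF) -/
theorem t_SQF : S_SQF := by
  have h := t_SQF'
  unfold S_SQF
  convert h

end Pool.Agent.H757_X15.EE
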