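import Pool.Agent.H757_X15.StmE

/-!
# Project X15-E: the assembly for a given `D`
-/

set_option autoImplicit false

open Finset

namespace Pool.Agent.H757_X15.EE

open Pool.Agent.H757_X15.DD (Fm Crit)
open Pool.Agent.H757_X15.CC (S_MAINC2)
open Pool.Agent.Y700 (tamProd Omega EQ)

theorem t_FULLA : S_FULLA := by
  intro hS hV hM hO hC hT hA hTo hConv D hs hm h1
  obtain ⟨s, L, Op, Om, hOp, hOm, g2, g3, hL, hsym, hss⟩ := hS
  have hD1 : 1 < D := by
    rcases hm with h | h <;> omega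
  have h4 : D % 4 = 1 := by
    rcases hm with h | h <;> omega
  have h3 : ¬ 3 ∣ D := by
    intro h
    rcases hm with h' | h' <;> omega
  have h5 : ¬ 5 ∣ D := by
    intro h
    rcases hm with h' | h' <;> omega
  have h15 : Nat.Coprime D 15 := by
    rw [show (15 : ℕ) = 3 * 5 by norm_num]
    exact Nat.Coprime.mul_right
      ((Nat.Prime.coprime_iff_not_dvd Nat.prime_three).2 h3).symm
      ((Nat.Prime.coprime_iff_not_dvd Nat.prime_five).2 h5).symm
  have h4' : (D : ℤ) % 4 = 1 := by omega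
  obtain ⟨m1, -, -⟩ := hM D h4' (Int.squarefree_natCast.2 hs) (by exact_mod_cast h3)
    (by exact_mod_cast h5)
  have hΩ : Omega (WD (D : ℤ)) = 2 * Op / Real.sqrt D := by
    have := hO L Op Om hOp hOm g2 g3 hL (D : ℤ) h4' (by omega)
    simpa using this
  have hDR : (0 : ℝ) < D := by exact_mod_cast (by omega : 0 < D)
  have hsq : 0 < Real.sqrt D := Real.sqrt_pos.2 hDR
  have hΩ0 : 0 < Omega (WD (D : ℤ)) := by
    rw [hΩ]
    positivity
  obtain ⟨k, hk, hto⟩ := hTo D hs hm h1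
  obtain ⟨f, ε, hf, hε, hv⟩ := hV s Op hss D hs hD1 h4 h15
  obtain ⟨y, hy, hyo⟩ := hC s _ hsym D hs hm h1
  have htam := hT D hs hm
  refine ⟨m1, htam, hΩ0, ⟨k, hk, hto⟩, ⟨f, ε * s 0 * (k : ℤ) ^ 2, y, hf, ?_, hyo, ?_⟩, ?_, ?_⟩
  · have : Odd ε := by rcases hε with rfl | rfl <;> decide
    exact (this.mul hsym.odd0).mul (((Int.odd_coe_nat k).2 hk).pow)
  · have e1 : (f 1 * (Nat.card (AddCommGroup.torsion (EQ (WD (D : ℤ))).toAffine.Point) : ℂ) ^ 2 /
        ((Omega (WD (D : ℤ)) : ℝ) * (tamProd (WD (D : ℤ)) : ℂ))) =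
        (((ε * (s 0 * (4 ^ (D.primeFactors.card + 1) * (y : ℝ) ^ 2)) * Op / (4 * Real.sqrt D)) *
          (4 * k) ^ 2 / ((2 * Op / Real.sqrt D) * 2 ^ (2 * D.primeFactors.card + 3)) : ℝ) : ℂ) := by
      rw [hv, hto, htam, hΩ, hy]
      push_cast
      rfl
    rw [e1]
    have e2 : ((ε * (s 0 * (4 ^ (D.primeFactors.card + 1) * (y : ℝ) ^ 2)) * Op /
        (4 * Real.sqrt D)) * (4 * k) ^ 2 /
        ((2 * Op / Real.sqrt D) * 2 ^ (2 * D.primeFactors.card + 3)) : ℝ) =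
        ε * s 0 * (k : ℝ) ^ 2 * (y : ℝ) ^ 2 := by
      have e3 : (4 : ℝ) ^ (D.primeFactors.card + 1) = 2 ^ (2 * D.primeFactors.card) * 4 := by
        rw [pow_succ, pow_mul]
        norm_num
      have e4 : (2 : ℝ) ^ (2 * D.primeFactors.card + 3) = 2 ^ (2 * D.primeFactors.card) * 8 := by
        rw [pow_add]
        norm_num
      rw [e3, e4]
      have h20 : (2 : ℝ) ^ (2 * D.primeFactors.card) ≠ 0 := by positivity
      field_simp
      ring
    rw [e2]
    push_cast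
    ring
  · constructor
    · intro hc
      obtain ⟨a1, a2⟩ := hA D hs hm h1 hc
      exact ⟨a2, fun x hx => a1 1 x (by rw [pow_one, two_nsmul]; exact hx)⟩
    · rintro ⟨a1, a2⟩
      exact hConv D hs hm h1 a1 a2
  · intro hc
    exact (hA D hs hm h1 hc).1

end Pool.Agent.H757_X15.EE
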