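import Pool.Agent.H757_X15.StmE

/-!
# E9 (LOCE): local solubility at all places (MP_696deb_nt, helper782 for helper757)

The lemmas `padic_sq`, `padic_sq2` are those of `Pool/Agent/Z702/LocZ.lean`.
-/

set_option autoImplicit false
set_option linter.style.haveILetI false

namespace Pool.Agent.H757_X15.EE

namespace LOCE

open Polynomial

lemma padic_sq {p : ℕ} [hp : Fact p.Prime] (hp2 : p ≠ 2) {n : ℤ} (hn : ¬ (p : ℤ) ∣ n)
    (h : IsSquare (n : ZMod p)) : IsSquare (n : ℚ_[p]) := by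
  obtain ⟨a, ha⟩ := h
  obtain ⟨s, hs⟩ := ZMod.intCast_surjective a
  have h1 : (p : ℤ) ∣ s ^ 2 - n := by
    rw [← ZMod.intCast_zmod_eq_zero_iff_dvd]
    push_cast
    rw [ha, hs]
    ring
  have h2 : ¬ (p : ℤ) ∣ 2 * s := by
    intro h2
    have hpi : Prime (p : ℤ) := Nat.prime_iff_prime_int.1 hp.out
    rcases hpi.dvd_or_dvd h2 with h3 | h3
    · have h5 : p ∣ 2 := by exact_mod_cast h3
      exact hp2 ((Nat.prime_dvd_prime_iff_eq hp.out Nat.prime_two).1 h5)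
    · apply hn
      have := dvd_sub ((dvd_pow h3 two_ne_zero : (p : ℤ) ∣ s ^ 2)) h1
      simpa using this
  have e1 : ∀ w : ℤ_[p], (aeval w) (X ^ 2 - C (n : ℤ_[p]) : ℤ_[p][X]) = w ^ 2 - n := by
    intro w; simp
  have e2 : ∀ w : ℤ_[p], (aeval w) (derivative (X ^ 2 - C (n : ℤ_[p]) : ℤ_[p][X])) = 2 * w := by
    intro w; simp; norm_num
  obtain ⟨z, hz, -⟩ := hensels_lemma (p := p) (R := ℤ_[p]) (F := X ^ 2 - C (n : ℤ_[p]))
    (a := (s : ℤ_[p])) (by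
      rw [e1, e2]
      have h3 : ‖((s ^ 2 - n : ℤ) : ℤ_[p])‖ < 1 := by
        rw [PadicInt.norm_intCast_lt_one_iff]
        exact h1
      have h4 : ‖((2 * s : ℤ) : ℤ_[p])‖ = 1 := by
        have h5 : ¬ ‖((2 * s : ℤ) : ℤ_[p])‖ < 1 := by
          rw [PadicInt.norm_intCast_lt_one_iff]
          exact h2
        exact le_antisymm (PadicInt.norm_le_one _) (not_lt.1 h5)
      push_cast at h3 h4
      rw [h4]
      simpa using h3)
  rw [e1] at hz
  have h6 := congrArg (fun w : ℤ_[p] => (w : ℚ_[p])) (sub_eq_zero.1 hz)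
  push_cast at h6
  exact ⟨z, by rw [← h6]; ring⟩

lemma padic_sq2 {n : ℤ} (hn : n % 8 = 1) : IsSquare (n : ℚ_[2]) := by
  have e1 : ∀ w : ℤ_[2], (aeval w) (X ^ 2 - C (n : ℤ_[2]) : ℤ_[2][X]) = w ^ 2 - n := by
    intro w; simp
  have e2 : ∀ w : ℤ_[2], (aeval w) (derivative (X ^ 2 - C (n : ℤ_[2]) : ℤ_[2][X])) = 2 * w := by
    intro w; simp; norm_num
  obtain ⟨z, hz, -⟩ := hensels_lemma (p := 2) (R := ℤ_[2]) (F := X ^ 2 - C (n : ℤ_[2]))
    (a := 1) (by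
      rw [e1, e2]
      have h4 : ‖(2 : ℤ_[2])‖ = 2⁻¹ := by
        have := PadicInt.norm_p (p := 2)
        exact_mod_cast this
      have h3 : ‖((1 - n : ℤ) : ℤ_[2])‖ ≤ ((2 : ℕ) : ℝ) ^ (-(3 : ℕ) : ℤ) := by
        rw [PadicInt.norm_int_le_pow_iff_dvd]
        push_cast
        omega
      push_cast at h3
      rw [one_pow, mul_one, h4]
      refine lt_of_le_of_lt h3 ?_
      norm_num)
  rw [e1] at hz
  have h6 := congrArg (fun w : ℤ_[2] => (w : ℚ_[2])) (sub_eq_zero.1 hz)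
  push_cast at h6
  exact ⟨z, by rw [← h6]; ring⟩

lemma sq3 {n : ℤ} (h : n % 3 = 1) : IsSquare (n : ZMod 3) := by
  refine ⟨1, ?_⟩
  rw [mul_one, ← Int.cast_one (R := ZMod 3), ZMod.intCast_eq_intCast_iff]
  exact h

/-- the point `(-4 D, 0)`: it is enough that `-(D / d)` is a square -/
lemma loc_four {K : Type} [Field K] {D d m : ℕ} (hD : d * m = D) (hD0 : ((D : ℕ) : K) ≠ 0)
    (h4 : (4 : K) ≠ 0) (h : IsSquare ((-(m : ℤ) : ℤ) : K)) :
    Pool.Agent.Z702.LocI K (-34 * (D : ℤ)) (225 * (D : ℤ) ^ 2) d := by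
  obtain ⟨r, hr⟩ := h
  refine ⟨-4 * (D : K), 0, 2 * r, ?_, ?_, ?_⟩
  · exact mul_ne_zero (neg_ne_zero.2 h4) hD0
  · push_cast
    ring
  · have e : (D : K) = d * m := by rw [← hD]; push_cast; ring
    push_cast at hr ⊢
    rw [e]
    linear_combination (4 * (d : K)) * hr

/-- `l = 2`, `d ≡ 5` modulo `8` -/
lemma loc_two_five {D d : ℕ} (hD : D % 2 = 1) (hd : d % 8 = 5) :
    Pool.Agent.Z702.LocI ℚ_[2] (-34 * (D : ℤ)) (225 * (D : ℤ) ^ 2) d := by
  obtain ⟨y, hy⟩ := padic_sq2 (n := 5 * (5 + 4 * (D : ℤ)) * (5 + 64 * (D : ℤ))) (by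
    obtain ⟨k, hk⟩ : ∃ k, D = 2 * k + 1 := ⟨D / 2, by omega⟩
    subst hk
    push_cast
    have : 5 * (5 + 4 * (2 * (k : ℤ) + 1)) * (5 + 64 * (2 * (k : ℤ) + 1)) =
        8 * (640 * (k : ℤ) ^ 2 + 1065 * k + 388) + 1 := by ring
    omega)
  obtain ⟨s, hs⟩ := padic_sq2 (n := 5 * (d : ℤ)) (by omega)
  have hd0 : (d : ℚ_[2]) ≠ 0 := by
    have : d ≠ 0 := by omega
    exact_mod_cast this
  refine ⟨5, y, s / d, by norm_num, ?_, ?_⟩
  · push_cast at hy ⊢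
    linear_combination -hy
  · push_cast at hs ⊢
    field_simp
    linear_combination hs

/-- `l = 2`, `d ≡ -5 D` modulo `8` -/
lemma loc_two_neg {D d : ℕ} (hD : D % 2 = 1) (hd0 : d ≠ 0)
    (hd : (-(D : ℤ) * d * ((5 + 64 * D) * (5 + 4 * D))) % 8 = 1) :
    Pool.Agent.Z702.LocI ℚ_[2] (-34 * (D : ℤ)) (225 * (D : ℤ) ^ 2) d := by
  obtain ⟨y, hy⟩ := padic_sq2 (n := 5 * (5 + 4 * (D : ℤ)) * (5 + 64 * (D : ℤ))) (by
    obtain ⟨k, hk⟩ : ∃ k, D = 2 * k + 1 := ⟨D / 2, by omega⟩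
    subst hk
    push_cast
    have : 5 * (5 + 4 * (2 * (k : ℤ) + 1)) * (5 + 64 * (2 * (k : ℤ) + 1)) =
        8 * (640 * (k : ℤ) ^ 2 + 1065 * k + 388) + 1 := by ring
    omega)
  obtain ⟨w, hw⟩ := padic_sq2 hd
  have hd0' : (d : ℚ_[2]) ≠ 0 := by exact_mod_cast hd0
  have hD0' : (D : ℚ_[2]) ≠ 0 := by
    have : D ≠ 0 := by omega
    exact_mod_cast this
  have h5 : (5 + 4 * (D : ℚ_[2])) ≠ 0 := by
    have : (5 + 4 * D : ℕ) ≠ 0 := by omega
    exact_mod_cast this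
  have h6 : (5 + 64 * (D : ℚ_[2])) ≠ 0 := by
    have : (5 + 64 * D : ℕ) ≠ 0 := by omega
    exact_mod_cast this
  refine ⟨-4 * D * (5 + 64 * D) / (5 + 4 * D), 240 * D ^ 2 * y / (5 + 4 * D) ^ 2,
    2 * w / (d * (5 + 4 * D)), ?_, ?_, ?_⟩
  · exact div_ne_zero (mul_ne_zero (mul_ne_zero (by norm_num) hD0') h6) h5
  · have hX : (-4 * (D : ℚ_[2]) * (5 + 64 * D) / (5 + 4 * D)) * (5 + 4 * D) =
        -4 * (D : ℚ_[2]) * (5 + 64 * D) := div_mul_cancel₀ _ h5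
    have hY : (240 * (D : ℚ_[2]) ^ 2 * y / (5 + 4 * D) ^ 2) * (5 + 4 * D) ^ 2 =
        240 * (D : ℚ_[2]) ^ 2 * y := div_mul_cancel₀ _ (pow_ne_zero 2 h5)
    push_cast at hy ⊢
    generalize (-4 * (D : ℚ_[2]) * (5 + 64 * D) / (5 + 4 * D)) = x at hX ⊢
    generalize (240 * (D : ℚ_[2]) ^ 2 * y / (5 + 4 * D) ^ 2) = z at hY ⊢
    refine mul_left_cancel₀ (pow_ne_zero 4 h5) ?_
    have e1 : (5 + 4 * (D : ℚ_[2])) ^ 4 * z ^ 2 = (z * (5 + 4 * (D : ℚ_[2])) ^ 2) ^ 2 := by ring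
    have e2 : (5 + 4 * (D : ℚ_[2])) ^ 4 * (x ^ 3 - 2 * (-34 * (D : ℚ_[2])) * x ^ 2 +
        ((-34 * (D : ℚ_[2])) ^ 2 - 4 * (225 * (D : ℚ_[2]) ^ 2)) * x) =
        (5 + 4 * (D : ℚ_[2])) * ((x * (5 + 4 * (D : ℚ_[2]))) ^ 3 +
          68 * D * (x * (5 + 4 * (D : ℚ_[2]))) ^ 2 * (5 + 4 * (D : ℚ_[2])) +
          256 * D ^ 2 * (x * (5 + 4 * (D : ℚ_[2]))) * (5 + 4 * (D : ℚ_[2])) ^ 2) := by ring
    rw [e1, e2, hX, hY]
    linear_combination (-(57600 * (D : ℚ_[2]) ^ 4)) * hy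
  · push_cast at hw ⊢
    field_simp
    linear_combination 4 * hw

end LOCE

open LOCE in
theorem t_LOCE : S_LOCE := by
  intro hq hg D hsq hF d hd h5
  obtain ⟨hdD, h1, h2⟩ := hd
  obtain ⟨m, hm⟩ := hdD
  unfold Pool.Agent.H757_X15.DD.Fm at hF
  have hD2 : D % 4 = 1 := by omega
  have hD3 : D % 3 = 1 := by omega
  have hD5 : D % 5 ≠ 0 := by omega
  have hD0 : D ≠ 0 := by omega
  have hd0 : d ≠ 0 := by
    rintro rfl
    rw [zero_mul] at hm
    exact hD0 hm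
  have hdiv : D / d = m := by rw [hm]; exact Nat.mul_div_cancel_left m (Nat.pos_of_ne_zero hd0)
  rw [hdiv] at h2
  have hDz : (D : ℤ) ≠ 0 := by exact_mod_cast hD0
  have hdz : (d : ℤ) ≠ 0 := by exact_mod_cast hd0
  have hb : (225 * (D : ℤ) ^ 2) ≠ 0 := by positivity
  have hab : (-34 * (D : ℤ)) ^ 2 - 4 * (225 * (D : ℤ) ^ 2) ≠ 0 := by
    have e : (-34 * (D : ℤ)) ^ 2 - 4 * (225 * (D : ℤ) ^ 2) = 256 * (D : ℤ) ^ 2 := by ring
    rw [e]
    positivity
  obtain ⟨q1, q2⟩ := hq (-34 * (D : ℤ)) (225 * (D : ℤ) ^ 2) d hb hab hdz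
  have hcop : Nat.Coprime d m := by
    rw [hm] at hsq
    exact Nat.coprime_of_squarefree_mul hsq
  refine ⟨fun l hl => ?_, q2 (by positivity)⟩
  have hlp : l.Prime := hl.out
  have hDl : ((D : ℕ) : ℚ_[l]) ≠ 0 := by exact_mod_cast hD0
  have h4l : (4 : ℚ_[l]) ≠ 0 := by norm_num
  by_cases l2 : l = 2
  · subst l2
    have e8 : D % 8 = (d % 8) * (m % 8) % 8 := by rw [hm, Nat.mul_mod]
    have hd2 : d % 8 = 1 ∨ d % 8 = 5 ∨ d % 8 = 3 ∨ d % 8 = 7 := by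
      have a1 : d % 8 < 8 := Nat.mod_lt _ (by norm_num)
      have a2 : m % 8 < 8 := Nat.mod_lt _ (by norm_num)
      have a3 : D % 8 = 1 ∨ D % 8 = 5 := by omega
      generalize d % 8 = x at *
      generalize m % 8 = y at *
      interval_cases x <;> interval_cases y <;> omega
    rcases hd2 with h8 | h8 | h8 | h8
    · exact q1 2 (Or.inl (padic_sq2 (by omega)))
    · exact loc_two_five (by omega) h8
    · have a3 : D % 8 = 1 ∨ D % 8 = 5 := by omega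
      rcases a3 with a3 | a3
      · refine loc_two_neg (by omega) hd0 ?_
        obtain ⟨k, hk⟩ : ∃ k : ℤ, (D : ℤ) = 8 * k + 1 := ⟨D / 8, by omega⟩
        obtain ⟨j, hj⟩ : ∃ j : ℤ, (d : ℤ) = 8 * j + 3 := ⟨d / 8, by omega⟩
        rw [hk, hj]
        ring_nf
        omega
      · refine loc_four hm.symm hDl h4l (padic_sq2 ?_)
        have a2 : m % 8 < 8 := Nat.mod_lt _ (by norm_num)
        have : m % 8 = 7 := by
          rw [h8, a3] at e8
          generalize m % 8 = y at *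
          interval_cases y <;> omega
        omega
    · have a3 : D % 8 = 1 ∨ D % 8 = 5 := by omega
      rcases a3 with a3 | a3
      · refine loc_four hm.symm hDl h4l (padic_sq2 ?_)
        have a2 : m % 8 < 8 := Nat.mod_lt _ (by norm_num)
        have : m % 8 = 7 := by
          rw [h8, a3] at e8
          generalize m % 8 = y at *
          interval_cases y <;> omega
        omega
      · refine loc_two_neg (by omega) hd0 ?_
        obtain ⟨k, hk⟩ : ∃ k : ℤ, (D : ℤ) = 8 * k + 5 := ⟨D / 8, by omega⟩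
        obtain ⟨j, hj⟩ : ∃ j : ℤ, (d : ℤ) = 8 * j + 7 := ⟨d / 8, by omega⟩
        rw [hk, hj]
        ring_nf
        omega
  by_cases l3 : l = 3
  · subst l3
    have e3 : D % 3 = (d % 3) * (m % 3) % 3 := by rw [hm, Nat.mul_mod]
    have hd3 : (d % 3 = 1 ∧ m % 3 = 1) ∨ (d % 3 = 2 ∧ m % 3 = 2) := by
      have a1 : d % 3 < 3 := Nat.mod_lt _ (by norm_num)
      have a2 : m % 3 < 3 := Nat.mod_lt _ (by norm_num)
      rw [hD3] at e3
      generalize d % 3 = x at *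
      generalize m % 3 = y at *
      interval_cases x <;> interval_cases y <;> omega
    rcases hd3 with ⟨x3, y3⟩ | ⟨x3, y3⟩
    · refine q1 3 (Or.inl (padic_sq (by norm_num) (by omega) ?_))
      exact sq3 (by omega)
    · refine loc_four hm.symm hDl h4l (padic_sq (by norm_num) (by omega) ?_)
      exact sq3 (by omega)
  by_cases l5 : l = 5
  · subst l5
    refine q1 5 (Or.inl (padic_sq (by norm_num) ?_ (ZMod.isSquare_of_jacobiSym_eq_one h5)))
    intro h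
    have h' : 5 ∣ d := by exact_mod_cast h
    have h'' : 5 ∣ D := by rw [hm]; exact h'.mul_right m
    omega
  by_cases lD : l ∣ D
  · by_cases ld : l ∣ d
    · refine loc_four hm.symm hDl h4l (padic_sq l2 ?_ (ZMod.isSquare_of_jacobiSym_eq_one
        (h2 l hlp ld)))
      rw [dvd_neg]
      intro h
      have h' : l ∣ m := by exact_mod_cast h
      exact hlp.one_lt.ne' (Nat.eq_one_of_dvd_coprimes hcop ld h')
    · refine q1 l (Or.inl (padic_sq l2 ?_ (ZMod.isSquare_of_jacobiSym_eq_one (h1 l hlp lD ld))))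
      intro h
      exact ld (by exact_mod_cast h)
  · refine hg l D d l2 l3 l5 ?_ ?_
    · intro h
      exact lD (by exact_mod_cast h)
    · intro h
      have h' : l ∣ d := by exact_mod_cast h
      exact lD (by rw [hm]; exact h'.mul_right m)

end Pool.Agent.H757_X15.EE
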