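import Pool.Agent.H757_X15.StmE
import Pool.Agent.Z864.LQ.Lq
import Pool.Agent.Z894.LG

/-!
# Project X15-E, part E8: the primes of good reduction
-/

set_option autoImplicit false

namespace Pool.Agent.H757_X15.EE

open Pool.Agent.TH841.LS.LOCA0
open Pool.Agent.Z894.LG

theorem t_LOCG : S_LOCG := by
  intro p hp M d h2 h3 h5 hM hd
  have hMz : (M : ZMod p) ≠ 0 := by
    intro h0
    exact hM ((ZMod.intCast_zmod_eq_zero_iff_dvd M p).1 h0)
  have hdz : (d : ZMod p) ≠ 0 := by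
    intro h0
    exact hd ((ZMod.intCast_zmod_eq_zero_iff_dvd d p).1 h0)
  have hnz : ∀ q : ℕ, q.Prime → p ≠ q → ((q : ℕ) : ZMod p) ≠ 0 := by
    intro q hq hne h0
    rw [ZMod.natCast_eq_zero_iff] at h0
    exact hne ((Nat.prime_dvd_prime_iff_eq hp.out hq).1 h0)
  have h2z : (2 : ZMod p) ≠ 0 := by
    have := hnz 2 Nat.prime_two h2
    exact_mod_cast this
  have h3z : (3 : ZMod p) ≠ 0 := by
    have := hnz 3 Nat.prime_three h3
    exact_mod_cast this
  have h5z : (5 : ZMod p) ≠ 0 := by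
    have := hnz 5 Nat.prime_five h5
    exact_mod_cast this
  have hM0 : M ≠ 0 := by
    rintro rfl
    exact hM (dvd_zero _)
  have hd0 : d ≠ 0 := by
    rintro rfl
    exact hd (dvd_zero _)
  have hb0 : (225 * M ^ 2 : ℤ) ≠ 0 := by positivity
  have hc0 : (-34 * M : ℤ) ^ 2 - 4 * (225 * M ^ 2) ≠ 0 := by
    have : (-34 * M : ℤ) ^ 2 - 4 * (225 * M ^ 2) = 256 * M ^ 2 := by ring
    rw [this]
    exact mul_ne_zero (by norm_num) (pow_ne_zero 2 hM0)
  obtain ⟨hq, -⟩ := Pool.Agent.Z864.LQ.t_LQ (-34 * M) (225 * M ^ 2) d hb0 hc0 hd0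
  have hbz : (((225 * M ^ 2 : ℤ)) : ZMod p) ≠ 0 := by
    push_cast
    have : (225 : ZMod p) = (3 * 5) ^ 2 := by norm_num
    rw [this]
    exact mul_ne_zero (pow_ne_zero 2 (mul_ne_zero h3z h5z)) (pow_ne_zero 2 hMz)
  have hc1 : quadraticChar (ZMod p)
      ((((-34 * M : ℤ) : ZMod p)) ^ 2 - 4 * (((225 * M ^ 2 : ℤ)) : ZMod p)) = 1 := by
    have : (((-34 * M : ℤ) : ZMod p)) ^ 2 - 4 * (((225 * M ^ 2 : ℤ)) : ZMod p) =
        (2 ^ 4 * (M : ZMod p)) ^ 2 := by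
      push_cast
      ring
    rw [this]
    exact quadraticChar_sq_one' (mul_ne_zero (pow_ne_zero 4 h2z) hMz)
  rcases quadraticChar_dichotomy hdz with hd1 | hd1
  · apply hq p
    left
    obtain ⟨v, hv⟩ := sq_of_char h2 (u := (d : ℤ_[p])) (by rw [map_intCast]; exact hd1)
    refine ⟨v, ?_⟩
    have := congrArg (fun z : ℤ_[p] => (z : ℚ_[p])) hv
    push_cast at this
    exact this
  · exact aux p _ _ d h2 hbz hc1 hd0 hd1

end Pool.Agent.H757_X15.EE
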