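import Pool.Agent.H757_X15.StmE

/-!
# X15-E12: the rank form for the short equation (RANK)
-/

set_option autoImplicit false

namespace Pool.Agent.H757_X15.EE

open Pool.Agent.W97.MT (ap)
open Pool.Agent.Y700 (EQ VR)
open Pool.Agent.Z702 (S_TRN)
open Pool.Agent.H757_X15 (WD Symb15 II)
open Pool.Agent.H757_X15.DD (Fm Crit)
open Pool.Agent.H757_X15.CC (S_MAINC2)
open Pool.Agent.Y687 (SS)

/-- the short equation of the twist -/
def shE (D : ℚ) : WeierstrassCurve ℚ := ⟨0, 0, 0, -12987 * D ^ 2, -263466 * D ^ 3⟩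

/-- from the short equation to the minimal one: `X = 36 x + 15 M`, `Y = 216 y + 108 x + 108` -/
theorem vr_sh {M : ℤ} (hM : M % 4 = 1) :
    VR (shE (M : ℚ)) (EQ (WD M)) 6 (15 * M) 3 108 := by
  obtain ⟨k, rfl⟩ : ∃ k : ℤ, M = 4 * k + 1 := ⟨M / 4, by omega⟩
  have h2 : (5 * (4 * k + 1) - 1) / 4 = 5 * k + 1 := by omega
  have h4 : (19 * (4 * k + 1) ^ 2 + 1) / 2 = 152 * k ^ 2 + 76 * k + 10 := by
    have : 19 * (4 * k + 1) ^ 2 + 1 = (152 * k ^ 2 + 76 * k + 10) * 2 := by ring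
    rw [this, Int.mul_ediv_cancel _ (by norm_num)]
  have h6 : (39 * (4 * k + 1) ^ 3 + 1) / 4 = 624 * k ^ 3 + 468 * k ^ 2 + 117 * k + 10 := by
    have : 39 * (4 * k + 1) ^ 3 + 1 = (624 * k ^ 3 + 468 * k ^ 2 + 117 * k + 10) * 4 := by ring
    rw [this, Int.mul_ediv_cancel _ (by norm_num)]
  have hW : EQ (WD (4 * k + 1)) = ⟨1, 5 * k + 1, 1, -(152 * (k : ℚ) ^ 2 + 76 * k + 10),
      -(624 * (k : ℚ) ^ 3 + 468 * k ^ 2 + 117 * k + 10)⟩ := by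
    unfold EQ WD WeierstrassCurve.map
    rw [h2, h4, h6]
    simp
  rw [hW]
  unfold shE
  constructor
  · norm_num
  · show (6 : ℚ) * 1 = 0 + 2 * 3
    norm_num
  · show (6 : ℚ) ^ 2 * (5 * k + 1) = 0 - 3 * 0 + 3 * (15 * ((4 * k + 1 : ℤ) : ℚ)) - 3 ^ 2
    push_cast
    ring
  · show (6 : ℚ) ^ 3 * 1 = 0 + 15 * ((4 * k + 1 : ℤ) : ℚ) * 0 + 2 * 108
    norm_num
  · show (6 : ℚ) ^ 4 * (-(152 * (k : ℚ) ^ 2 + 76 * k + 10)) =
      -12987 * ((4 * k + 1 : ℤ) : ℚ) ^ 2 - 3 * 0 + 2 * (15 * ((4 * k + 1 : ℤ) : ℚ)) * 0 -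
        (108 + 15 * ((4 * k + 1 : ℤ) : ℚ) * 3) * 0 + 3 * (15 * ((4 * k + 1 : ℤ) : ℚ)) ^ 2 -
        2 * 3 * 108
    push_cast
    ring
  · show (6 : ℚ) ^ 6 * (-(624 * (k : ℚ) ^ 3 + 468 * k ^ 2 + 117 * k + 10)) =
      -263466 * ((4 * k + 1 : ℤ) : ℚ) ^ 3 +
        15 * ((4 * k + 1 : ℤ) : ℚ) * (-12987 * ((4 * k + 1 : ℤ) : ℚ) ^ 2) +
        (15 * ((4 * k + 1 : ℤ) : ℚ)) ^ 2 * 0 + (15 * ((4 * k + 1 : ℤ) : ℚ)) ^ 3 - 108 * 0 -
        108 ^ 2 - 15 * ((4 * k + 1 : ℤ) : ℚ) * 108 * 0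
    push_cast
    ring

theorem delta_sh (D : ℚ) : (shE D).Δ = 15 ^ 4 * 6 ^ 12 * D ^ 6 := by
  unfold shE WeierstrassCurve.Δ WeierstrassCurve.b₂ WeierstrassCurve.b₄ WeierstrassCurve.b₆
    WeierstrassCurve.b₈
  ring

/-- finiteness for the minimal equation gives finiteness for the short one -/
theorem fin_sh (hT : S_TRN) {D : ℕ} (h4 : D % 4 = 1)
    (h : Finite (EQ (WD D)).toAffine.Point) :
    Finite (WeierstrassCurve.mk 0 0 0 (-12987 * (D : ℚ) ^ 2)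
      (-263466 * (D : ℚ) ^ 3)).toAffine.Point := by
  have hv := vr_sh (M := (D : ℤ)) (by omega)
  have hD : ((D : ℤ) : ℚ) ≠ 0 := by
    have : D ≠ 0 := by omega
    exact_mod_cast this
  have hne : (EQ (WD (D : ℤ))).Δ ≠ 0 := by
    intro h0
    have h1 := hv.delta
    rw [h0, delta_sh, mul_zero] at h1
    have : (15 : ℚ) ^ 4 * 6 ^ 12 * ((D : ℤ) : ℚ) ^ 6 ≠ 0 :=
      mul_ne_zero (by norm_num) (pow_ne_zero 6 hD)
    exact this h1
  have h1 := (hT _ _ _ _ _ _ hv hne).1.2 h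
  have h2 : shE ((D : ℤ) : ℚ) = WeierstrassCurve.mk 0 0 0 (-12987 * (D : ℚ) ^ 2)
      (-263466 * (D : ℚ) ^ 3) := by
    unfold shE
    push_cast
    rfl
  rw [h2] at h1
  exact h1

theorem fm_facts {D : ℕ} (h : Fm D) (h1 : D ≠ 1) : 1 < D ∧ D % 4 = 1 ∧ Nat.Coprime D 15 := by
  have h3 : ¬ 3 ∣ D := by
    rcases h with h | h <;> omega
  have h5 : ¬ 5 ∣ D := by
    rcases h with h | h <;> omega
  refine ⟨by rcases h with h | h <;> omega, by rcases h with h | h <;> omega, ?_⟩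
  have : (15 : ℕ) = 3 * 5 := rfl
  rw [this]
  exact Nat.Coprime.mul_right
    ((Nat.Prime.coprime_iff_not_dvd Nat.prime_three).2 h3).symm
    ((Nat.Prime.coprime_iff_not_dvd Nat.prime_five).2 h5).symm

/-- E12: the rank form -/
theorem t_RANKA (hS : S_SYMB) (hE : S_EUL) (hC : S_MAINC2) (hT : S_TRN) (hA : S_ALG) :
    S_RANK := by
  intro D hsq hF h1 hcr
  obtain ⟨h1', h4, h15⟩ := fm_facts hF h1
  refine ⟨fin_sh hT h4 (hA D hsq hF h1 hcr).2, ?_⟩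
  obtain ⟨s, L, Op, Om, hOp, -, -, -, -, hsym, hval⟩ := hS
  obtain ⟨y, hy, hyc⟩ := hC s _ hsym D hsq hF h1
  have hy0 : y ≠ 0 := by
    rintro rfl
    exact absurd (hyc.2 hcr) (by decide)
  have hs0 : s 0 ≠ 0 := by
    intro h0
    have := hsym.odd0
    rw [h0] at this
    exact absurd this (by decide)
  apply hE s Op hOp hval D hsq h1' h4 h15
  rw [hy]
  exact mul_ne_zero hs0 (mul_ne_zero (pow_ne_zero _ (by norm_num)) (pow_ne_zero 2 hy0))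

end Pool.Agent.H757_X15.EE
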