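import Pool.Agent.H757_X15.StmE
import Pool.Agent.Y809.BSD14.Selb

/-!
# The second isogeny Selmer set of the twists of `X_0(15)`
-/

set_option autoImplicit false

namespace Pool.Agent.H757_X15.EE

open Pool.Agent.Y700 (PC)
open Pool.Agent.Y814.BSD14
open Pool.Agent.Y809.BSD14 (sq_of_PC exists_int)
open Pool.Agent.H757_X15.DD (Fm Crit)

namespace SB

theorem val_add {l : ℕ} [hl : Fact l.Prime] {a b : ℚ_[l]} (ha : a ≠ 0) (hb : b ≠ 0)
    (h : a.valuation < b.valuation) : a + b ≠ 0 ∧ (a + b).valuation = a.valuation := by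
  have h1 : (1 : ℝ) < l := by exact_mod_cast hl.out.one_lt
  have h2 : ‖b‖ < ‖a‖ := by
    rw [Padic.norm_eq_zpow_neg_valuation ha, Padic.norm_eq_zpow_neg_valuation hb]
    exact (zpow_lt_zpow_iff_right₀ h1).2 (by omega)
  have h3 : ‖a + b‖ = ‖a‖ := by
    rw [Padic.add_eq_max_of_ne h2.ne', max_eq_left h2.le]
  have h4 : a + b ≠ 0 := by
    rw [← norm_ne_zero_iff, h3]; exact norm_ne_zero_iff.2 ha
  exact ⟨h4, val_eq_of_norm_eq h4 ha h3⟩

theorem key8a : ∀ n u u' D : ZMod 8, (D = 1 ∨ D = 5) → u * u' = 1 →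
    ¬ (n ^ 2 = u * (D + 2 * u) * (u + 8 * D)) := by decide

theorem key8b : ∀ n u u' D : ZMod 8, (D = 1 ∨ D = 5) → u * u' = 1 →
    ¬ (n ^ 2 = u * (D + 8 * u) * (u + 2 * D)) := by decide

theorem mod4_8 (M : ℤ) (hM : M % 4 = 1) : (M : ZMod 8) = 1 ∨ (M : ZMod 8) = 5 := by
  have h : M % 8 = 1 ∨ M % 8 = 5 := by omega
  have h2 : (M : ZMod 8) = ((M % 8 : ℤ) : ZMod 8) := by
    rw [ZMod.intCast_eq_intCast_iff]
    exact (Int.mod_modEq M 8).symm
  rcases h with h | h <;> rw [h2, h] <;> simp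

/-- no `2`-adic point with the polynomial `c` at a unit -/
theorem no_pt8 (M c1 c2 : ℤ)
    (key : ∀ n u u' : ZMod 8, u * u' = 1 → ¬ (n ^ 2 = u * (M + c1 * u) * (u + c2 * M)))
    (u n : ℚ_[2]) (hu : ‖u‖ = 1)
    (h : n ^ 2 = u * (M + c1 * u) * (u + c2 * M)) : False := by
  obtain ⟨f⟩ : Nonempty (ℤ_[2] →+* ZMod 8) := ⟨PadicInt.toZModPow (p := 2) 3⟩
  obtain ⟨v, hv⟩ := exists_int (l := 2) (x := u) hu.le
  obtain ⟨v', hv'⟩ := exists_int (l := 2) (x := u⁻¹) (by rw [norm_inv, hu, inv_one])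
  have hu0 : u ≠ 0 := by rintro rfl; simp at hu
  set P : ℤ_[2] := v * (M + c1 * v) * (v + c2 * M) with hP
  have h1 : n ^ 2 = (P : ℚ_[2]) := by
    rw [h, hP]
    push_cast
    rw [hv]
  have h2 : ‖n‖ ≤ 1 := by
    have h3 : ‖n‖ ^ 2 ≤ 1 := by
      rw [← norm_pow, h1]; exact P.2
    by_contra h4
    push Not at h4
    nlinarith
  obtain ⟨m, hm⟩ := exists_int (l := 2) h2
  have h5 : m ^ 2 = P := by
    apply PadicInt.ext
    push_cast
    rw [hm, h1]
  have h6 := congrArg f h5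
  rw [hP] at h6
  simp only [map_pow, map_mul, map_add, map_intCast] at h6
  refine key (f m) (f v) (f v') ?_ h6
  rw [← map_mul]
  have : v * v' = 1 := by
    apply PadicInt.ext
    push_cast
    rw [hv, hv', mul_inv_cancel₀ hu0]
  rw [this, map_one]

theorem val_two : (2 : ℚ_[2]).valuation = 1 := by
  exact_mod_cast Padic.valuation_p (p := 2)

/-- `z` is odd -/
theorem not_two {D z : ℤ} (hD : D % 4 = 1) (hz : Squarefree z)
    (h : PC (68 * D) (256 * D ^ 2) 2 z) : ¬ (2 : ℤ) ∣ z := by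
  intro h2
  obtain ⟨x, y, hy, h1, hs⟩ := h
  have hx := ne_zero_of_eq hy h1
  have hodd := odd_val (l := 2) hx hz (by exact_mod_cast h2) hs
  have hDn : ‖(D : ℚ_[2])‖ = 1 := by
    refine le_antisymm (Padic.norm_int_le_one D) (not_lt.1 fun h => ?_)
    have := Padic.norm_intCast_lt_one_iff.1 h
    push_cast at this
    omega
  have hD0 : (D : ℚ_[2]) ≠ 0 := by
    intro h0
    rw [h0, norm_zero] at hDn
    exact zero_ne_one hDn
  have h20 : (2 : ℚ_[2]) ≠ 0 := two_ne_zero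
  have vD := val_of_norm_one hDn
  have v4 : ((2 : ℚ_[2]) ^ 2 * D).valuation = 2 := by
    rw [Padic.valuation_mul (pow_ne_zero 2 h20) hD0, Padic.valuation_pow, val_two, vD]
    norm_num
  have v64 : ((2 : ℚ_[2]) ^ 6 * D).valuation = 6 := by
    rw [Padic.valuation_mul (pow_ne_zero 6 h20) hD0, Padic.valuation_pow, val_two, vD]
    norm_num
  have n4 : (2 : ℚ_[2]) ^ 2 * D ≠ 0 := mul_ne_zero (pow_ne_zero 2 h20) hD0
  have n64 : (2 : ℚ_[2]) ^ 6 * D ≠ 0 := mul_ne_zero (pow_ne_zero 6 h20) hD0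
  have hf : y ^ 2 = x * ((x + 2 ^ 2 * D) * (x + 2 ^ 6 * D)) := by
    push_cast at h1
    linear_combination h1
  have ha : x + 2 ^ 2 * D ≠ 0 := by
    intro h0; rw [h0] at hf; apply hy; simpa using hf
  have hb : x + 2 ^ 6 * D ≠ 0 := by
    intro h0; rw [h0] at hf; apply hy; simpa using hf
  have hv := congrArg Padic.valuation hf
  rw [Padic.valuation_mul hx (mul_ne_zero ha hb), Padic.valuation_mul ha hb,
    Padic.valuation_pow] at hv
  push_cast at hv
  obtain ⟨k, hk⟩ := hodd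
  have cases : x.valuation < 2 ∨ x.valuation = 3 ∨ x.valuation = 5 ∨ 6 < x.valuation := by omega
  rcases cases with c | c | c | c
  · have e1 := (val_add hx n4 (by rw [v4]; exact c)).2
    have e2 := (val_add hx n64 (by rw [v64]; omega)).2
    rw [e1, e2] at hv
    omega
  · -- valuation 3
    obtain ⟨u, hu⟩ : ∃ u, x = 2 ^ 3 * u := ⟨x / 2 ^ 3, by field_simp⟩
    have hu0 : u ≠ 0 := by rintro rfl; apply hx; rw [hu]; ring
    have vu : u.valuation = 0 := by
      rw [hu, Padic.valuation_mul (pow_ne_zero 3 h20) hu0, Padic.valuation_pow, val_two] at c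
      push_cast at c
      omega
    have nu := norm_eq_one_of_val hu0 vu
    refine no_pt8 D 2 8 ?_ u (y / 2 ^ 4) nu ?_
    · intro n u u' huu h
      refine key8a n u u' D (mod4_8 D hD) huu ?_
      rw [h]; push_cast; ring
    · rw [hu] at hf
      push_cast
      field_simp
      linear_combination hf
  · obtain ⟨u, hu⟩ : ∃ u, x = 2 ^ 5 * u := ⟨x / 2 ^ 5, by field_simp⟩
    have hu0 : u ≠ 0 := by rintro rfl; apply hx; rw [hu]; ring
    have vu : u.valuation = 0 := by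
      rw [hu, Padic.valuation_mul (pow_ne_zero 5 h20) hu0, Padic.valuation_pow, val_two] at c
      push_cast at c
      omega
    have nu := norm_eq_one_of_val hu0 vu
    refine no_pt8 D 8 2 ?_ u (y / 2 ^ 6) nu ?_
    · intro n u u' huu h
      refine key8b n u u' D (mod4_8 D hD) huu ?_
      rw [h]; push_cast; ring
    · rw [hu] at hf
      push_cast
      field_simp
      linear_combination hf
  · have e1 := (val_add n4 hx (by rw [v4]; omega)).2
    have e2 := (val_add n64 hx (by rw [v64]; exact c)).2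
    rw [add_comm, v4] at e1
    rw [add_comm, v64] at e2
    rw [e1, e2] at hv
    omega

/-- an integral equation at a prime not dividing `z` -/
theorem eqn_of_PC {l : ℕ} [hl : Fact l.Prime] {a b z : ℤ} (hz : ¬ (l : ℤ) ∣ z)
    (h : PC a b l z) : ∃ n r e : ZMod l, (r = 1 ∨ e = 1) ∧
      z * n ^ 2 = z ^ 2 * r ^ 4 + a * z * r ^ 2 * e ^ 2 + b * e ^ 4 := by
  obtain ⟨x, y, hy, h1, t, ht⟩ := h
  have hx := ne_zero_of_eq hy h1
  have hz0 : (z : ℚ_[l]) ≠ 0 := by
    have : z ≠ 0 := by rintro rfl; exact hz (dvd_zero _)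
    exact_mod_cast this
  have hzn : ‖(z : ℚ_[l])‖ = 1 := by
    refine le_antisymm (Padic.norm_int_le_one z) (not_lt.1 fun h => hz ?_)
    exact Padic.norm_intCast_lt_one_iff.1 h
  obtain ⟨s, hs⟩ : ∃ s : ℚ_[l], t = s * z := ⟨t / z, by field_simp⟩
  have hxs : x = z * s ^ 2 := by
    apply mul_right_cancel₀ hz0
    rw [ht, hs]
    ring
  subst hxs
  have hs0 : s ≠ 0 := by
    rintro rfl
    apply hx
    ring
  obtain ⟨N, hN⟩ : ∃ N : ℚ_[l], y = s * z * N := ⟨y / (s * z), by field_simp⟩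
  subst hN
  have h2 : z * N ^ 2 = z ^ 2 * s ^ 4 + a * z * s ^ 2 + b := by
    have h3 : (z : ℚ_[l]) * s ^ 2 ≠ 0 := mul_ne_zero hz0 (pow_ne_zero 2 hs0)
    apply mul_left_cancel₀ h3
    linear_combination h1
  have nint : ∀ n : ℤ_[l], ‖(n : ℚ_[l])‖ ≤ 1 := fun n => n.2
  have hint : ∀ (n : ℚ_[l]) (r : ℤ_[l]), z * n ^ 2 = r → ∃ k : ℤ_[l], (k : ℚ_[l]) = n := by
    intro n r hr
    apply exists_int
    have h4 := congrArg norm hr
    rw [norm_mul, hzn, one_mul, norm_pow] at h4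
    have h5 : ‖n‖ ^ 2 ≤ 1 := h4.trans_le (nint r)
    by_contra h6
    push Not at h6
    nlinarith
  rcases le_or_gt 1 ‖s‖ with h3 | h3
  · obtain ⟨e, he⟩ := exists_int (l := l) (x := s⁻¹) (by
      rw [norm_inv]; exact inv_le_one_of_one_le₀ h3)
    have hse : s * e = 1 := by rw [he, mul_inv_cancel₀ hs0]
    obtain ⟨r, hr⟩ : ∃ r : ℤ_[l], r = z ^ 2 + a * z * e ^ 2 + b * e ^ 4 := ⟨_, rfl⟩
    have h4 : (z : ℚ_[l]) * (N * (e : ℚ_[l]) ^ 2) ^ 2 = r := by
      rw [hr]
      push_cast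
      have h5 : s ^ 2 * (e : ℚ_[l]) ^ 2 = 1 := by rw [← mul_pow, hse, one_pow]
      linear_combination (e : ℚ_[l]) ^ 4 * h2 + (z ^ 2 * (s ^ 2 * (e : ℚ_[l]) ^ 2 + 1) +
        a * z * (e : ℚ_[l]) ^ 2) * h5
    obtain ⟨n, hn⟩ := hint _ r h4
    have h5 : (z : ℤ_[l]) * n ^ 2 = r := by
      apply PadicInt.ext
      push_cast
      rw [hn]
      exact h4
    have h6 := congrArg (PadicInt.toZMod (p := l)) h5
    rw [hr] at h6
    simp only [map_mul, map_add, map_pow, map_intCast] at h6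
    exact ⟨PadicInt.toZMod n, 1, PadicInt.toZMod e, Or.inl rfl, h6.trans (by ring)⟩
  · obtain ⟨e, he⟩ := exists_int (l := l) (x := s) h3.le
    obtain ⟨r, hr⟩ : ∃ r : ℤ_[l], r = z ^ 2 * e ^ 4 + a * z * e ^ 2 + b := ⟨_, rfl⟩
    have h4 : (z : ℚ_[l]) * N ^ 2 = r := by
      rw [hr]
      push_cast
      rw [he, h2]
    obtain ⟨n, hn⟩ := hint _ r h4
    have h5 : (z : ℤ_[l]) * n ^ 2 = r := by
      apply PadicInt.ext
      push_cast
      rw [hn]
      exact h4
    have h6 := congrArg (PadicInt.toZMod (p := l)) h5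
    rw [hr] at h6
    simp only [map_mul, map_add, map_pow, map_intCast] at h6
    exact ⟨PadicInt.toZMod n, PadicInt.toZMod e, 1, Or.inr rfl, h6.trans (by ring)⟩

theorem key5 : ∀ D z n r e : ZMod 5, (D = 1 ∨ D = 4) → z ≠ 0 → (r = 1 ∨ e = 1) →
    z * n ^ 2 = z ^ 2 * r ^ 4 + 68 * D * z * r ^ 2 * e ^ 2 + 256 * D ^ 2 * e ^ 4 →
    z = 1 ∨ z = 4 := by
  rintro D z n r e (rfl | rfl) hz (rfl | rfl)
  · revert z n e; decide
  · revert z n r; decide
  · revert z n e; decide
  · revert z n r; decide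

theorem key5b : ∀ a b : ZMod 5, (a * b = 1 ∨ a * b = 4) → (-a = 1 ∨ -a = 4) → b = 1 ∨ b = 4 := by
  decide

theorem jac_of_sq {p : ℕ} [Fact p.Prime] {a : ℤ} (h0 : ¬ (p : ℤ) ∣ a)
    (h : IsSquare (a : ZMod p)) : jacobiSym a p = 1 := by
  rw [← jacobiSym.legendreSym.to_jacobiSym]
  refine (legendreSym.eq_one_iff p ?_).2 h
  rw [Ne, ZMod.intCast_zmod_eq_zero_iff_dvd]
  exact h0

theorem mod5 (M : ℤ) (hM : M % 5 = 1 ∨ M % 5 = 4) : (M : ZMod 5) = 1 ∨ (M : ZMod 5) = 4 := by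
  have h2 : (M : ZMod 5) = ((M % 5 : ℤ) : ZMod 5) := by
    rw [ZMod.intCast_eq_intCast_iff]
    exact (Int.mod_modEq M 5).symm
  rcases hM with h | h <;> rw [h2, h] <;> simp

end SB

open SB

theorem t_SELB : S_SELB := by
  intro D hD hF hD1 hC z hz h0
  have hF' : D % 60 = 1 ∨ D % 60 = 49 := hF
  have h : ∀ (l : ℕ) [Fact l.Prime], PC (68 * (D : ℤ)) (256 * (D : ℤ) ^ 2) l z := by
    intro l _
    have := h0 l
    rwa [show (-2 : ℤ) * (-34 * D) = 68 * D by ring,
      show ((-34 : ℤ) * D) ^ 2 - 4 * (225 * (D : ℤ) ^ 2) = 256 * (D : ℤ) ^ 2 by ring] at this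
  have hDp : 0 < D := Nat.pos_of_ne_zero hD.ne_zero
  have hDz : Squarefree (D : ℤ) := Int.squarefree_natCast.2 hD
  have z2 : ¬ (2 : ℤ) ∣ z := not_two (D := D) (by omega) hz (h 2)
  -- the primes dividing `z` divide `D`
  have key : ∀ q : ℕ, q.Prime → (q : ℤ) ∣ z → q ∣ D := by
    intro q hq hqz
    by_contra hqD
    have : Fact q.Prime := ⟨hq⟩
    have hqP : Prime (q : ℤ) := Nat.prime_iff_prime_int.1 hq
    refine not_dvd_of_PC hz ?_ (h q) hqz
    intro h1
    rcases hqP.dvd_or_dvd h1 with h1 | h1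
    · have h2 : q ∣ 256 := by exact_mod_cast h1
      rw [show (256 : ℕ) = 2 ^ 8 by norm_num] at h2
      have h3 := (Nat.prime_dvd_prime_iff_eq hq Nat.prime_two).1 (hq.dvd_of_dvd_pow h2)
      subst h3
      exact z2 (by exact_mod_cast hqz)
    · exact hqD (by exact_mod_cast hqP.dvd_of_dvd_pow h1)
  have hdD : z.natAbs ∣ D := by
    have hn : Squarefree z.natAbs := Int.squarefree_natAbs.2 hz
    rw [← Nat.prod_primeFactors_of_squarefree hn, ← Nat.prod_primeFactors_of_squarefree hD]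
    apply Finset.prod_dvd_prod_of_subset
    intro q hq
    rw [Nat.mem_primeFactors] at hq ⊢
    exact ⟨hq.1, key q hq.1 (Int.natCast_dvd.2 hq.2.1), hDp.ne'⟩
  have z5 : ¬ (5 : ℤ) ∣ z := by
    intro h5
    have := key 5 (by norm_num) (by exact_mod_cast h5)
    omega
  -- the classes at `p ∣ D`
  have big : ∀ p : ℕ, p.Prime → p ∣ D → p ≠ 2 ∧ p ≠ 3 ∧ p ≠ 5 := by
    intro p hp hpD
    refine ⟨?_, ?_, ?_⟩ <;> rintro rfl <;> omega
  have F1 : ∀ p : ℕ, p.Prime → p ∣ D → ¬ (p : ℤ) ∣ z → IsSquare (z : ZMod p) := by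
    intro p hp hpD hpz
    have : Fact p.Prime := ⟨hp⟩
    obtain ⟨M1, rfl⟩ := hpD
    have hM1 : ¬ (p : ℤ) ∣ (M1 : ℤ) := not_dvd_of_sqf hp hDz (by push_cast; ring)
    have hb := (big p hp (dvd_mul_right _ _)).1
    have h1 := h p
    push_cast at h1
    refine sq_of_PC (A0 := 68) (B0 := 256) hpz hM1 ?_ ⟨16, by push_cast; norm_num⟩ h1
    intro h1
    have h2 : p ∣ 256 := by exact_mod_cast h1
    rw [show (256 : ℕ) = 2 ^ 8 by norm_num] at h2
    exact hb ((Nat.prime_dvd_prime_iff_eq hp Nat.prime_two).1 (hp.dvd_of_dvd_pow h2))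
  have F2 : ∀ p : ℕ, p.Prime → ∀ D' z' : ℤ, (D : ℤ) = p * D' → z = p * z' →
      IsSquare ((-(D' * z') : ℤ) : ZMod p) := by
    intro p hp D' z' hD' hz'
    have : Fact p.Prime := ⟨hp⟩
    have hpP : Prime (p : ℤ) := Nat.prime_iff_prime_int.1 hp
    have hM1 : ¬ (p : ℤ) ∣ D' := not_dvd_of_sqf hp hDz hD'
    have hpD : p ∣ D := by
      have : (p : ℤ) ∣ (D : ℤ) := ⟨D', hD'⟩
      exact_mod_cast this
    have hb := (big p hp hpD).1
    have h1 := h p
    rw [hD', show (68 : ℤ) * (p * D') = p * (68 * D') by ring,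
      show (256 : ℤ) * (p * D') ^ 2 = (p : ℤ) ^ 2 * (256 * D' ^ 2) by ring] at h1
    have hB : ¬ (p : ℤ) ∣ 256 * D' ^ 2 := by
      intro h1
      rcases hpP.dvd_or_dvd h1 with h1 | h1
      · have h2 : p ∣ 256 := by exact_mod_cast h1
        rw [show (256 : ℕ) = 2 ^ 8 by norm_num] at h2
        exact hb ((Nat.prime_dvd_prime_iff_eq hp Nat.prime_two).1 (hp.dvd_of_dvd_pow h2))
      · exact hM1 (hpP.dvd_of_dvd_pow h1)
    obtain ⟨r, hr, hr0, hr2⟩ := root_of_PC hz ⟨z', hz'⟩ hB h1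
    have hr3 := hr2 z' hz'
    have hrr : (r + 4 * (D' : ZMod p)) * (r + 64 * D') = 0 := by
      push_cast at hr
      linear_combination hr
    have n2 : (2 : ZMod p) ≠ 0 := by exact_mod_cast cast_ne hp Nat.prime_two hb
    obtain ⟨t, ht⟩ := hr3
    rcases mul_eq_zero.1 hrr with h6 | h6
    · have h7 : r = -4 * (D' : ZMod p) := by linear_combination h6
      refine ⟨t / 2, ?_⟩
      push_cast
      rw [h7] at ht
      field_simp
      linear_combination ht
    · have h7 : r = -64 * (D' : ZMod p) := by linear_combination h6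
      refine ⟨t / 2 ^ 3, ?_⟩
      push_cast
      rw [h7] at ht
      field_simp
      linear_combination ht
  have F5 : (z : ZMod 5) = 1 ∨ (z : ZMod 5) = 4 := by
    have : Fact (Nat.Prime 5) := ⟨by norm_num⟩
    obtain ⟨n, r, e, hre, he⟩ := eqn_of_PC (l := 5) (by exact_mod_cast z5) (h 5)
    refine key5 D z n r e ?_ ?_ hre ?_
    · have := mod5 D (by omega)
      simpa using this
    · rw [Ne, ZMod.intCast_zmod_eq_zero_iff_dvd]
      exact_mod_cast z5
    · rw [he]; push_cast; ring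
  obtain ⟨e, he⟩ := hdD
  obtain ⟨d, hd⟩ : ∃ d, d = z.natAbs := ⟨_, rfl⟩
  rw [← hd] at he
  have he' : (D : ℤ) = d * e := by exact_mod_cast he
  have hd0 : 0 < d := Nat.pos_of_ne_zero (by rintro rfl; simp at he; omega)
  have he0 : 0 < e := Nat.pos_of_ne_zero (by rintro rfl; simp at he; omega)
  have sq1 : IsSquare (1 : ZMod 5) := ⟨1, by ring⟩
  have sq4 : IsSquare (4 : ZMod 5) := ⟨2, by ring⟩
  have f5 : Fact (Nat.Prime 5) := ⟨by norm_num⟩
  have hD5 : (D : ZMod 5) = 1 ∨ (D : ZMod 5) = 4 := by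
    have := mod5 D (by omega)
    simpa using this
  rcases Int.natAbs_eq z with hc | hc
  · left
    rw [← hd] at hc
    have h1 : d = 1 := by
      refine hC d ⟨e, he⟩ ?_ ?_ ?_
      · intro p hp hpD hpd
        have : Fact p.Prime := ⟨hp⟩
        have hpz : ¬ (p : ℤ) ∣ z := by rw [hc]; exact_mod_cast hpd
        have := F1 p hp hpD hpz
        rw [hc] at this hpz
        exact jac_of_sq hpz this
      · intro p hp hpd
        have : Fact p.Prime := ⟨hp⟩
        obtain ⟨d1, hd1⟩ := hpd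
        have hde : D / d = e := by rw [he]; exact Nat.mul_div_cancel_left e hd0
        rw [hde]
        have hD' : (D : ℤ) = p * (d1 * e) := by rw [he', hd1]; push_cast; ring
        have hz' : z = p * d1 := by rw [hc, hd1]; push_cast; ring
        have n1 : ¬ (p : ℤ) ∣ (d1 * e : ℤ) := not_dvd_of_sqf hp hDz hD'
        have n2 : ¬ (p : ℤ) ∣ (d1 : ℤ) := fun h => n1 (h.mul_right _)
        have n3 : ¬ (p : ℤ) ∣ (e : ℤ) := fun h => n1 (h.mul_left _)
        obtain ⟨t, ht⟩ := F2 p hp _ _ hD' hz'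
        have m2 : (d1 : ZMod p) ≠ 0 := by
          intro h0; apply n2
          rw [← ZMod.intCast_zmod_eq_zero_iff_dvd]; exact_mod_cast h0
        refine jac_of_sq (fun h => n3 ((dvd_neg).1 h)) ⟨t / d1, ?_⟩
        push_cast at ht ⊢
        field_simp
        linear_combination ht
      · refine jac_of_sq (p := 5) (a := d) (by rw [hc] at z5; exact_mod_cast z5) ?_
        rw [hc] at F5
        rcases F5 with h | h <;> rw [h]
        · exact sq1
        · exact sq4
    rw [hc, h1]; rfl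
  · right
    rw [← hd] at hc
    have h1 : e = 1 := by
      refine hC e ⟨d, by rw [he, mul_comm]⟩ ?_ ?_ ?_
      · intro p hp hpD hpe
        have : Fact p.Prime := ⟨hp⟩
        have hpd : p ∣ d := by
          rw [he] at hpD
          exact (hp.dvd_mul.1 hpD).resolve_right hpe
        obtain ⟨d1, hd1⟩ := hpd
        have hD' : (D : ℤ) = p * (d1 * e) := by rw [he', hd1]; push_cast; ring
        have hz' : z = p * (-d1) := by rw [hc, hd1]; push_cast; ring
        have n1 : ¬ (p : ℤ) ∣ (d1 * e : ℤ) := not_dvd_of_sqf hp hDz hD'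
        have n2 : ¬ (p : ℤ) ∣ (d1 : ℤ) := fun h => n1 (h.mul_right _)
        have n3 : ¬ (p : ℤ) ∣ (e : ℤ) := fun h => n1 (h.mul_left _)
        obtain ⟨t, ht⟩ := F2 p hp _ _ hD' hz'
        have m2 : (d1 : ZMod p) ≠ 0 := by
          intro h0; apply n2
          rw [← ZMod.intCast_zmod_eq_zero_iff_dvd]; exact_mod_cast h0
        refine jac_of_sq n3 ⟨t / d1, ?_⟩
        push_cast at ht ⊢
        field_simp
        linear_combination ht
      · intro p hp hpe
        have : Fact p.Prime := ⟨hp⟩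
        have hde : D / e = d := by rw [he]; exact Nat.mul_div_cancel d he0
        rw [hde]
        obtain ⟨e1, he1⟩ := hpe
        have hD' : (D : ℤ) = p * (d * e1) := by rw [he', he1]; push_cast; ring
        have n1 : ¬ (p : ℤ) ∣ (d * e1 : ℤ) := not_dvd_of_sqf hp hDz hD'
        have n2 : ¬ (p : ℤ) ∣ z := by
          rw [hc]; intro h; exact n1 (((dvd_neg).1 h).mul_right _)
        have hpD : p ∣ D := by
          have : (p : ℤ) ∣ (D : ℤ) := ⟨_, hD'⟩
          exact_mod_cast this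
        have := F1 p hp hpD n2
        rw [hc] at this n2
        exact jac_of_sq n2 this
      · have h5e : ¬ (5 : ℤ) ∣ e := by
          intro h5
          have : (5 : ℤ) ∣ D := by rw [he']; exact h5.mul_left _
          omega
        refine jac_of_sq (p := 5) (a := e) (by exact_mod_cast h5e) ?_
        have hm : (D : ZMod 5) = (d : ZMod 5) * e := by rw [he]; push_cast; ring
        rw [hc] at F5
        push_cast at F5 ⊢
        rw [hm] at hD5
        rcases key5b _ _ hD5 F5 with h | h <;> rw [h]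
        · exact sq1
        · exact sq4
    rw [hc, he', h1]; push_cast; ring

end Pool.Agent.H757_X15.EE
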