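import Pool.Agent.H757_X15.StmE
import Pool.Agent.H757_X15.DN.Crit
import Pool.Agent.Y809.BSD14.Selb

/-!
# X15-E1: the first isogeny Selmer set
-/

set_option autoImplicit false
set_option linter.all false

namespace Pool.Agent.H757_X15.EE

open Finset
open Pool.Agent.Y700 (PC)
open Pool.Agent.H757_X15.DD
open Pool.Agent.Y703.CQ (nr)
open Pool.Agent.Y814.BSD14 Pool.Agent.Y809.BSD14

open scoped Classical

namespace SelaAux

/-! ### linear algebra -/

theorem nr_self (p : ℕ) : nr p p = 0 := by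
  unfold nr
  rw [if_pos]
  rw [ZMod.natCast_self]
  exact IsSquare.zero

theorem z2sq (a : ZMod 2) : a * a = a := by
  revert a
  decide

/-- the matrix with the additional row `b` -/
noncomputable def NN (S : Finset ℕ) : Matrix (S ⊕ Unit) S (ZMod 2) := fun i q =>
  match i with
  | Sum.inl p => nr p q + if p = q then (∑ r ∈ S, nr p r + aa p) else 0
  | Sum.inr _ => bb q

theorem la {S : Finset ℕ} (hS : S.Nonempty) (hG : Gd S)
    (hrec : ∀ p ∈ S, ∀ q ∈ S, p ≠ q → nr p q + nr q p = aa p * aa q)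
    (haa : ∑ p ∈ S, aa p = 0) (x : ℕ → ZMod 2) (e : ZMod 2)
    (h1 : ∀ p ∈ S, ∑ q ∈ S, nr p q * (x q + x p) = e * bb p)
    (h2 : ∑ q ∈ S, aa q * x q = 0) : e = 0 ∧ ∃ c, ∀ p ∈ S, x p = c := by
  classical
  have hinj : Function.Injective (NN S).mulVecLin := by
    rw [← LinearMap.ker_eq_bot, LinearMap.ker_eq_bot']
    intro y hy
    set y' : ℕ → ZMod 2 := fun n => if h : n ∈ S then y ⟨n, h⟩ else 0 with hy'
    have hyy : ∀ q : S, y' q = y q := by
      intro q
      simp [hy']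
    have hsol : Sol S y' := by
      constructor
      · intro p hp
        have h3 := congrFun hy (Sum.inl ⟨p, hp⟩)
        simp only [Matrix.mulVecLin_apply, Matrix.mulVec, dotProduct, NN, Pi.zero_apply] at h3
        have h4 : ∑ q : S, (nr p q + if (⟨p, hp⟩ : S) = q then (∑ r ∈ S, nr p r + aa p) else 0) *
            y q = ∑ q : S, nr p q * y' q + (∑ r ∈ S, nr p r + aa p) * y' p := by
          rw [show y' p = y ⟨p, hp⟩ from hyy ⟨p, hp⟩]
          simp only [add_mul, ite_mul, zero_mul, sum_add_distrib, Finset.sum_ite_eq,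
            Finset.mem_univ, if_true, hyy]
        rw [h4, Finset.sum_coe_sort S (fun q => nr p q * y' q)] at h3
        simp only [mul_add, sum_add_distrib, ← sum_mul]
        linear_combination h3
      · have h3 := congrFun hy (Sum.inr ())
        simp only [Matrix.mulVecLin_apply, Matrix.mulVec, dotProduct, NN, Pi.zero_apply] at h3
        have h4 : ∑ q : S, bb q * y q = ∑ q : S, bb q * y' q :=
          sum_congr rfl fun q _ => by rw [hyy]
        rw [h4, Finset.sum_coe_sort S (fun q => bb q * y' q)] at h3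
        exact h3
    funext q
    have := hG y' hsol q q.2
    rw [hyy] at this
    exact this
  have hrank : (NN S).rank = S.card := by
    rw [Matrix.rank, LinearMap.finrank_range_of_inj hinj]
    simp
  have hrankT : (NN S).transpose.rank = S.card := by rw [Matrix.rank_transpose, hrank]
  have hker : Module.finrank (ZMod 2) (LinearMap.ker (NN S).transpose.mulVecLin) = 1 := by
    have h3 := LinearMap.finrank_range_add_finrank_ker (NN S).transpose.mulVecLin
    have h4 : Module.finrank (ZMod 2) (LinearMap.range (NN S).transpose.mulVecLin) = S.card :=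
      hrankT
    rw [h4] at h3
    simp only [Module.finrank_fintype_fun_eq_card, Fintype.card_sum, Fintype.card_coe,
      Fintype.card_unit] at h3
    omega
  have hval : ∀ (y : ℕ → ZMod 2) (t : ZMod 2) (q : S),
      (NN S).transpose.mulVecLin (Sum.elim (fun p : S => y p) fun _ => t) q =
        ∑ p ∈ S, nr p q * y p + (∑ r ∈ S, nr q r + aa q) * y q + bb q * t := by
    intro y t q
    simp only [Matrix.mulVecLin_apply, Matrix.mulVec, dotProduct, Matrix.transpose_apply,
      Fintype.sum_sum_type, Sum.elim_inl, Sum.elim_inr, NN, Finset.univ_unique,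
      Finset.sum_singleton]
    have h4 : ∑ p : S, (nr p q + if p = q then (∑ r ∈ S, nr p r + aa p) else 0) * y p =
        ∑ p : S, nr p q * y p + (∑ r ∈ S, nr q r + aa q) * y q := by
      simp only [add_mul, ite_mul, zero_mul, sum_add_distrib, Finset.sum_ite_eq',
        Finset.mem_univ, if_true]
    rw [h4, Finset.sum_coe_sort S (fun p => nr p q * y p)]
  -- the transposed sums
  have htr : ∀ (y : ℕ → ZMod 2), ∀ q ∈ S, ∑ p ∈ S, nr p q * y p =
      ∑ p ∈ S, nr q p * y p + aa q * (∑ p ∈ S, aa p * y p) + aa q * y q := by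
    intro y q hq
    have h3 : ∀ p ∈ S, nr p q * y p = nr q p * y p + aa q * (aa p * y p) +
        (if p = q then aa q * y q else 0) := by
      intro p hp
      by_cases hpq : p = q
      · subst hpq
        rw [if_pos rfl, nr_self]
        linear_combination (-(y p)) * (z2sq (aa p)) - z2 (aa p * y p)
      · rw [if_neg hpq]
        have h4 := hrec p hp q hq hpq
        linear_combination (y p) * h4 - z2 (nr q p * y p)
    rw [sum_congr rfl h3, sum_add_distrib, sum_add_distrib, ← mul_sum,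
      Finset.sum_ite_eq' S q (fun _ => aa q * y q), if_pos hq]
  have hk1 : (Sum.elim (fun _ : S => (1 : ZMod 2)) fun _ : Unit => (0 : ZMod 2)) ∈
      LinearMap.ker (NN S).transpose.mulVecLin := by
    rw [LinearMap.mem_ker]
    funext q
    have h3 := hval (fun _ => 1) 0 q
    rw [h3, htr (fun _ => 1) q q.2]
    simp only [mul_one, haa, mul_zero, add_zero, Pi.zero_apply]
    linear_combination z2 (∑ r ∈ S, nr q r) + z2 (aa q)
  have hk2 : (Sum.elim (fun p : S => x p) fun _ : Unit => e) ∈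
      LinearMap.ker (NN S).transpose.mulVecLin := by
    rw [LinearMap.mem_ker]
    funext q
    have h3 := hval x e q
    rw [h3, htr x q q.2, h2]
    have h4 := h1 q q.2
    simp only [mul_add, sum_add_distrib, ← sum_mul] at h4
    simp only [mul_zero, add_zero, Pi.zero_apply]
    linear_combination h4 + z2 (aa q * x q) + z2 (bb q * e)
  obtain ⟨p₀, hp₀⟩ := hS
  have hne : (⟨_, hk1⟩ : LinearMap.ker (NN S).transpose.mulVecLin) ≠ 0 := by
    intro h3
    have h4 := congrArg Subtype.val h3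
    have h5 := congrFun h4 (Sum.inl ⟨p₀, hp₀⟩)
    simp at h5
  obtain ⟨c, hc⟩ := (finrank_eq_one_iff_of_nonzero' _ hne).1 hker ⟨_, hk2⟩
  have hc' := congrArg Subtype.val hc
  constructor
  · have h5 := congrFun hc' (Sum.inr ())
    simpa using h5.symm
  · refine ⟨c, fun p hp => ?_⟩
    have h5 := congrFun hc' (Sum.inl ⟨p, hp⟩)
    simpa using h5.symm


/-! ### local conditions -/

theorem padic_frac {l : ℕ} [hl : Fact l.Prime] (s : ℚ_[l]) : ∃ r e : ℤ_[l], (e : ℚ_[l]) ≠ 0 ∧
    s = (r : ℚ_[l]) / e ∧ ((∃ r', r * r' = 1) ∨ ∃ e', e * e' = 1) := by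
  by_cases hs : ‖s‖ ≤ 1
  · exact ⟨⟨s, hs⟩, 1, by simp, by simp, Or.inr ⟨1, by simp⟩⟩
  · push Not at hs
    have hs0 : s ≠ 0 := by rintro rfl; simp at hs; linarith
    have h1 : ‖s⁻¹‖ ≤ 1 := by
      rw [norm_inv]; exact inv_le_one_of_one_le₀ hs.le
    refine ⟨1, ⟨s⁻¹, h1⟩, inv_ne_zero hs0, ?_, Or.inl ⟨1, by simp⟩⟩
    simp

/-- the quartic with integral variables -/
theorem int_quartic {l : ℕ} [hl : Fact l.Prime] {u : ℤ} (hu : ¬ (l : ℤ) ∣ u) (c1 c2 c3 : ℤ)
    (s N : ℚ_[l]) (h : u * N ^ 2 = c1 * s ^ 4 + c2 * s ^ 2 + c3) :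
    ∃ n r e : ℤ_[l], u * n ^ 2 = c1 * r ^ 4 + c2 * r ^ 2 * e ^ 2 + c3 * e ^ 4 ∧
      ((∃ r', r * r' = 1) ∨ ∃ e', e * e' = 1) := by
  obtain ⟨r, e, he, hs, hur⟩ := padic_frac s
  have hun : ‖(u : ℚ_[l])‖ = 1 := by
    refine le_antisymm (Padic.norm_int_le_one u) (not_lt.1 fun h => hu ?_)
    exact Padic.norm_intCast_lt_one_iff.1 h
  obtain ⟨P, hP⟩ : ∃ P : ℤ_[l], P = c1 * r ^ 4 + c2 * r ^ 2 * e ^ 2 + c3 * e ^ 4 := ⟨_, rfl⟩
  have h1 : (u : ℚ_[l]) * (N * e ^ 2) ^ 2 = (P : ℚ_[l]) := by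
    rw [hP]
    push_cast
    rw [hs] at h
    field_simp at h
    linear_combination h
  have h2 : ‖N * (e : ℚ_[l]) ^ 2‖ ≤ 1 := by
    have h3 : ‖N * (e : ℚ_[l]) ^ 2‖ ^ 2 ≤ 1 := by
      have h4 := congrArg norm h1
      rw [norm_mul, hun, one_mul, norm_pow] at h4
      rw [h4]
      exact P.2
    by_contra h4
    push Not at h4
    nlinarith
  obtain ⟨n, hn⟩ : ∃ n : ℤ_[l], (n : ℚ_[l]) = N * (e : ℚ_[l]) ^ 2 := ⟨⟨_, h2⟩, rfl⟩
  refine ⟨n, r, e, ?_, hur⟩
  rw [← hP]
  apply PadicInt.ext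
  push_cast
  rw [hn, h1]

theorem pc_quartic {l : ℕ} [hl : Fact l.Prime] {a b z : ℤ} (hz : z ≠ 0) (h : PC a b l z) :
    ∃ s N : ℚ_[l], z * N ^ 2 = z ^ 2 * s ^ 4 + a * z * s ^ 2 + b := by
  obtain ⟨x, y, hy, h1, t, ht⟩ := h
  have hz0 : (z : ℚ_[l]) ≠ 0 := by exact_mod_cast hz
  obtain ⟨s, hs⟩ : ∃ s : ℚ_[l], t = s * z := ⟨t / z, by field_simp⟩
  have hxs : x = z * s ^ 2 := by
    apply mul_right_cancel₀ hz0
    rw [ht, hs]
    ring
  subst hxs
  have hs0 : s ≠ 0 := by
    rintro rfl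
    apply hy
    simpa using h1
  obtain ⟨N, hN⟩ : ∃ N : ℚ_[l], y = s * z * N := ⟨y / (s * z), by field_simp⟩
  subst hN
  refine ⟨s, N, ?_⟩
  have h3 : (z : ℚ_[l]) * s ^ 2 ≠ 0 := mul_ne_zero hz0 (pow_ne_zero 2 hs0)
  apply mul_left_cancel₀ h3
  linear_combination h1

theorem sq9 : ∀ x : ZMod 9, x ^ 2 ∈ ([0, 1, 4, 7] : List (ZMod 9)) := by decide

theorem unit9 : ∀ x y : ZMod 9, x * y = 1 → x ^ 2 ≠ 0 := by decide

theorem key9 : ∀ z ∈ ([1, 2, 4, 5, 7, 8] : List (ZMod 9)), ∀ D ∈ ([1, 4, 7] : List (ZMod 9)),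
    ∀ n ∈ ([0, 1, 4, 7] : List (ZMod 9)), ∀ r ∈ ([0, 1, 4, 7] : List (ZMod 9)),
    ∀ e ∈ ([0, 1, 4, 7] : List (ZMod 9)), (r ≠ 0 ∨ e ≠ 0) →
      z * n ≠ 3 * z ^ 2 * r ^ 2 + (-34 * D * z) * r * e + 75 * D ^ 2 * e ^ 2 := by
  decide +kernel

theorem sq32 : ∀ x : ZMod 32, x ^ 2 ∈ ([0, 1, 4, 9, 16, 17, 25] : List (ZMod 32)) := by
  decide +kernel

theorem unit32 : ∀ x y : ZMod 32, x * y = 1 →
    x ^ 2 ∈ ([1, 9, 17, 25] : List (ZMod 32)) := by decide +kernel

theorem key32 : ∀ z ∈ ([3, 7, 11, 15, 19, 23, 27, 31] : List (ZMod 32)),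
    ∀ D ∈ ([1, 5, 9, 13, 17, 21, 25, 29] : List (ZMod 32)),
    ∀ n ∈ ([0, 1, 4, 9, 16, 17, 25] : List (ZMod 32)),
    ∀ r ∈ ([0, 1, 4, 9, 16, 17, 25] : List (ZMod 32)),
    ∀ e ∈ ([0, 1, 4, 9, 16, 17, 25] : List (ZMod 32)),
      (r ∈ ([1, 9, 17, 25] : List (ZMod 32)) ∨ e ∈ ([1, 9, 17, 25] : List (ZMod 32))) →
      z * n ≠ z ^ 2 * r ^ 2 + (-34 * D * z) * r * e + 225 * D ^ 2 * e ^ 2 := by
  decide +kernel

theorem not_three {D z : ℤ} (hD : D % 3 = 1) (hz : Squarefree z) (h3 : (3 : ℤ) ∣ z)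
    [hl : Fact (Nat.Prime 3)] (h : PC (-34 * D) (225 * D ^ 2) 3 z) : False := by
  obtain ⟨s, N, h1⟩ := pc_quartic hz.ne_zero h
  obtain ⟨u, rfl⟩ := h3
  have hu : ¬ ((3 : ℕ) : ℤ) ∣ u := not_dvd_of_sqf (l := 3) (by norm_num) hz (by norm_num)
  have h2 : (u : ℚ_[3]) * N ^ 2 = ((3 * u ^ 2 : ℤ) : ℚ_[3]) * s ^ 4 +
      ((-34 * D * u : ℤ) : ℚ_[3]) * s ^ 2 + ((75 * D ^ 2 : ℤ) : ℚ_[3]) := by
    have h30 : (3 : ℚ_[3]) ≠ 0 := by norm_num
    apply mul_left_cancel₀ h30
    push_cast at h1 ⊢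
    linear_combination h1
  obtain ⟨n, r, e, h4, hur⟩ := int_quartic hu _ _ _ s N h2
  obtain ⟨f⟩ : Nonempty (ℤ_[3] →+* ZMod 9) := ⟨by simpa using PadicInt.toZModPow (p := 3) 2⟩
  have h5 := congrArg f h4
  simp only [map_pow, map_mul, map_add, map_intCast] at h5
  push_cast at h5
  have hu' : ¬ (3 : ℤ) ∣ u := by exact_mod_cast hu
  have hu9 : (u : ZMod 9) ∈ ([1, 2, 4, 5, 7, 8] : List (ZMod 9)) := by
    have h6 : (u : ZMod 9) = ((u % 9 : ℤ) : ZMod 9) := by
      rw [ZMod.intCast_eq_intCast_iff]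
      exact (Int.mod_modEq u 9).symm
    have h7 : u % 9 = 1 ∨ u % 9 = 2 ∨ u % 9 = 4 ∨ u % 9 = 5 ∨ u % 9 = 7 ∨ u % 9 = 8 := by omega
    rcases h7 with h | h | h | h | h | h <;> rw [h6, h] <;> decide
  have hD9 : (D : ZMod 9) ∈ ([1, 4, 7] : List (ZMod 9)) := by
    have h6 : (D : ZMod 9) = ((D % 9 : ℤ) : ZMod 9) := by
      rw [ZMod.intCast_eq_intCast_iff]
      exact (Int.mod_modEq D 9).symm
    have h7 : D % 9 = 1 ∨ D % 9 = 4 ∨ D % 9 = 7 := by omega
    rcases h7 with h | h | h <;> rw [h6, h] <;> decide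
  refine key9 _ hu9 _ hD9 _ (sq9 (f n)) _ (sq9 (f r)) _ (sq9 (f e)) ?_ ?_
  · rcases hur with ⟨r', hr'⟩ | ⟨e', he'⟩
    · left
      exact unit9 (f r) (f r') (by rw [← map_mul, hr', map_one])
    · right
      exact unit9 (f e) (f e') (by rw [← map_mul, he', map_one])
  · linear_combination h5

theorem mod_four {D z : ℤ} (hD : D % 4 = 1) (hz : z % 2 = 1)
    [hl : Fact (Nat.Prime 2)] (h : PC (-34 * D) (225 * D ^ 2) 2 z) : z % 4 = 1 := by
  by_contra hz4
  have hz3 : z % 4 = 3 := by omega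
  have hz0 : z ≠ 0 := by
    rintro rfl
    simp at hz
  obtain ⟨s, N, h1⟩ := pc_quartic hz0 h
  have hu : ¬ ((2 : ℕ) : ℤ) ∣ z := by
    push_cast
    omega
  have h2 : (z : ℚ_[2]) * N ^ 2 = ((z ^ 2 : ℤ) : ℚ_[2]) * s ^ 4 +
      ((-34 * D * z : ℤ) : ℚ_[2]) * s ^ 2 + ((225 * D ^ 2 : ℤ) : ℚ_[2]) := by
    push_cast at h1 ⊢
    linear_combination h1
  obtain ⟨n, r, e, h4, hur⟩ := int_quartic hu _ _ _ s N h2
  obtain ⟨f⟩ : Nonempty (ℤ_[2] →+* ZMod 32) := ⟨by simpa using PadicInt.toZModPow (p := 2) 5⟩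
  have h5 := congrArg f h4
  simp only [map_pow, map_mul, map_add, map_intCast] at h5
  push_cast at h5
  have hz32 : (z : ZMod 32) ∈ ([3, 7, 11, 15, 19, 23, 27, 31] : List (ZMod 32)) := by
    have h6 : (z : ZMod 32) = ((z % 32 : ℤ) : ZMod 32) := by
      rw [ZMod.intCast_eq_intCast_iff]
      exact (Int.mod_modEq z 32).symm
    have h7 : z % 32 = 3 ∨ z % 32 = 7 ∨ z % 32 = 11 ∨ z % 32 = 15 ∨ z % 32 = 19 ∨ z % 32 = 23 ∨
      z % 32 = 27 ∨ z % 32 = 31 := by omega
    rcases h7 with h | h | h | h | h | h | h | h <;> rw [h6, h] <;> decide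
  have hD32 : (D : ZMod 32) ∈ ([1, 5, 9, 13, 17, 21, 25, 29] : List (ZMod 32)) := by
    have h6 : (D : ZMod 32) = ((D % 32 : ℤ) : ZMod 32) := by
      rw [ZMod.intCast_eq_intCast_iff]
      exact (Int.mod_modEq D 32).symm
    have h7 : D % 32 = 1 ∨ D % 32 = 5 ∨ D % 32 = 9 ∨ D % 32 = 13 ∨ D % 32 = 17 ∨ D % 32 = 21 ∨
      D % 32 = 25 ∨ D % 32 = 29 := by omega
    rcases h7 with h | h | h | h | h | h | h | h <;> rw [h6, h] <;> decide
  refine key32 _ hz32 _ hD32 _ (sq32 (f n)) _ (sq32 (f r)) _ (sq32 (f e)) ?_ ?_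
  · rcases hur with ⟨r', hr'⟩ | ⟨e', he'⟩
    · left
      exact unit32 (f r) (f r') (by rw [← map_mul, hr', map_one])
    · right
      exact unit32 (f e) (f e') (by rw [← map_mul, he', map_one])
  · linear_combination h5


/-! ### the conditions in terms of the matrix -/

theorem sI_ne_zero (a : ZMod 2) : sI a ≠ 0 := by
  revert a
  decide

/-- the class modulo `4` of a product of odd primes -/
theorem chi_prod (T : Finset ℕ) (hT : ∀ q ∈ T, q.Prime ∧ q ≠ 2) :
    ZMod.χ₄ ((∏ q ∈ T, q : ℕ) : ZMod 4) = sI (∑ q ∈ T, aa q) := by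
  rw [sI_sum, Nat.cast_prod, map_prod]
  refine prod_congr rfl fun q hq => ?_
  obtain ⟨h1, h2⟩ := hT q hq
  have h3 := jac_neg h1 h2
  rw [jacobiSym.at_neg_one (h1.odd_of_ne_two h2)] at h3
  exact h3

theorem sum_aa {T : Finset ℕ} (hT : ∀ q ∈ T, q.Prime ∧ q ≠ 2) (h : (∏ q ∈ T, q) % 4 = 1) :
    ∑ q ∈ T, aa q = 0 := by
  rw [← sI_eq, ← chi_prod T hT, ZMod.χ₄_nat_one_mod_four h]

/-- the reciprocity law -/
theorem rec_law {p q : ℕ} (hp : p.Prime) (hq : q.Prime) (hp2 : p ≠ 2) (hq2 : q ≠ 2)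
    (hne : p ≠ q) : nr p q + nr q p = aa p * aa q := by
  have h1 : jacobiSym (q : ℤ) p = sI (nr p q) := jac_nr hp hq hne
  have h2 : jacobiSym (p : ℤ) q = sI (nr q p) := jac_nr hq hp hne.symm
  have ho := hp.odd_of_ne_two hp2
  have ho' := hq.odd_of_ne_two hq2
  by_cases hp4 : p % 4 = 3
  · by_cases hq4 : q % 4 = 3
    · have h3 := jacobiSym.quadratic_reciprocity_three_mod_four hp4 hq4
      rw [h1, h2] at h3
      have e1 : aa p = 1 := if_pos hp4
      have e2 : aa q = 1 := if_pos hq4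
      rw [e1, e2]
      revert h3
      generalize nr p q = a
      generalize nr q p = b
      revert a b
      decide
    · have h3 := jacobiSym.quadratic_reciprocity_one_mod_four (a := q) (b := p)
        (by have := Nat.odd_iff.1 ho'; omega) ho
      rw [h1, h2] at h3
      have e2 : aa q = 0 := if_neg hq4
      rw [e2, mul_zero]
      revert h3
      generalize nr p q = a
      generalize nr q p = b
      revert a b
      decide
  · have h3 := jacobiSym.quadratic_reciprocity_one_mod_four (a := p) (b := q)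
      (by have := Nat.odd_iff.1 ho; omega) ho'
    rw [h1, h2] at h3
    have e2 : aa p = 0 := if_neg hp4
    rw [e2, zero_mul]
    revert h3
    generalize nr p q = a
    generalize nr q p = b
    revert a b
    decide

theorem jac_five' {p : ℕ} (hp : p.Prime) (hp2 : p ≠ 2) (hp5 : p ≠ 5) :
    jacobiSym (5 : ℤ) p = sI (bb p) := by
  have h := jacobiSym.quadratic_reciprocity_one_mod_four (a := 5) (b := p) (by norm_num)
    (hp.odd_of_ne_two hp2)
  have h5 : p % 5 ≠ 0 := by
    intro h0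
    exact hp5 ((Nat.prime_dvd_prime_iff_eq (by norm_num) hp).1 (Nat.dvd_of_mod_eq_zero h0)).symm
  rw [show (5 : ℤ) = ((5 : ℕ) : ℤ) by norm_num, h, jac_five h5]

/-- `5` to the power `e` -/
def five (e : ZMod 2) : ℕ := if e = 0 then 1 else 5

theorem jac_five_e {p : ℕ} (hp : p.Prime) (hp2 : p ≠ 2) (hp5 : p ≠ 5) (e : ZMod 2) :
    jacobiSym ((five e : ℕ) : ℤ) p = sI (e * bb p) := by
  have he : e = 0 ∨ e = 1 := by
    revert e
    decide
  rcases he with rfl | rfl
  · simp [five, sI, jacobiSym.one_left]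
  · rw [show five 1 = 5 by decide, one_mul]
    exact jac_five' hp hp2 hp5

/-- the symbol of a product -/
theorem hsym (p : ℕ) (hp : p.Prime) (hp2 : p ≠ 2) (hp5 : p ≠ 5) (e : ZMod 2) (T : Finset ℕ)
    (hT : ∀ q ∈ T, q.Prime) (hpT : p ∉ T) :
    jacobiSym ((five e * ∏ q ∈ T, q : ℕ) : ℤ) p = sI (e * bb p + ∑ q ∈ T, nr p q) := by
  rw [sI_add, ← jac_five_e hp hp2 hp5, Nat.cast_mul, jacobiSym.mul_left, jac_prod, sI_sum]
  congr 1
  refine prod_congr rfl fun q hq => ?_
  exact jac_nr hp (hT q hq) (fun h => hpT (h ▸ hq))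

end SelaAux

open SelaAux in
theorem t_SELA : S_SELA := by
  intro D hD hF hD1 hC z hz hz0 h
  set S := D.primeFactors with hS
  have hG : Gd S := (t_CRIT D hD hF).1 hC
  have hSne : S.Nonempty := by
    rw [hS, Nat.nonempty_primeFactors]
    have := Nat.pos_of_ne_zero hD.ne_zero
    omega
  have hpr : ∀ q ∈ S, q.Prime := fun q hq => Nat.prime_of_mem_primeFactors hq
  have hS2 : ∀ q ∈ S, q ≠ 2 := by
    intro q hq h2
    have h3 := Nat.dvd_of_mem_primeFactors hq
    rw [h2] at h3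
    rcases hF with h | h <;> omega
  have hS3 : ∀ q ∈ S, q ≠ 3 := by
    intro q hq h2
    have h3 := Nat.dvd_of_mem_primeFactors hq
    rw [h2] at h3
    rcases hF with h | h <;> omega
  have hS5 : ∀ q ∈ S, q ≠ 5 := by
    intro q hq h2
    have h3 := Nat.dvd_of_mem_primeFactors hq
    rw [h2] at h3
    rcases hF with h | h <;> omega
  have hDprod : ∏ q ∈ S, q = D := Nat.prod_primeFactors_of_squarefree hD
  have hmemS : ∀ p : ℕ, p.Prime → (p ∣ D ↔ p ∈ S) := by
    intro p hp
    rw [hS, Nat.mem_primeFactors]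
    exact ⟨fun h => ⟨hp, h, hD.ne_zero⟩, fun h => h.2.1⟩
  have hD4 : (D : ℤ) % 4 = 1 := by rcases hF with h | h <;> omega
  have hD3 : (D : ℤ) % 3 = 1 := by rcases hF with h | h <;> omega
  have hD4' : D % 4 = 1 := by rcases hF with h | h <;> omega
  -- the primes dividing `z`
  have hz3 : ¬ (3 : ℤ) ∣ z := fun h3 => by
    haveI : Fact (Nat.Prime 3) := ⟨by norm_num⟩
    exact not_three hD3 hz h3 (h 3)
  have hzp : ∀ l : ℕ, l.Prime → (l : ℤ) ∣ z → l = 5 ∨ l ∈ S := by
    intro l hl hlz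
    by_contra hcon
    push Not at hcon
    haveI : Fact l.Prime := ⟨hl⟩
    have hlP : Prime (l : ℤ) := Nat.prime_iff_prime_int.1 hl
    have hl3 : l ≠ 3 := by
      rintro rfl
      exact hz3 (by exact_mod_cast hlz)
    refine not_dvd_of_PC hz ?_ (h l) hlz
    intro h0
    rcases hlP.dvd_or_dvd h0 with h1 | h1
    · have h2 : l ∣ 225 := by exact_mod_cast h1
      rw [show (225 : ℕ) = 3 ^ 2 * 5 ^ 2 by norm_num] at h2
      rcases (hl.dvd_mul).1 h2 with h3 | h3
      · exact hl3 ((Nat.prime_dvd_prime_iff_eq hl (by norm_num)).1 (hl.dvd_of_dvd_pow h3))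
      · exact hcon.1 ((Nat.prime_dvd_prime_iff_eq hl (by norm_num)).1 (hl.dvd_of_dvd_pow h3))
    · have h2 : (l : ℤ) ∣ D := hlP.dvd_of_dvd_pow h1
      exact hcon.2 ((hmemS l hl).1 (by exact_mod_cast h2))
  -- `z` as a natural number
  obtain ⟨n, rfl⟩ : ∃ n : ℕ, z = n := ⟨z.toNat, by omega⟩
  have hn : Squarefree n := by
    have := Int.squarefree_natAbs.2 hz
    simpa using this
  have hnp : ∀ l : ℕ, l.Prime → l ∣ n → l = 5 ∨ l ∈ S := fun l hl hln =>
    hzp l hl (by exact_mod_cast hln)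
  set J := S.filter (fun q => q ∣ n) with hJ
  have hJS : J ⊆ S := filter_subset _ _
  have hJpr : ∀ q ∈ J, q.Prime := fun q hq => hpr q (hJS hq)
  set e : ZMod 2 := if 5 ∣ n then 1 else 0 with he
  have hnprod : n = five e * ∏ q ∈ J, q := by
    by_cases h5 : 5 ∣ n
    · have h6 : five e = 5 := by
        rw [he, if_pos h5]
        decide
      have h5J : 5 ∉ J := fun h => hS5 5 (hJS h) rfl
      have h7 : n.primeFactors = insert 5 J := by
        ext q
        rw [Nat.mem_primeFactors, mem_insert, hJ, mem_filter]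
        constructor
        · rintro ⟨h1, h2, _⟩
          rcases hnp q h1 h2 with h3 | h3
          · exact Or.inl h3
          · exact Or.inr ⟨h3, h2⟩
        · rintro (rfl | ⟨h1, h2⟩)
          · exact ⟨by norm_num, h5, hn.ne_zero⟩
          · exact ⟨hpr q h1, h2, hn.ne_zero⟩
      have h8 := prod_insert (f := fun q : ℕ => q) h5J
      rw [← h7, Nat.prod_primeFactors_of_squarefree hn] at h8
      rw [h6]
      exact h8
    · have h6 : five e = 1 := by
        rw [he, if_neg h5]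
        decide
      have h7 : n.primeFactors = J := by
        ext q
        rw [Nat.mem_primeFactors, hJ, mem_filter]
        constructor
        · rintro ⟨h1, h2, _⟩
          rcases hnp q h1 h2 with h3 | h3
          · rw [h3] at h2
            exact absurd h2 h5
          · exact ⟨h3, h2⟩
        · rintro ⟨h1, h2⟩
          exact ⟨hpr q h1, h2, hn.ne_zero⟩
      rw [h6, ← h7, Nat.prod_primeFactors_of_squarefree hn, one_mul]
  -- the condition at `2`
  have hn2 : (n : ℤ) % 2 = 1 := by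
    have h2 : ¬ 2 ∣ n := by
      intro h2
      rcases hnp 2 (by norm_num) h2 with h3 | h3
      · norm_num at h3
      · exact hS2 2 h3 rfl
    omega
  have hn4 : (n : ℤ) % 4 = 1 := by
    haveI : Fact (Nat.Prime 2) := ⟨by norm_num⟩
    exact mod_four hD4 hn2 (h 2)
  have hJ4 : (∏ q ∈ J, q) % 4 = 1 := by
    have h5 : five e % 4 = 1 := by
      have : e = 0 ∨ e = 1 := by
        generalize e = e'
        revert e'
        decide
      rcases this with h | h <;> rw [h] <;> decide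
    have h6 : n % 4 = 1 := by omega
    rw [hnprod, Nat.mul_mod, h5, one_mul, Nat.mod_mod] at h6
    exact h6
  -- the indicator function
  set x : ℕ → ZMod 2 := fun q => if q ∈ J then 1 else 0 with hx
  have hsumT : ∀ g : ℕ → ZMod 2, ∑ q ∈ S, g q * x q = ∑ q ∈ J, g q := by
    intro g
    rw [← sum_sdiff hJS]
    have h1 : ∑ q ∈ S \ J, g q * x q = 0 := by
      refine sum_eq_zero fun q hq => ?_
      obtain ⟨h1, h2⟩ := mem_sdiff.1 hq
      simp [hx, h2]
    have h2 : ∑ q ∈ J, g q * x q = ∑ q ∈ J, g q := by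
      refine sum_congr rfl fun q hq => ?_
      simp [hx, hq]
    rw [h1, h2, zero_add]
  have hmain := la hSne hG (fun p hp q hq hpq =>
    rec_law (hpr p hp) (hpr q hq) (hS2 p hp) (hS2 q hq) hpq)
    (sum_aa (fun q hq => ⟨hpr q hq, hS2 q hq⟩) (by rw [hDprod]; exact hD4')) x e ?_ ?_
  · obtain ⟨he0, c, hc⟩ := hmain
    have hf : five e = 1 := by
      rw [he0]
      decide
    rw [hf, one_mul] at hnprod
    have hcc : c = 0 ∨ c = 1 := by
      clear hc
      revert c
      decide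
    rcases hcc with rfl | rfl
    · left
      have hJe : J = ∅ := by
        rw [Finset.eq_empty_iff_forall_notMem]
        intro q hq
        have := hc q (hJS hq)
        simp [hx, hq] at this
      rw [hnprod, hJe]
      simp
    · right
      have hJe : J = S := by
        apply Subset.antisymm hJS
        intro q hq
        have := hc q hq
        by_contra hqJ
        simp [hx, hqJ] at this
      rw [hnprod, hJe, hDprod]
  · intro p hp
    haveI : Fact p.Prime := ⟨hpr p hp⟩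
    have hpD : p ∣ D := (hmemS p (hpr p hp)).2 hp
    obtain ⟨D', hD'⟩ := hpD
    have hpD' : ¬ (p : ℤ) ∣ (D' : ℤ) := by
      refine not_dvd_of_sqf (z := (D : ℤ)) (hpr p hp) (Int.squarefree_natAbs.1 (by simpa using hD)) ?_
      rw [hD']
      push_cast
      ring
    have hPD' : D' = ∏ q ∈ S.erase p, q := by
      have h1 : p * ∏ q ∈ S.erase p, q = D := by rw [mul_prod_erase S (fun q => q) hp, hDprod]
      apply Nat.eq_of_mul_eq_mul_left (hpr p hp).pos
      rw [h1, hD']
    by_cases hpJ : p ∈ J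
    · -- `p` divides `z`
      have hpn : p ∣ n := (mem_filter.1 hpJ).2
      obtain ⟨n', hn'⟩ := hpn
      have hn'' : n' = five e * ∏ q ∈ J.erase p, q := by
        apply Nat.eq_of_mul_eq_mul_left (hpr p hp).pos
        rw [← hn', hnprod, ← mul_prod_erase J (fun q => q) hpJ]
        ring
      have hB : ¬ (p : ℤ) ∣ 225 * (D' : ℤ) ^ 2 := by
        intro h0
        have hlP : Prime (p : ℤ) := Nat.prime_iff_prime_int.1 (hpr p hp)
        rcases hlP.dvd_or_dvd h0 with h1 | h1
        · have h2 : p ∣ 225 := by exact_mod_cast h1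
          rw [show (225 : ℕ) = 3 ^ 2 * 5 ^ 2 by norm_num] at h2
          rcases ((hpr p hp).dvd_mul).1 h2 with h3 | h3
          · exact hS3 p hp ((Nat.prime_dvd_prime_iff_eq (hpr p hp) (by norm_num)).1
              ((hpr p hp).dvd_of_dvd_pow h3))
          · exact hS5 p hp ((Nat.prime_dvd_prime_iff_eq (hpr p hp) (by norm_num)).1
              ((hpr p hp).dvd_of_dvd_pow h3))
        · exact hpD' (hlP.dvd_of_dvd_pow h1)
      have h1 : PC ((p : ℤ) * (-34 * D')) ((p : ℤ) ^ 2 * (225 * (D' : ℤ) ^ 2)) p n := by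
        have := h p
        rw [hD'] at this
        push_cast at this
        rwa [show -34 * ((p : ℤ) * D') = (p : ℤ) * (-34 * D') by ring,
          show 225 * ((p : ℤ) * D') ^ 2 = (p : ℤ) ^ 2 * (225 * (D' : ℤ) ^ 2) by ring] at this
      obtain ⟨r, hr, hr0, hr2⟩ := root_of_PC hz (by rw [hn']; push_cast; exact dvd_mul_right _ _)
        hB h1
      have hr3 := hr2 n' (by rw [hn']; push_cast; ring)
      push_cast at hr hr3
      have hD0 : (D' : ZMod p) ≠ 0 := by
        intro h0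
        exact hpD' (by
          have := (ZMod.natCast_eq_zero_iff D' p).1 h0
          exact_mod_cast this)
      have hrD : r = 25 * D' ∨ r = 9 * D' := by
        have h3 : (r - 25 * D') * (r - 9 * D') = 0 := by linear_combination hr
        rcases mul_eq_zero.1 h3 with h4 | h4
        · exact Or.inl (sub_eq_zero.1 h4)
        · exact Or.inr (sub_eq_zero.1 h4)
      have h5 : (5 : ZMod p) ≠ 0 := by
        intro h0
        have h0' : ((5 : ℕ) : ZMod p) = 0 := by exact_mod_cast h0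
        exact hS5 p hp ((Nat.prime_dvd_prime_iff_eq (hpr p hp) (by norm_num)).1
          ((ZMod.natCast_eq_zero_iff 5 p).1 h0'))
      have h3 : (3 : ZMod p) ≠ 0 := by
        intro h0
        have h0' : ((3 : ℕ) : ZMod p) = 0 := by exact_mod_cast h0
        exact hS3 p hp ((Nat.prime_dvd_prime_iff_eq (hpr p hp) (by norm_num)).1
          ((ZMod.natCast_eq_zero_iff 3 p).1 h0'))
      have hsq : IsSquare ((n' : ZMod p) * (D' : ZMod p)) := by
        obtain ⟨t, ht⟩ := hr3
        rcases hrD with h4 | h4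
        · refine ⟨t / 5, ?_⟩
          rw [h4] at ht
          field_simp
          linear_combination ht
        · refine ⟨t / 3, ?_⟩
          rw [h4] at ht
          field_simp
          linear_combination ht
      have hpn' : ¬ (p : ℤ) ∣ (n' : ℤ) := not_dvd_of_sqf (z := (n : ℤ)) (hpr p hp) hz
        (by rw [hn']; push_cast; ring)
      have hn0 : (n' : ZMod p) ≠ 0 := by
        intro h0
        exact hpn' (by
          have := (ZMod.natCast_eq_zero_iff n' p).1 h0
          exact_mod_cast this)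
      have hj : jacobiSym ((n' : ℤ) * (D' : ℤ)) p = 1 := by
        rw [← jacobiSym.legendreSym.to_jacobiSym, legendreSym.eq_one_iff]
        · push_cast
          exact hsq
        · push_cast
          exact mul_ne_zero hn0 hD0
      have e1 := hsym p (hpr p hp) (hS2 p hp) (hS5 p hp) e (J.erase p)
        (fun q hq => hJpr q (mem_of_mem_erase hq)) (notMem_erase p J)
      have e2 := hsym p (hpr p hp) (hS2 p hp) (hS5 p hp) 0 (S.erase p)
        (fun q hq => hpr q (mem_of_mem_erase hq)) (notMem_erase p S)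
      rw [← hn''] at e1
      rw [show five 0 = 1 by decide, one_mul, ← hPD', zero_mul, zero_add] at e2
      rw [jacobiSym.mul_left, e1, e2, ← sI_add, sI_eq] at hj
      have hxp : x p = 1 := by simp [hx, hpJ]
      simp only [mul_add, sum_add_distrib, hxp, mul_one]
      rw [hsumT]
      have e3 : ∑ q ∈ J, nr p q = ∑ q ∈ J.erase p, nr p q := by
        rw [← add_sum_erase J _ hpJ, nr_self, zero_add]
      have e4 : ∑ q ∈ S, nr p q = ∑ q ∈ S.erase p, nr p q := by
        rw [← add_sum_erase S _ hp, nr_self, zero_add]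
      rw [e3, e4]
      linear_combination hj - z2 (e * bb p)
    · -- `p` does not divide `z`
      have hpn : ¬ p ∣ n := fun h0 => hpJ (mem_filter.2 ⟨hp, h0⟩)
      have hpz : ¬ (p : ℤ) ∣ (n : ℤ) := fun h0 => hpn (by exact_mod_cast h0)
      have h225 : ¬ (p : ℤ) ∣ 225 := by
        intro h1
        have h2 : p ∣ 225 := by exact_mod_cast h1
        rw [show (225 : ℕ) = 3 ^ 2 * 5 ^ 2 by norm_num] at h2
        rcases ((hpr p hp).dvd_mul).1 h2 with h3 | h3
        · exact hS3 p hp ((Nat.prime_dvd_prime_iff_eq (hpr p hp) (by norm_num)).1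
            ((hpr p hp).dvd_of_dvd_pow h3))
        · exact hS5 p hp ((Nat.prime_dvd_prime_iff_eq (hpr p hp) (by norm_num)).1
            ((hpr p hp).dvd_of_dvd_pow h3))
      have h1 : PC (-34 * ((p : ℤ) * D')) (225 * ((p : ℤ) * D') ^ 2) p n := by
        have := h p
        rw [hD'] at this
        push_cast at this
        exact this
      have hsq : IsSquare ((n : ℤ) : ZMod p) := sq_of_PC hpz hpD' h225
        ⟨15, by push_cast; ring⟩ h1
      have hn0 : ((n : ℤ) : ZMod p) ≠ 0 := by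
        intro h0
        exact hpz ((ZMod.intCast_zmod_eq_zero_iff_dvd _ _).1 h0)
      have hj : jacobiSym (n : ℤ) p = 1 := by
        rw [← jacobiSym.legendreSym.to_jacobiSym, legendreSym.eq_one_iff _ hn0]
        exact hsq
      have e1 := hsym p (hpr p hp) (hS2 p hp) (hS5 p hp) e J hJpr hpJ
      rw [← hnprod, hj] at e1
      have e2 := (sI_eq _).1 e1.symm
      have hxp : x p = 0 := by simp [hx, hpJ]
      simp only [hxp, add_zero]
      rw [hsumT]
      linear_combination e2 - z2 (e * bb p)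
  · rw [hsumT]
    exact sum_aa (fun q hq => ⟨hJpr q hq, hS2 q (hJS hq)⟩) hJ4

end Pool.Agent.H757_X15.EE
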