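import Pool.Agent.H757_X15.StmE

/-!
# Project X15-E: transport to the short equation
-/

set_option autoImplicit false

namespace Pool.Agent.H757_X15.EE

open Pool.Agent.TH841.SH.D (Sha)
open Pool.Agent.Y700 (VR EQ)
open Pool.Agent.Z702 (WZ S_TRN)

/-- the short model of the twist -/
def sh (A B : ℤ) : WeierstrassCurve ℚ :=
  { a₁ := 0, a₂ := 0, a₃ := 0, a₄ := (A : ℚ), a₆ := (B : ℚ) }

/-- the minimal equation -/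
theorem vr_WD {D : ℤ} (hD : D % 4 = 1) :
    VR (WZ (-34 * D) (225 * D ^ 2)) (EQ (WD D)) 2 (13 * D) 1 4 := by
  obtain ⟨k, hk⟩ : ∃ k, D = 4 * k + 1 := ⟨D / 4, by omega⟩
  have ha : (((5 * D - 1) / 4 : ℤ) : ℚ) = (5 * D - 1) / 4 := by
    have : (5 * D - 1) / 4 = 5 * k + 1 := by omega
    rw [this, hk]
    push_cast
    ring
  have hb : ((-((19 * D ^ 2 + 1) / 2) : ℤ) : ℚ) = -((19 * D ^ 2 + 1) / 2) := by
    have h1 : 19 * D ^ 2 + 1 = 2 * (152 * k ^ 2 + 76 * k + 10) := by rw [hk]; ring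
    have : (19 * D ^ 2 + 1) / 2 = 152 * k ^ 2 + 76 * k + 10 := by omega
    rw [this, hk]
    push_cast
    ring
  have hc : ((-((39 * D ^ 3 + 1) / 4) : ℤ) : ℚ) = -((39 * D ^ 3 + 1) / 4) := by
    have h1 : 39 * D ^ 3 + 1 = 4 * (624 * k ^ 3 + 468 * k ^ 2 + 117 * k + 10) := by rw [hk]; ring
    have : (39 * D ^ 3 + 1) / 4 = 624 * k ^ 3 + 468 * k ^ 2 + 117 * k + 10 := by omega
    rw [this, hk]
    push_cast
    ring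
  refine ⟨two_ne_zero, ?_, ?_, ?_, ?_, ?_⟩
  · show (2 : ℚ) * ((1 : ℤ) : ℚ) = 0 + 2 * 1
    norm_num
  · show (2 : ℚ) ^ 2 * (((5 * D - 1) / 4 : ℤ) : ℚ) =
      ((-34 * D : ℤ) : ℚ) - 1 * 0 + 3 * (13 * D) - 1 ^ 2
    rw [ha]
    push_cast
    ring
  · show (2 : ℚ) ^ 3 * ((1 : ℤ) : ℚ) = 0 + (13 * D) * 0 + 2 * 4
    norm_num
  · show (2 : ℚ) ^ 4 * ((-((19 * D ^ 2 + 1) / 2) : ℤ) : ℚ) = ((225 * D ^ 2 : ℤ) : ℚ) - 1 * 0 +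
      2 * (13 * D) * ((-34 * D : ℤ) : ℚ) - (4 + (13 * D) * 1) * 0 + 3 * (13 * (D : ℚ)) ^ 2 - 2 * 1 * 4
    rw [hb]
    push_cast
    ring
  · show (2 : ℚ) ^ 6 * ((-((39 * D ^ 3 + 1) / 4) : ℤ) : ℚ) = 0 + (13 * D) * ((225 * D ^ 2 : ℤ) : ℚ) +
      (13 * D) ^ 2 * ((-34 * D : ℤ) : ℚ) + (13 * (D : ℚ)) ^ 3 - 4 * 0 - 4 ^ 2 - (13 * D) * 4 * 0
    rw [hc]
    push_cast
    ring

theorem Delta_WD_ne {D : ℤ} (hM : S_MOD) (h4 : D % 4 = 1) (hs : Squarefree D) (h3 : ¬ (3 : ℤ) ∣ D)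
    (h5 : ¬ (5 : ℤ) ∣ D) : (WD D).Δ ≠ 0 := by
  rw [(hM D h4 hs h3 h5).2.1]
  have : D ≠ 0 := hs.ne_zero
  positivity

/-- transport of the conditions to the short equation -/
theorem trn_sh (h : S_TRN) (hM : S_MOD) {D : ℤ} (h4 : D % 4 = 1) (hs : Squarefree D)
    (h3 : ¬ (3 : ℤ) ∣ D) (h5 : ¬ (5 : ℤ) ∣ D) :
    (Finite (EQ (WD D)).toAffine.Point ↔
      Finite (sh (-12987 * D ^ 2) (-263466 * D ^ 3)).toAffine.Point) ∧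
    ((∀ x : Sha (EQ (WD D)), x + x = 0 → x = 0) ↔
      ∀ x : Sha (sh (-12987 * D ^ 2) (-263466 * D ^ 3)), x + x = 0 → x = 0) := by
  have hD0 : D ≠ 0 := hs.ne_zero
  have hDQ : (D : ℚ) ≠ 0 := by exact_mod_cast hD0
  obtain ⟨a1, a2, -⟩ := h _ _ _ _ _ _ (vr_WD h4) (by
    rw [WeierstrassCurve.map_Δ]
    have := Delta_WD_ne hM h4 hs h3 h5
    show (((WD D).Δ : ℤ) : ℚ) ≠ 0
    exact_mod_cast this)
  have hv : VR (WZ (-34 * D) (225 * D ^ 2)) (sh (-12987 * D ^ 2) (-263466 * D ^ 3))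
      (1 / 3) (34 * D / 3) 0 0 := by
    refine ⟨by norm_num, ?_, ?_, ?_, ?_, ?_⟩
    · show (1 / 3 : ℚ) * 0 = 0 + 2 * 0
      norm_num
    · show (1 / 3 : ℚ) ^ 2 * 0 = ((-34 * D : ℤ) : ℚ) - 0 * 0 + 3 * (34 * D / 3) - 0 ^ 2
      push_cast
      ring
    · show (1 / 3 : ℚ) ^ 3 * 0 = 0 + (34 * D / 3) * 0 + 2 * 0
      ring
    · show (1 / 3 : ℚ) ^ 4 * ((-12987 * D ^ 2 : ℤ) : ℚ) = ((225 * D ^ 2 : ℤ) : ℚ) - 0 * 0 +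
        2 * (34 * D / 3) * ((-34 * D : ℤ) : ℚ) - (0 + (34 * D / 3) * 0) * 0 +
        3 * (34 * (D : ℚ) / 3) ^ 2 - 2 * 0 * 0
      push_cast
      ring
    · show (1 / 3 : ℚ) ^ 6 * ((-263466 * D ^ 3 : ℤ) : ℚ) = 0 +
        (34 * D / 3) * ((225 * D ^ 2 : ℤ) : ℚ) + (34 * D / 3) ^ 2 * ((-34 * D : ℤ) : ℚ) +
        (34 * (D : ℚ) / 3) ^ 3 - 0 * 0 - 0 ^ 2 - (34 * D / 3) * 0 * 0
      push_cast
      ring
  obtain ⟨b1, b2, -⟩ := h _ _ _ _ _ _ hv (by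
    have e : (sh (-12987 * D ^ 2) (-263466 * D ^ 3)).Δ =
        (-16 * (4 * (-12987) ^ 3 + 27 * 263466 ^ 2)) * (D : ℚ) ^ 6 := by
      unfold sh WeierstrassCurve.Δ WeierstrassCurve.b₂ WeierstrassCurve.b₄ WeierstrassCurve.b₆
        WeierstrassCurve.b₈
      push_cast
      ring
    rw [e]
    have : (D : ℚ) ^ 6 ≠ 0 := pow_ne_zero 6 hDQ
    exact mul_ne_zero (by norm_num) this)
  exact ⟨a1.symm.trans b1, a2.symm.trans b2⟩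

end Pool.Agent.H757_X15.EE
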