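import Pool.Agent.H757_X15.ES.TQ

/-!
# The Tamagawa number of the twists of `X_0(15)` at `3` (part E5): type `I_4`, non-split

With `Z = 4 (x - 3 M) + 25 M`, `Y = 4 (2 y + x + 1)` the equation is `Y² = Z (Z - 9 M) (Z - 25 M)`; the points outside
`E⁰` are the points with `Z ≡ 0` modulo `3`. As `-1` is not a square modulo `3`, `Z` is then divisible by `9`,
and translation by `(0, 0)` (`Z` becomes `225 M² / Z`) brings the point to `E⁰`.
-/

set_option autoImplicit false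
set_option linter.all false

namespace Pool.Agent.H757_X15.EE.T3

open scoped Classical
open Pool.Agent.Y700 (PtP E0 SingRed S_E0 tam)
open Pool.Agent.H757_X15 (WD)
open Pool.Agent.H757_X15.EE.Tq (IsWD isWD)
open WeierstrassCurve
open Pool.Agent.Y809.BSD14 (nadd nsub nmul npow nneg ladd lneg lsub lmul lmul' nnat norm_eq_of_lt
  norm_le_inv)

theorem key3 : ∀ s : ZMod 3, s ^ 2 + 1 ≠ 0 := by decide

section

variable [Fact (Nat.Prime 3)] {M : ℤ}

theorem k3 : ‖(3 : ℚ_[3])‖ = 1 / 3 := by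
  have := Padic.norm_p (p := 3)
  simpa using this

theorem k3lt : ‖(3 : ℚ_[3])‖ < 1 := by rw [k3]; norm_num

theorem kunit (z : ℤ) (h : ¬ (3 : ℤ) ∣ z) : ‖(z : ℚ_[3])‖ = 1 := by
  refine le_antisymm (Padic.norm_int_le_one z) (not_lt.1 fun h1 => h ?_)
  exact_mod_cast Padic.norm_intCast_lt_one_iff.1 h1

theorem kint (z : ℤ) : ‖(z : ℚ_[3])‖ ≤ 1 := Padic.norm_int_le_one z

theorem k2 : ‖(2 : ℚ_[3])‖ = 1 := by exact_mod_cast kunit 2 (by norm_num)

theorem k4 : ‖(4 : ℚ_[3])‖ = 1 := by exact_mod_cast kunit 4 (by norm_num)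

theorem k16 : ‖(16 : ℚ_[3])‖ = 1 := by exact_mod_cast kunit 16 (by norm_num)

theorem k68 : ‖(68 : ℚ_[3])‖ = 1 := by exact_mod_cast kunit 68 (by norm_num)

theorem k13 : ‖(13 : ℚ_[3])‖ = 1 := by exact_mod_cast kunit 13 (by norm_num)

theorem k25 : ‖(25 : ℚ_[3])‖ = 1 := by exact_mod_cast kunit 25 (by norm_num)

theorem kthird {x : ℚ_[3]} (h : ‖x‖ < 1) : ‖x‖ ≤ 1 / 3 := by
  have := norm_le_inv 3 h
  norm_num at this ⊢
  exact this

/-- the singular points -/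
theorem sing3 (hM4 : M % 4 = 1) (hM3 : M % 3 = 1) {x y : ℚ_[3]}
    (hE : ((WD M).map (Int.castRingHom ℚ_[3])).toAffine.Equation x y) :
    SingRed (WD M) 3 x y ↔ ‖4 * (x - 3 * M) + 25 * M‖ < 1 := by
  have hW := isWD 3 M hM4
  have e1 := hW.eqn hE
  have e2 := hW.fx x y
  have hm : ‖(M : ℚ_[3])‖ = 1 := kunit M (by omega)
  have hcoef : SingRed (WD M) 3 x y ↔ ‖x‖ ≤ 1 ∧ ‖y‖ ≤ 1 ∧
      ‖((WD M).map (Int.castRingHom ℚ_[3])).toAffine.a₁ * y - (3 * x ^ 2 + 2 *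
        ((WD M).map (Int.castRingHom ℚ_[3])).toAffine.a₂ * x +
        ((WD M).map (Int.castRingHom ℚ_[3])).toAffine.a₄)‖ < 1 ∧ ‖2 * y + x + 1‖ < 1 := by
    have h1 : SingRed (WD M) 3 x y ↔ ‖x‖ ≤ 1 ∧ ‖y‖ ≤ 1 ∧
      ‖((WD M).map (Int.castRingHom ℚ_[3])).toAffine.a₁ * y - (3 * x ^ 2 + 2 *
        ((WD M).map (Int.castRingHom ℚ_[3])).toAffine.a₂ * x +
        ((WD M).map (Int.castRingHom ℚ_[3])).toAffine.a₄)‖ < 1 ∧
        ‖2 * y + (((1 : ℤ)) : ℚ_[3]) * x + (((1 : ℤ)) : ℚ_[3])‖ < 1 := Iff.rfl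
    rw [h1, Int.cast_one, one_mul]
  rw [hcoef]
  set G := ((WD M).map (Int.castRingHom ℚ_[3])).toAffine.a₁ * y - (3 * x ^ 2 + 2 *
        ((WD M).map (Int.castRingHom ℚ_[3])).toAffine.a₂ * x +
        ((WD M).map (Int.castRingHom ℚ_[3])).toAffine.a₄) with hG
  clear_value G
  obtain ⟨Z, hZ⟩ : ∃ Z : ℚ_[3], Z = 4 * (x - 3 * M) + 25 * M := ⟨_, rfl⟩
  obtain ⟨Y, hY⟩ : ∃ Y : ℚ_[3], Y = 4 * (2 * y + x + 1) := ⟨_, rfl⟩
  have e3 : Y ^ 2 = Z * ((Z - 9 * M) * (Z - 25 * M)) := by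
    rw [hY, e1, hZ]; ring
  have e4 : 16 * G = 2 * Y - (3 * Z ^ 2 - 68 * M * Z + 225 * M ^ 2) := by
    rw [e2, hY, hZ]; ring
  rw [← hZ]
  have k9 : ‖(9 : ℚ_[3])‖ ≤ 1 := by exact_mod_cast kint 9
  have k225 : ‖(225 : ℚ_[3])‖ < 1 := by
    have : (225 : ℚ_[3]) = 3 * 75 := by norm_num
    rw [this]
    exact lmul' k3lt (by exact_mod_cast kint 75)
  constructor
  · rintro ⟨hx, hy, h1, h2⟩
    have hYl : ‖Y‖ < 1 := by rw [hY]; exact lmul k4.le h2
    have hZ1 : ‖Z‖ ≤ 1 := by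
      rw [hZ]
      exact nadd (nmul k4.le (nsub hx (nmul k3lt.le hm.le))) (nmul k25.le hm.le)
    have h3 : ‖68 * M * Z‖ < 1 := by
      have : 68 * M * Z = 16 * G - 2 * Y + (3 * Z ^ 2 + 225 * M ^ 2) := by rw [e4]; ring
      rw [this]
      exact ladd (lsub (lmul k16.le h1) (lmul k2.le hYl))
        (ladd (lmul' k3lt (npow hZ1 2)) (lmul' k225 (npow hm.le 2)))
    rw [norm_mul, norm_mul, k68, hm, one_mul, one_mul] at h3
    exact h3
  · intro hZl
    have hx : ‖x‖ ≤ 1 := by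
      have : x = (Z - 13 * M) / 4 := by rw [hZ]; ring
      rw [this, norm_div, k4, div_one]
      exact nsub hZl.le (nmul k13.le hm.le)
    have hYl : ‖Y‖ < 1 := by
      have h1 : ‖Y ^ 2‖ < 1 := by
        rw [e3]
        exact lmul' hZl (nmul (nsub hZl.le (nmul k9 hm.le)) (nsub hZl.le (nmul k25.le hm.le)))
      rw [norm_pow] at h1
      by_contra h
      rw [not_lt] at h
      have := one_le_pow₀ h (n := 2)
      linarith
    have h2 : ‖2 * y + x + 1‖ < 1 := by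
      have h5 : ‖Y‖ = ‖2 * y + x + 1‖ := by rw [hY, norm_mul, k4, one_mul]
      rw [← h5]; exact hYl
    have hy : ‖y‖ ≤ 1 := by
      have : y = ((2 * y + x + 1) - x - 1) / 2 := by ring
      rw [this, norm_div, k2, div_one]
      exact nsub (nsub h2.le hx) (by simp)
    refine ⟨hx, hy, ?_, h2⟩
    have h5 : ‖16 * G‖ < 1 := by
      rw [e4]
      refine lsub (lmul k2.le hYl) (ladd (lsub (lmul' k3lt (npow hZl.le 2)) ?_)
        (lmul' k225 (npow hm.le 2)))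
      exact lmul (nmul k68.le hm.le) hZl
    rw [norm_mul, k16, one_mul] at h5
    exact h5

/-- minus one is not a square modulo `3` -/
theorem nosq (r : ℚ_[3]) (hr : ‖r‖ ≤ 1) : ¬ ‖r ^ 2 + 1‖ < 1 := by
  intro h
  obtain ⟨r', rfl⟩ : ∃ r' : ℤ_[3], (r' : ℚ_[3]) = r := ⟨⟨r, hr⟩, rfl⟩
  have h1 : ‖r' ^ 2 + 1‖ < 1 := by
    rw [← PadicInt.padic_norm_e_of_padicInt]
    push_cast
    exact h
  have h2 : PadicInt.toZMod (r' ^ 2 + 1) = 0 := by
    have h3 : r' ^ 2 + 1 ∈ RingHom.ker (PadicInt.toZMod : ℤ_[3] →+* ZMod 3) := by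
      rw [PadicInt.ker_toZMod, IsLocalRing.mem_maximalIdeal, PadicInt.mem_nonunits]
      exact h1
    exact h3
  rw [map_add, map_pow, map_one] at h2
  exact key3 _ h2

/-- the points with singular reduction have `X` divisible by `9` -/
theorem deep (hM4 : M % 4 = 1) (hM3 : M % 3 = 1) {x y : ℚ_[3]}
    (hE : ((WD M).map (Int.castRingHom ℚ_[3])).toAffine.Equation x y)
    (h : ‖4 * (x - 3 * M) + 25 * M‖ < 1) : ‖4 * (x - 3 * M) + 25 * M‖ ≤ 1 / 9 := by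
  have hW := isWD 3 M hM4
  have e1 := hW.eqn hE
  have hm : ‖(M : ℚ_[3])‖ = 1 := kunit M (by omega)
  obtain ⟨Z, hZ⟩ : ∃ Z : ℚ_[3], Z = 4 * (x - 3 * M) + 25 * M := ⟨_, rfl⟩
  obtain ⟨Y, hY⟩ : ∃ Y : ℚ_[3], Y = 4 * (2 * y + x + 1) := ⟨_, rfl⟩
  have e3 : Y ^ 2 = Z * ((Z - 9 * M) * (Z - 25 * M)) := by
    rw [hY, e1, hZ]; ring
  rw [← hZ] at h ⊢
  have h30 : (3 : ℚ_[3]) ≠ 0 := by norm_num
  obtain ⟨t, ht⟩ : ∃ t : ℚ_[3], Z = 3 * t := ⟨Z / 3, by field_simp⟩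
  obtain ⟨w, hw⟩ : ∃ w : ℚ_[3], Y = 3 * w := ⟨Y / 3, by field_simp⟩
  have hZn : ‖Z‖ = 1 / 3 * ‖t‖ := by rw [ht, norm_mul, k3]
  have ht1 : ‖t‖ ≤ 1 := by
    have := kthird h
    rw [hZn] at this
    linarith
  by_contra hcon
  rw [not_le, hZn] at hcon
  have ht2 : ‖t‖ = 1 := by
    by_contra hne
    have := kthird (lt_of_le_of_ne ht1 hne)
    linarith
  have ht0 : t ≠ 0 := by
    intro h0
    rw [h0, norm_zero] at ht2
    exact zero_ne_one ht2
  have e5 : w ^ 2 = t * ((t - 3 * M) * (3 * t - 25 * M)) := by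
    have h9 : (9 : ℚ_[3]) ≠ 0 := by norm_num
    apply mul_left_cancel₀ h9
    rw [ht, hw] at e3
    linear_combination e3
  obtain ⟨j, hj⟩ : ∃ j : ℤ, M = 3 * j + 1 := ⟨M / 3, by omega⟩
  have hMj : (M : ℚ_[3]) = 3 * j + 1 := by rw [hj]; push_cast; ring
  have hs : w ^ 2 + t ^ 2 = 3 * (t ^ 3 - 25 * j * t ^ 2 - 8 * t ^ 2 -
      M * t * (3 * t - 25 * M)) := by
    rw [e5]
    have : t ^ 3 - 25 * j * t ^ 2 - 8 * t ^ 2 - M * t * (3 * t - 25 * M) =
      t ^ 3 - 25 * j * t ^ 2 - 8 * t ^ 2 - M * t * (3 * t - 25 * M) := rfl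
    linear_combination (-25 * t ^ 2) * hMj
  have hs1 : ‖w ^ 2 + t ^ 2‖ < 1 := by
    rw [hs]
    refine lmul' k3lt ?_
    have kj : ‖(j : ℚ_[3])‖ ≤ 1 := kint j
    have k8 : ‖(8 : ℚ_[3])‖ ≤ 1 := by exact_mod_cast kint 8
    exact nsub (nsub (nsub (npow ht1 3) (nmul (nmul k25.le kj) (npow ht1 2)))
      (nmul k8 (npow ht1 2))) (nmul (nmul hm.le ht1) (nsub (nmul k3lt.le ht1) (nmul k25.le hm.le)))
  have hwn : ‖w‖ ≤ 1 := by
    by_contra hc
    rw [not_le] at hc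
    have h6 : ‖w ^ 2‖ ≤ 1 := by
      have : w ^ 2 = (w ^ 2 + t ^ 2) - t ^ 2 := by ring
      rw [this]
      exact nsub hs1.le (npow ht1 2)
    rw [norm_pow] at h6
    have := one_lt_pow₀ hc (n := 2) (by norm_num)
    linarith
  apply nosq (w / t) (by rw [norm_div, ht2, div_one]; exact hwn)
  have h7 : (w / t) ^ 2 + 1 = (w ^ 2 + t ^ 2) / t ^ 2 := by field_simp
  rw [h7, norm_div, norm_pow, ht2, one_pow, div_one]
  exact hs1

theorem t_T3_aux (hE0 : S_E0) (hM4 : M % 4 = 1) (hM3 : M % 3 = 1) : tam (WD M) 3 = 2 := by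
  have hW := isWD 3 M hM4
  have hm : ‖(M : ℚ_[3])‖ = 1 := kunit M (by omega)
  have hm0 : (M : ℚ_[3]) ≠ 0 := by
    intro h0; rw [h0, norm_zero] at hm; exact zero_ne_one hm
  have h2 : (2 : ℚ_[3]) ≠ 0 := by norm_num
  have hT := hW.nonsing h2 hm0 (r := -25) (by norm_num) (by norm_num)
  set xT : ℚ_[3] := M * -25 / 4 + 3 * M with hxT
  set yT : ℚ_[3] := -(M * -25 / 4 + 3 * M + 1) / 2 with hyT
  have hy : 2 * yT + xT + 1 = 0 := by rw [hxT, hyT]; ring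
  have hXT : 4 * (xT - 3 * M) = -25 * M := by rw [hxT]; ring
  set H := E0 (WD M) 3 with hH
  have mem : ∀ (x y : ℚ_[3]) (h : ((WD M).map (Int.castRingHom ℚ_[3])).toAffine.Nonsingular x y),
      (Affine.Point.some x y h : PtP (WD M) 3) ∈ H ↔ ¬ ‖4 * (x - 3 * M) + 25 * M‖ < 1 := by
    intro x y h
    rw [hH, hE0]
    constructor
    · intro h1
      rw [← sing3 hM4 hM3 h.1]
      exact h1 x y h rfl
    · intro h1 x' y' h' e
      injection e with e1 e2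
      rw [← e1, ← e2, sing3 hM4 hM3 h.1]
      exact h1
  set T : PtP (WD M) 3 := Affine.Point.some xT yT hT with hTd
  have hTH : T ∉ H := by
    rw [hTd, mem, not_not, hXT]
    have : -25 * (M : ℚ_[3]) + 25 * M = 0 := by ring
    rw [this, norm_zero]
    exact zero_lt_one
  have hTT : T + T = 0 := hW.two_tors hT hy
  show H.index = 2
  rw [AddSubgroup.index_eq_two_iff]
  refine ⟨T, fun P => ?_⟩
  by_cases hP : P ∈ H
  · right
    refine ⟨hP, fun h => hTH ?_⟩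
    have := H.sub_mem h hP
    rwa [add_sub_cancel_left] at this
  · left
    refine ⟨?_, hP⟩
    rcases P with _ | ⟨x, y, h⟩
    · exact absurd (zero_mem H) hP
    · have hl : ‖4 * (x - 3 * M) + 25 * M‖ < 1 := by
        have := (mem x y h).not.1 hP
        rwa [not_not] at this
      by_cases hx : x = xT
      · subst hx
        have : y = yT := hW.eq_of_x h2 hT hy h
        subst this
        have e : (Affine.Point.some xT yT h : PtP (WD M) 3) + T = 0 := hTT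
        rw [e]
        exact zero_mem H
      · obtain ⟨x3, y3, h3, e1, e2⟩ := hW.add_T h hT hy hx h2
        rw [e1, mem]
        intro hc
        have hd := deep hM4 hM3 h.1 hl
        rw [hXT] at e2
        have e3 : (4 * (x3 - 3 * M) + 25 * M) * (4 * (x - 3 * M) + 25 * M) = 225 * (M : ℚ_[3]) ^ 2 := by
          linear_combination e2
        have e4 := congrArg norm e3
        have k225 : ‖(225 : ℚ_[3])‖ = 1 / 9 := by
          have : (225 : ℚ_[3]) = 3 * 3 * 25 := by norm_num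
          rw [this, norm_mul, norm_mul, k3, k25]
          norm_num
        rw [norm_mul, norm_mul, norm_pow, hm, k225] at e4
        have h5 := norm_nonneg (4 * (x3 - 3 * M) + 25 * (M : ℚ_[3]))
        have h6 := norm_nonneg (4 * (x - 3 * M) + 25 * (M : ℚ_[3]))
        nlinarith

end

end Pool.Agent.H757_X15.EE.T3

namespace Pool.Agent.H757_X15.EE

theorem t_T3 : S_T3 := fun hE _ _ h4 h3 => T3.t_T3_aux hE h4 h3

end Pool.Agent.H757_X15.EE
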