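import Pool.Agent.H757_X15.StmE
import Pool.Agent.Y809.BSD14.Tam3

/-!
# The Tamagawa numbers of the twists of `X_0(15)` at the primes that divide the twist (part E7)

`X = 4 (x - 3 M)`, `Y = 4 (2 y + x + 1)`, `Y² = X (X + 16 M) (X + 25 M)`.
-/

set_option autoImplicit false
set_option linter.all false

namespace Pool.Agent.H757_X15.EE.Tq

open scoped Classical
open Pool.Agent.Y700 (PtP E0 SingRed S_E0 tam tamProd)
open Pool.Agent.H757_X15 (WD)
open WeierstrassCurve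
open Pool.Agent.Y809.BSD14 (index_of nadd nsub nmul npow nneg ladd lneg lsub lmul lmul' nnat n2 n3
  norm_nat_eq_one norm_two_pow norm_le_inv norm_M parity M_lt M_pos M_ne K2 norm2 norm4 norm16)

section general

variable {K : Type} [Field K] [DecidableEq K]

/-- `W` is the twist of `X_0(15)` by `m` -/
structure IsWD (W : WeierstrassCurve.Affine K) (m : K) : Prop where
  a1 : W.a₁ = 1
  a3 : W.a₃ = 1
  a2 : 4 * W.a₂ = 5 * m - 1
  a4 : 2 * W.a₄ = -(19 * m ^ 2 + 1)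
  a6 : 4 * W.a₆ = -(39 * m ^ 3 + 1)

variable {W : WeierstrassCurve.Affine K} {m : K}

theorem IsWD.eqn (h : IsWD W m) {x y : K} (hE : W.Equation x y) :
    (4 * (2 * y + x + 1)) ^ 2 = (4 * (x - 3 * m)) ^ 3 + 41 * m * (4 * (x - 3 * m)) ^ 2 +
      400 * m ^ 2 * (4 * (x - 3 * m)) := by
  rw [Affine.equation_iff, h.a1, h.a3] at hE
  linear_combination 64 * hE + 16 * x ^ 2 * h.a2 + 32 * x * h.a4 + 16 * h.a6

theorem IsWD.eqn' (h : IsWD W m) (h2 : (2 : K) ≠ 0) {x y : K}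
    (hE : (4 * (2 * y + x + 1)) ^ 2 = (4 * (x - 3 * m)) ^ 3 + 41 * m * (4 * (x - 3 * m)) ^ 2 +
      400 * m ^ 2 * (4 * (x - 3 * m))) : W.Equation x y := by
  rw [Affine.equation_iff, h.a1, h.a3]
  have h64 : (64 : K) ≠ 0 := by
    have : (64 : K) = 2 ^ 6 := by norm_num
    rw [this]
    exact pow_ne_zero _ h2
  apply mul_left_cancel₀ h64
  linear_combination hE - 16 * x ^ 2 * h.a2 - 32 * x * h.a4 - 16 * h.a6

theorem IsWD.fx (h : IsWD W m) (x y : K) : 16 * (W.a₁ * y - (3 * x ^ 2 + 2 * W.a₂ * x + W.a₄)) =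
    2 * (4 * (2 * y + x + 1)) -
      (3 * (4 * (x - 3 * m)) ^ 2 + 82 * m * (4 * (x - 3 * m)) + 400 * m ^ 2) := by
  rw [h.a1]
  linear_combination (-8 * x) * h.a2 - 8 * h.a4

/-- the point of order two with `X = m r` -/
theorem IsWD.nonsing (h : IsWD W m) (h2 : (2 : K) ≠ 0) (hm : m ≠ 0) {r : K}
    (hr : r ^ 3 + 41 * r ^ 2 + 400 * r = 0) (hr' : 3 * r ^ 2 + 82 * r + 400 ≠ 0) :
    W.Nonsingular (m * r / 4 + 3 * m) (-(m * r / 4 + 3 * m + 1) / 2) := by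
  have h4 : (4 : K) ≠ 0 := by
    have : (4 : K) = 2 ^ 2 := by norm_num
    rw [this]
    exact pow_ne_zero _ h2
  have e1 : 4 * (2 * (-(m * r / 4 + 3 * m + 1) / 2) + (m * r / 4 + 3 * m) + 1) = 0 := by
    field_simp
    ring
  have e2 : 4 * ((m * r / 4 + 3 * m) - 3 * m) = m * r := by
    field_simp
    ring
  rw [Affine.nonsingular_iff]
  constructor
  · apply h.eqn' h2
    rw [e1, e2]
    linear_combination (-m ^ 3) * hr
  · left
    intro he
    have := h.fx (m * r / 4 + 3 * m) (-(m * r / 4 + 3 * m + 1) / 2)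
    rw [e1, e2, he, sub_self, mul_zero] at this
    have h5 : m ^ 2 * (3 * r ^ 2 + 82 * r + 400) = 0 := by linear_combination this
    rcases mul_eq_zero.1 h5 with h6 | h6
    · exact hm (pow_eq_zero_iff (two_ne_zero) |>.1 h6)
    · exact hr' h6

theorem IsWD.two_tors (h : IsWD W m) {x y : K} (hT : W.Nonsingular x y) (hy : 2 * y + x + 1 = 0) :
    (Affine.Point.some x y hT : W.Point) + Affine.Point.some x y hT = 0 := by
  apply Affine.Point.add_self_of_Y_eq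
  rw [Affine.negY, h.a1, h.a3]
  linear_combination hy

theorem IsWD.eq_of_x (h : IsWD W m) (h2 : (2 : K) ≠ 0) {x y y' : K} (hT : W.Nonsingular x y)
    (hy : 2 * y + x + 1 = 0) (hP : W.Nonsingular x y') : y' = y := by
  have e1 := h.eqn hT.1
  have e2 := h.eqn hP.1
  rw [← e1, hy] at e2
  have h4 : (4 : K) ≠ 0 := by
    have : (4 : K) = 2 ^ 2 := by norm_num
    rw [this]
    exact pow_ne_zero _ h2
  have e3 : 4 * (2 * y' + x + 1) = 0 := by
    have : (4 * (2 * y' + x + 1)) ^ 2 = 0 := by rw [e2]; ring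
    exact pow_eq_zero_iff (two_ne_zero) |>.1 this
  rcases mul_eq_zero.1 e3 with h6 | h6
  · exact absurd h6 h4
  · apply mul_left_cancel₀ h2
    linear_combination h6 - hy

theorem IsWD.add_T (h : IsWD W m) {x y xT yT : K} (hP : W.Nonsingular x y)
    (hT : W.Nonsingular xT yT) (hy : 2 * yT + xT + 1 = 0) (hx : x ≠ xT) (h2 : (2 : K) ≠ 0) :
    ∃ (x3 y3 : K) (h3 : W.Nonsingular x3 y3),
      (Affine.Point.some x y hP : W.Point) + Affine.Point.some xT yT hT =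
        Affine.Point.some x3 y3 h3 ∧
      (4 * (x3 - 3 * m) - 4 * (xT - 3 * m)) * (4 * (x - 3 * m) - 4 * (xT - 3 * m)) =
        3 * (4 * (xT - 3 * m)) ^ 2 + 82 * m * (4 * (xT - 3 * m)) + 400 * m ^ 2 := by
  have hxy : ¬(x = xT ∧ y = W.negY xT yT) := fun hh => hx hh.1
  refine ⟨_, _, Affine.nonsingular_add hP hT hxy, Affine.Point.add_some hxy, ?_⟩
  set l := W.slope x xT y yT with hl
  have h0 : x - xT ≠ 0 := sub_ne_zero.2 hx
  have hl2 : l = (y - yT) / (x - xT) := Affine.slope_of_X_ne hx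
  have hl3 : l * (x - xT) = y - yT := by rw [hl2, div_mul_cancel₀ _ h0]
  rw [Affine.addX, h.a1]
  obtain ⟨L, hL⟩ : ∃ L : K, L = 2 * l + 1 := ⟨_, rfl⟩
  obtain ⟨X, hX⟩ : ∃ X : K, X = 4 * (x - 3 * m) := ⟨_, rfl⟩
  obtain ⟨e, he⟩ : ∃ e : K, e = 4 * (xT - 3 * m) := ⟨_, rfl⟩
  obtain ⟨Y, hY⟩ : ∃ Y : K, Y = 4 * (2 * y + x + 1) := ⟨_, rfl⟩
  have hLX : L * (X - e) = Y := by
    rw [hL, hX, he, hY]
    linear_combination 8 * hl3 - 4 * hy
  have e1 := h.eqn hP.1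
  have e2 := h.eqn hT.1
  rw [← hY, ← hX] at e1
  rw [hy, mul_zero, ← he] at e2
  have hXe : X - e ≠ 0 := by
    rw [hX, he]
    have : 4 * (x - 3 * m) - 4 * (xT - 3 * m) = 2 ^ 2 * (x - xT) := by ring
    rw [this]
    exact mul_ne_zero (pow_ne_zero _ h2) h0
  have e3 : L ^ 2 * (X - e) = X ^ 2 + (41 * m + e) * X + (e ^ 2 + 41 * m * e + 400 * m ^ 2) := by
    apply mul_right_cancel₀ hXe
    rw [← hLX] at e1
    linear_combination e1 - e2
  rw [← hX, ← he]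
  have e4 : 4 * (l ^ 2 + 1 * l - W.a₂ - x - xT - 3 * m) = L ^ 2 - 41 * m - X - e := by
    rw [hL, hX, he]
    linear_combination -h.a2
  rw [e4]
  linear_combination e3

end general

section

variable (q : ℕ) [Fact q.Prime]

theorem isWD (M : ℤ) (hM : M % 4 = 1) :
    IsWD ((WD M).map (Int.castRingHom ℚ_[q])).toAffine (M : ℚ_[q]) := by
  obtain ⟨k, rfl⟩ : ∃ k, M = 4 * k + 1 := ⟨M / 4, by omega⟩
  have e2 : (5 * (4 * k + 1) - 1) / 4 = 5 * k + 1 := by omega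
  have e4 : (19 * (4 * k + 1) ^ 2 + 1) / 2 = 152 * k ^ 2 + 76 * k + 10 := by
    have : 19 * (4 * k + 1) ^ 2 + 1 = 2 * (152 * k ^ 2 + 76 * k + 10) := by ring
    rw [this]
    exact Int.mul_ediv_cancel_left _ (by norm_num)
  have e6 : (39 * (4 * k + 1) ^ 3 + 1) / 4 = 624 * k ^ 3 + 468 * k ^ 2 + 117 * k + 10 := by
    have : 39 * (4 * k + 1) ^ 3 + 1 = 4 * (624 * k ^ 3 + 468 * k ^ 2 + 117 * k + 10) := by ring
    rw [this]
    exact Int.mul_ediv_cancel_left _ (by norm_num)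
  refine ⟨?_, ?_, ?_, ?_, ?_⟩
  · show (((1 : ℤ)) : ℚ_[q]) = 1
    norm_num
  · show (((1 : ℤ)) : ℚ_[q]) = 1
    norm_num
  · show 4 * ((((5 * (4 * k + 1) - 1) / 4 : ℤ)) : ℚ_[q]) = _
    rw [e2]
    push_cast
    ring
  · show 2 * (((-((19 * (4 * k + 1) ^ 2 + 1) / 2) : ℤ)) : ℚ_[q]) = _
    rw [e4]
    push_cast
    ring
  · show 4 * (((-((39 * (4 * k + 1) ^ 3 + 1) / 4) : ℤ)) : ℚ_[q]) = _
    rw [e6]
    push_cast
    ring

end

section

variable {q : ℕ} [Fact q.Prime] {M : ℤ} (hM4 : M % 4 = 1) (hq2 : q ≠ 2)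
  (hM : ‖(M : ℚ_[q])‖ = (q : ℝ)⁻¹)

include hM4 hq2 hM in
theorem sing_of {x y : ℚ_[q]} (hE : ((WD M).map (Int.castRingHom ℚ_[q])).toAffine.Equation x y)
    (hX : ‖4 * (x - 3 * M)‖ < 1) : SingRed (WD M) q x y := by
  have hW := isWD q M hM4
  have e1 := hW.eqn hE
  set X := 4 * (x - 3 * (M : ℚ_[q])) with hXd
  set Y := 4 * (2 * y + x + 1) with hYd
  have hm := M_lt hM
  have n41 : ‖(41 : ℚ_[q])‖ ≤ 1 := by exact_mod_cast nnat (K := ℚ_[q]) 41
  have n400 : ‖(400 : ℚ_[q])‖ ≤ 1 := by exact_mod_cast nnat (K := ℚ_[q]) 400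
  have hY : ‖Y‖ < 1 := by
    have h1 : ‖Y ^ 2‖ < 1 := by
      rw [e1]
      have e : X ^ 3 + 41 * M * X ^ 2 + 400 * M ^ 2 * X = (X ^ 2 + 41 * M * X + 400 * M ^ 2) * X := by
        ring
      rw [e]
      exact lmul (nadd (nadd (npow hX.le 2) (nmul (nmul n41 hm.le) hX.le)) (nmul n400 (npow hm.le 2))) hX
    rw [norm_pow] at h1
    by_contra h
    rw [not_lt] at h
    have := one_le_pow₀ h (n := 2)
    linarith
  have hx : ‖x - 3 * M‖ < 1 := by
    have h1 : ‖X‖ = ‖x - 3 * M‖ := by rw [hXd, norm_mul, norm4 hq2, one_mul]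
    rw [← h1]
    exact hX
  have hy : ‖2 * y + x + 1‖ < 1 := by
    have h1 : ‖Y‖ = ‖2 * y + x + 1‖ := by rw [hYd, norm_mul, norm4 hq2, one_mul]
    rw [← h1]
    exact hY
  have hx1 : ‖x‖ ≤ 1 := by
    have : x = (x - 3 * M) + 3 * M := by ring
    rw [this]
    exact nadd hx.le (nmul n3 hm.le)
  have hy1 : ‖y‖ ≤ 1 := by
    have h1 : ‖2 * y‖ = ‖y‖ := by rw [norm_mul, norm2 hq2, one_mul]
    rw [← h1]
    have : 2 * y = (2 * y + x + 1) - x - 1 := by ring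
    rw [this]
    exact nsub (nsub hy.le hx1) norm_one.le
  refine ⟨hx1, hy1, ?_, ?_⟩
  · have e2 := hW.fx x y
    have h1 : ‖16 * (((WD M).map (Int.castRingHom ℚ_[q])).toAffine.a₁ * y - (3 * x ^ 2 + 2 *
      ((WD M).map (Int.castRingHom ℚ_[q])).toAffine.a₂ * x +
      ((WD M).map (Int.castRingHom ℚ_[q])).toAffine.a₄))‖ < 1 := by
      rw [e2]
      have n82 : ‖(82 : ℚ_[q])‖ ≤ 1 := by exact_mod_cast nnat (K := ℚ_[q]) 82
      have hm2 : ‖(M : ℚ_[q]) ^ 2‖ < 1 := by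
        rw [pow_two]
        exact lmul hm.le hm
      have hX2 : ‖X ^ 2‖ < 1 := by
        rw [pow_two]
        exact lmul hX.le hX
      exact lsub (lmul n2 hY) (ladd (ladd (lmul n3 hX2) (lmul (nmul n82 hm.le) hX)) (lmul n400 hm2))
    rw [norm_mul, norm16 hq2, one_mul] at h1
    exact h1
  · show ‖2 * y + (((1 : ℤ)) : ℚ_[q]) * x + (((1 : ℤ)) : ℚ_[q])‖ < 1
    rw [Int.cast_one, one_mul]
    exact hy

include hM4 hq2 hM in
theorem of_sing {x y : ℚ_[q]} (hE : ((WD M).map (Int.castRingHom ℚ_[q])).toAffine.Equation x y)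
    (hs : SingRed (WD M) q x y) : ‖4 * (x - 3 * M)‖ < 1 := by
  have hW := isWD q M hM4
  have e1 := hW.eqn hE
  set X := 4 * (x - 3 * (M : ℚ_[q])) with hXd
  set Y := 4 * (2 * y + x + 1) with hYd
  have hm := M_lt hM
  obtain ⟨hx, hy, -, hfy⟩ := hs
  have hfy' : ‖2 * y + x + 1‖ < 1 := by
    have : 2 * y + x + 1 = 2 * y + (((1 : ℤ)) : ℚ_[q]) * x + (((1 : ℤ)) : ℚ_[q]) := by
      rw [Int.cast_one, one_mul]
    rw [this]
    exact hfy
  have n4 : ‖(4 : ℚ_[q])‖ ≤ 1 := (norm4 hq2).le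
  have hY : ‖Y‖ < 1 := lmul n4 hfy'
  have hX : ‖X‖ ≤ 1 := nmul n4 (nsub hx (nmul n3 hm.le))
  have h3 : ‖X ^ 3‖ < 1 := by
    have e : X ^ 3 = Y * Y - (41 * X ^ 2 + 400 * M * X) * M := by
      linear_combination -e1
    rw [e]
    have n41 : ‖(41 : ℚ_[q])‖ ≤ 1 := by exact_mod_cast nnat (K := ℚ_[q]) 41
    have n400 : ‖(400 : ℚ_[q])‖ ≤ 1 := by exact_mod_cast nnat (K := ℚ_[q]) 400
    exact lsub (lmul hY.le hY) (lmul (nadd (nmul n41 (npow hX 2)) (nmul (nmul n400 hm.le) hX)) hm)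
  rw [norm_pow] at h3
  by_contra h
  rw [not_lt] at h
  have := one_le_pow₀ h (n := 3)
  linarith

include hM4 hq2 hM in
/-- the parameter of a point with singular reduction -/
theorem par_of_sing {x y : ℚ_[q]}
    (hE : ((WD M).map (Int.castRingHom ℚ_[q])).toAffine.Equation x y)
    (hs : SingRed (WD M) q x y) : ∃ t : ℚ_[q], 4 * (x - 3 * M) = M * t ∧ ‖t‖ ≤ 1 ∧
      ‖t ^ 3 + 41 * t ^ 2 + 400 * t‖ < 1 := by
  have hX := of_sing hM4 hq2 hM hE hs
  have e1 := (isWD q M hM4).eqn hE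
  have hm0 := M_ne hM
  have hmp := M_pos hM
  obtain ⟨t, ht⟩ : ∃ t : ℚ_[q], 4 * (x - 3 * M) = M * t :=
    ⟨4 * (x - 3 * M) / M, by rw [mul_div_cancel₀ _ hm0]⟩
  have ht1 : ‖t‖ ≤ 1 := by
    have h1 := norm_le_inv q hX
    rw [ht, norm_mul, ← hM] at h1
    by_contra h
    rw [not_le] at h
    nlinarith
  refine ⟨t, ht, ht1, ?_⟩
  rw [ht] at e1
  have n41 : ‖(41 : ℚ_[q])‖ ≤ 1 := by exact_mod_cast nnat (K := ℚ_[q]) 41
  have n400 : ‖(400 : ℚ_[q])‖ ≤ 1 := by exact_mod_cast nnat (K := ℚ_[q]) 400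
  have h2 : ‖t ^ 3 + 41 * t ^ 2 + 400 * t‖ ≤ 1 :=
    nadd (nadd (npow ht1 3) (nmul n41 (npow ht1 2))) (nmul n400 ht1)
  refine lt_of_le_of_ne h2 fun h3 => ?_
  apply parity q (4 * (2 * y + x + 1))
  rw [← norm_pow, e1, ← hM]
  have e : ((M : ℚ_[q]) * t) ^ 3 + 41 * M * (M * t) ^ 2 + 400 * M ^ 2 * (M * t) =
    M ^ 3 * (t ^ 3 + 41 * t ^ 2 + 400 * t) := by ring
  rw [e, norm_mul, h3, mul_one, norm_pow]

include hM4 hq2 hM in
/-- the point of order two that corresponds to the root `r` -/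
theorem Tex (hE0 : S_E0) {r : ℚ_[q]} (hr : r ^ 3 + 41 * r ^ 2 + 400 * r = 0)
    (hr1 : ‖r‖ ≤ 1) (hr' : ‖3 * r ^ 2 + 82 * r + 400‖ = 1) :
    ∃ T : PtP (WD M) q, T + T = 0 ∧ T ∉ E0 (WD M) q ∧
      (∃ x y h, T = .some x y h ∧ 4 * (x - 3 * M) = M * r) ∧
      ∀ (x y : ℚ_[q]) h (t : ℚ_[q]), 4 * (x - 3 * M) = M * t → ‖t‖ ≤ 1 →
        (‖t - r‖ < 1 → .some x y h + T ∈ E0 (WD M) q) ∧
        (‖t - r‖ = 1 → .some x y h + T ∉ E0 (WD M) q) := by
  have hW := isWD q M hM4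
  have hm0 := M_ne hM
  have hmp := M_pos hM
  have hml := M_lt hM
  have hr0 : 3 * r ^ 2 + 82 * r + 400 ≠ 0 := by
    rw [← norm_pos_iff, hr']
    norm_num
  have hT := hW.nonsing K2 hm0 hr hr0
  have e1 : 2 * (-((M : ℚ_[q]) * r / 4 + 3 * M + 1) / 2) + (M * r / 4 + 3 * M) + 1 = 0 := by
    ring
  have e2 : 4 * (((M : ℚ_[q]) * r / 4 + 3 * M) - 3 * M) = M * r := by
    ring
  set xT := (M : ℚ_[q]) * r / 4 + 3 * M with hxT
  set yT := -(xT + 1) / 2 with hyT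
  have hTs : SingRed (WD M) q xT yT := by
    apply sing_of hM4 hq2 hM hT.1
    rw [e2]
    exact lmul' hml hr1
  refine ⟨.some xT yT hT, hW.two_tors hT e1, ?_, ⟨xT, yT, hT, rfl, e2⟩, ?_⟩
  · intro h
    exact (hE0 (WD M) q _).1 h xT yT hT rfl hTs
  · intro x y hP t ht ht1
    rcases eq_or_ne x xT with hx | hx
    · have htr : t = r := by
        apply mul_left_cancel₀ hm0
        rw [← ht, ← e2, hx]
      constructor
      · intro _
        subst hx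
        have := hW.eq_of_x K2 hT e1 hP
        subst this
        rw [hW.two_tors hT e1]
        exact AddSubgroup.zero_mem _
      · intro h
        rw [htr, sub_self, norm_zero] at h
        norm_num at h
    · obtain ⟨x3, y3, h3, e3, e4⟩ := hW.add_T hP hT e1 hx K2
      rw [e3]
      rw [ht, e2] at e4
      have htr0 : t - r ≠ 0 := by
        intro h
        apply hx
        have : (4 : ℚ_[q]) * (x - 3 * M) = 4 * (xT - 3 * M) := by rw [ht, e2, sub_eq_zero.1 h]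
        have h4 : (4 : ℚ_[q]) ≠ 0 := by norm_num
        have := mul_left_cancel₀ h4 this
        linear_combination this
      have e5 : (4 * (x3 - 3 * M) - M * r) * (t - r) = M * (3 * r ^ 2 + 82 * r + 400) := by
        apply mul_left_cancel₀ hm0
        linear_combination e4
      have e6 : ‖4 * (x3 - 3 * M) - M * r‖ * ‖t - r‖ = (q : ℝ)⁻¹ := by
        rw [← norm_mul, e5, norm_mul, hr', mul_one, hM]
      constructor
      · intro h
        apply AddSubgroup.subset_closure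
        intro x' y' h' he
        obtain ⟨rfl, rfl⟩ := Affine.Point.some.inj he
        intro hs
        have h5 := of_sing hM4 hq2 hM h3.1 hs
        have h6 : ‖4 * (x3 - 3 * M) - M * r‖ < 1 := lsub h5 (lmul' hml hr1)
        have h7 := norm_le_inv q h
        have h8 : 0 < ‖t - r‖ := norm_pos_iff.2 htr0
        have h9 : ‖4 * (x3 - 3 * M) - M * r‖ * ‖t - r‖ < 1 * ‖t - r‖ :=
          mul_lt_mul_of_pos_right h6 h8
        rw [e6, one_mul] at h9
        exact absurd h7 (not_le.2 h9)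
      · intro h h'
        rw [h, mul_one, ← hM] at e6
        apply (hE0 (WD M) q _).1 h' x3 y3 h3 rfl
        apply sing_of hM4 hq2 hM h3.1
        have : 4 * (x3 - 3 * (M : ℚ_[q])) = (4 * (x3 - 3 * M) - M * r) + M * r := by ring
        rw [this]
        exact ladd (by rw [e6]; exact hml) (lmul' hml hr1)

end

end Pool.Agent.H757_X15.EE.Tq

namespace Pool.Agent.H757_X15.EE

open scoped Classical
open Pool.Agent.Y700 (PtP E0 SingRed S_E0 tam tamProd)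
open Pool.Agent.H757_X15 (WD)
open WeierstrassCurve
open Pool.Agent.Y809.BSD14 (index_of nadd nsub nmul npow nneg ladd lneg lsub lmul lmul' nnat n2 n3
  norm_nat_eq_one norm_two_pow norm_le_inv norm_M parity M_lt M_pos M_ne K2 norm2 norm4 norm16)
open Tq

theorem t_TQ : S_TQ := by
  intro hE0 M q _ hM4 hq2 hq3 hq5 h1 h2
  have hM := norm_M q h1 h2
  have k2 : q.Coprime 2 := (Nat.coprime_primes Fact.out Nat.prime_two).2 hq2
  have k3 : q.Coprime 3 := (Nat.coprime_primes Fact.out Nat.prime_three).2 hq3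
  have k5 : q.Coprime 5 := (Nat.coprime_primes Fact.out Nat.prime_five).2 hq5
  have N : ∀ a b c : ℕ, ‖((2 ^ a * 3 ^ b * 5 ^ c : ℕ) : ℚ_[q])‖ = 1 := by
    intro a b c
    apply norm_nat_eq_one
    exact Nat.Coprime.mul_right (Nat.Coprime.mul_right (k2.pow_right a) (k3.pow_right b))
      (k5.pow_right c)
  have n16 : ‖(16 : ℚ_[q])‖ = 1 := by simpa using N 4 0 0
  have n25 : ‖(25 : ℚ_[q])‖ = 1 := by
    have := N 0 0 2
    norm_num at this
    exact this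
  have n9 : ‖(9 : ℚ_[q])‖ = 1 := by
    have := N 0 2 0
    norm_num at this
    exact this
  have n400 : ‖(400 : ℚ_[q])‖ = 1 := by
    have := N 4 0 2
    norm_num at this
    exact this
  have n144 : ‖(144 : ℚ_[q])‖ = 1 := by
    have := N 4 2 0
    norm_num at this
    exact this
  have n225 : ‖(225 : ℚ_[q])‖ = 1 := by
    have := N 0 2 2
    norm_num at this
    exact this
  obtain ⟨r1, hr1⟩ : ∃ r : ℚ_[q], r = -16 := ⟨_, rfl⟩
  obtain ⟨r2, hr2⟩ : ∃ r : ℚ_[q], r = -25 := ⟨_, rfl⟩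
  have j1 : ‖r1‖ = 1 := by rw [hr1, norm_neg, n16]
  have j2 : ‖r2‖ = 1 := by rw [hr2, norm_neg, n25]
  have nd : ‖r1 - r2‖ = 1 := by
    have : r1 - r2 = 9 := by rw [hr1, hr2]; norm_num
    rw [this, n9]
  have q0 : (0 : ℚ_[q]) ^ 3 + 41 * 0 ^ 2 + 400 * 0 = 0 := by norm_num
  have q1 : r1 ^ 3 + 41 * r1 ^ 2 + 400 * r1 = 0 := by rw [hr1]; norm_num
  have q2 : r2 ^ 3 + 41 * r2 ^ 2 + 400 * r2 = 0 := by rw [hr2]; norm_num
  have p0 : ‖3 * (0 : ℚ_[q]) ^ 2 + 82 * 0 + 400‖ = 1 := by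
    have : 3 * (0 : ℚ_[q]) ^ 2 + 82 * 0 + 400 = 400 := by norm_num
    rw [this, n400]
  have p1 : ‖3 * r1 ^ 2 + 82 * r1 + 400‖ = 1 := by
    have : 3 * r1 ^ 2 + 82 * r1 + 400 = -144 := by rw [hr1]; norm_num
    rw [this, norm_neg, n144]
  have p2 : ‖3 * r2 ^ 2 + 82 * r2 + 400‖ = 1 := by
    have : 3 * r2 ^ 2 + 82 * r2 + 400 = 225 := by rw [hr2]; norm_num
    rw [this, n225]
  obtain ⟨T0, a0, b0, ⟨x0, y0, g0, c0, d0⟩, e0⟩ :=
    Tex hM4 hq2 hM hE0 q0 (by rw [norm_zero]; norm_num) p0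
  obtain ⟨T1, a1, b1, ⟨x1, y1, g1, c1, d1⟩, e1⟩ := Tex hM4 hq2 hM hE0 q1 j1.le p1
  obtain ⟨T2, a2, b2, ⟨x2, y2, g2, c2, d2⟩, e2⟩ := Tex hM4 hq2 hM hE0 q2 j2.le p2
  have m01 : T0 + T1 ∉ E0 (WD M) q := by
    rw [c0]
    refine (e1 x0 y0 g0 0 d0 (by rw [norm_zero]; norm_num)).2 ?_
    rw [zero_sub, norm_neg, j1]
  have m02 : T0 + T2 ∉ E0 (WD M) q := by
    rw [c0]
    refine (e2 x0 y0 g0 0 d0 (by rw [norm_zero]; norm_num)).2 ?_
    rw [zero_sub, norm_neg, j2]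
  have m12 : T1 + T2 ∉ E0 (WD M) q := by
    rw [c1]
    exact (e2 x1 y1 g1 r1 d1 j1.le).2 nd
  have m10 : T1 + T0 ∉ E0 (WD M) q := by rwa [add_comm]
  have m20 : T2 + T0 ∉ E0 (WD M) q := by rwa [add_comm]
  have m21 : T2 + T1 ∉ E0 (WD M) q := by rwa [add_comm]
  rw [tam]
  apply index_of (E0 (WD M) q) ![0, T0, T1, T2]
  · intro i
    fin_cases i
    · exact add_zero _
    · exact a0
    · exact a1
    · exact a2
  · intro P
    by_cases hP : P ∈ E0 (WD M) q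
    · exact ⟨0, by simpa using hP⟩
    rw [hE0] at hP
    push Not at hP
    obtain ⟨x, y, h, rfl, hs'⟩ := hP
    obtain ⟨t, ht, ht1, ht2⟩ := par_of_sing hM4 hq2 hM h.1 hs'
    have hor : ‖t - 0‖ < 1 ∨ ‖t - r1‖ < 1 ∨ ‖t - r2‖ < 1 := by
      by_contra hcon
      rw [not_or, not_or, not_lt, not_lt, not_lt] at hcon
      obtain ⟨g3, g4, g5⟩ := hcon
      have : t ^ 3 + 41 * t ^ 2 + 400 * t = (t - 0) * ((t - r1) * (t - r2)) := by
        rw [hr1, hr2]
        ring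
      rw [this, norm_mul, norm_mul] at ht2
      have h5 : 1 ≤ ‖t - r1‖ * ‖t - r2‖ := one_le_mul_of_one_le_of_one_le g4 g5
      have h6 := one_le_mul_of_one_le_of_one_le g3 h5
      linarith
    rcases hor with h3 | h3 | h3
    · exact ⟨1, (e0 x y h t ht ht1).1 h3⟩
    · exact ⟨2, (e1 x y h t ht ht1).1 h3⟩
    · exact ⟨3, (e2 x y h t ht ht1).1 h3⟩
  · intro i j hij
    fin_cases i <;> fin_cases j <;> first | rfl | (exfalso; simp at hij; first | exact b0 hij | exact b1 hij | exact b2 hij | exact m01 hij | exact m02 hij | exact m12 hij | exact m10 hij | exact m20 hij | exact m21 hij)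

theorem Delta_WD (k : ℤ) : (WD (4 * k + 1)).Δ = 15 ^ 4 * (4 * k + 1) ^ 6 := by
  have h1 : (5 * (4 * k + 1) - 1) / 4 = 5 * k + 1 := by omega
  have h2 : (19 * (4 * k + 1) ^ 2 + 1) / 2 = 152 * k ^ 2 + 76 * k + 10 := by
    have : 19 * (4 * k + 1) ^ 2 + 1 = (152 * k ^ 2 + 76 * k + 10) * 2 := by ring
    rw [this, Int.mul_ediv_cancel _ (by norm_num)]
  have h3 : (39 * (4 * k + 1) ^ 3 + 1) / 4 = 624 * k ^ 3 + 468 * k ^ 2 + 117 * k + 10 := by
    have : 39 * (4 * k + 1) ^ 3 + 1 = (624 * k ^ 3 + 468 * k ^ 2 + 117 * k + 10) * 4 := by ring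
    rw [this, Int.mul_ediv_cancel _ (by norm_num)]
  rw [WD, h1, h2, h3]
  simp only [WeierstrassCurve.Δ, WeierstrassCurve.b₂, WeierstrassCurve.b₄, WeierstrassCurve.b₆,
    WeierstrassCurve.b₈]
  ring

theorem t_TAM : S_TAM := by
  intro hE0 h3 h5 hq D hsq hD
  have hD' : D % 60 = 1 ∨ D % 60 = 49 := hD
  have hD0 : D ≠ 0 := by omega
  have m4 : (D : ℤ) % 4 = 1 := by omega
  have m3 : (D : ℤ) % 3 = 1 := by omega
  have m5 : (D : ℤ) % 5 = 1 ∨ (D : ℤ) % 5 = 4 := by omega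
  have hΔ : (WD (D : ℤ)).Δ = ((15 ^ 4 * D ^ 6 : ℕ) : ℤ) := by
    obtain ⟨k, hk⟩ : ∃ k : ℤ, (D : ℤ) = 4 * k + 1 := ⟨(D : ℤ) / 4, by omega⟩
    rw [hk, Delta_WD, ← hk]
    push_cast
    ring
  have hpf : (WD (D : ℤ)).Δ.natAbs.primeFactors = {3, 5} ∪ D.primeFactors := by
    rw [hΔ, Int.natAbs_natCast, Nat.primeFactors_mul (by norm_num) (pow_ne_zero 6 hD0),
      Nat.primeFactors_pow _ (by norm_num), Nat.primeFactors_pow _ (by norm_num)]
    congr 1
    rw [show (15 : ℕ) = 3 * 5 by norm_num, Nat.primeFactors_mul (by norm_num) (by norm_num),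
      Nat.prime_three.primeFactors, Nat.prime_five.primeFactors]
    rfl
  set F : ℕ → ℕ := fun l => if h : l.Prime then (haveI := Fact.mk h; tam (WD (D : ℤ)) l) else 1
    with hF
  have hF' : ∀ l : ℕ, ∀ (h : Fact l.Prime), F l = tam (WD (D : ℤ)) l := by
    intro l h
    simp only [hF]
    rw [dif_pos h.out]
  have e : tamProd (WD (D : ℤ)) = ∏ l ∈ (WD (D : ℤ)).Δ.natAbs.primeFactors, F l := by
    unfold tamProd
    refine Finset.prod_congr rfl fun l _ => ?_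
    simp only [hF]
  have hdisj : Disjoint ({3, 5} : Finset ℕ) D.primeFactors := by
    rw [Finset.disjoint_left]
    intro l hl hl'
    simp only [Finset.mem_insert, Finset.mem_singleton] at hl
    have := Nat.dvd_of_mem_primeFactors hl'
    rcases hl with rfl | rfl <;> omega
  have hq4 : ∀ l ∈ D.primeFactors, F l = 4 := by
    intro l hl
    have hlp := Nat.prime_of_mem_primeFactors hl
    have hld := Nat.dvd_of_mem_primeFactors hl
    haveI := Fact.mk hlp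
    rw [hF' l ⟨hlp⟩]
    refine hq hE0 (D : ℤ) l m4 ?_ ?_ ?_ (Int.natCast_dvd_natCast.2 hld) ?_
    · rintro rfl
      omega
    · rintro rfl
      omega
    · rintro rfl
      omega
    · intro hd
      have h1 : l ^ 2 ∣ D := by exact_mod_cast hd
      have h2 := hsq l (by rwa [sq] at h1)
      exact hlp.one_lt.ne' (Nat.isUnit_iff.1 h2)
  rw [e, hpf, Finset.prod_union hdisj, Finset.prod_pair (by norm_num), hF' 3 ⟨Nat.prime_three⟩,
    hF' 5 ⟨Nat.prime_five⟩, h3 hE0 _ _ m4 m3, h5 hE0 _ _ m4 m5, Finset.prod_congr rfl hq4,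
    Finset.prod_const, pow_add, pow_mul]
  norm_num
  ring

end Pool.Agent.H757_X15.EE
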