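import Pool.Agent.H757_X15.ES.Sh
import Pool.Agent.Y668.CP
import Pool.Agent.Z932.Z702.Trn

/-!
# X15-E4: full two-torsion, no point of order four

General facts on `y² = x (x - e1) (x - e2)` with `e1`, `e2`, `-e1` not squares, and `S_TOR4`.
-/

set_option autoImplicit false

namespace Pool.Agent.H757_X15.EE.T4

open WeierstrassCurve

open Pool.Agent.Y668 (Wt)

/-- a finite commutative group with exactly three elements of order two, none of which is halved -/
theorem four_part {G : Type*} [AddCommGroup G] [Finite G] {A B C : G} (hA : A + A = 0)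
    (hB : B + B = 0) (hC : C + C = 0) (A0 : A ≠ 0) (B0 : B ≠ 0) (C0 : C ≠ 0) (hAB : A ≠ B)
    (hAC : A ≠ C) (hBC : B ≠ C) (huniq : ∀ x : G, x + x = 0 → x = 0 ∨ x = A ∨ x = B ∨ x = C)
    (nA : ∀ x : G, x + x ≠ A) (nB : ∀ x : G, x + x ≠ B) (nC : ∀ x : G, x + x ≠ C) :
    ∃ k, Odd k ∧ Nat.card G = 4 * k := by
  classical
  let D : G →+ G :=
    { toFun := fun x => x + x, map_zero' := add_zero 0, map_add' := fun x y => by abel }
  have e2 : Nat.card G = Nat.card D.range * Nat.card D.ker := by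
    rw [AddSubgroup.card_eq_card_quotient_mul_card_addSubgroup D.ker]
    congr 1
    exact Nat.card_congr (QuotientAddGroup.quotientKerEquivRange D).toEquiv
  have hker : Nat.card D.ker = 4 := by
    have : (D.ker : Set G) = (({0, A, B, C} : Finset G) : Set G) := by
      ext x
      simp only [SetLike.mem_coe, AddMonoidHom.mem_ker, Finset.mem_insert,
        Finset.mem_singleton]
      constructor
      · exact huniq x
      · rintro (rfl | rfl | rfl | rfl)
        · exact add_zero 0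
        · exact hA
        · exact hB
        · exact hC
    have h2 : Nat.card (D.ker : Set G) = 4 := by
      rw [this, Nat.card_coe_set_eq, Set.ncard_coe_finset, Finset.card_insert_of_notMem,
        Finset.card_insert_of_notMem, Finset.card_insert_of_notMem, Finset.card_singleton]
      · simpa using hBC
      · simp only [Finset.mem_insert, Finset.mem_singleton, not_or]
        exact ⟨hAB, hAC⟩
      · simp only [Finset.mem_insert, Finset.mem_singleton, not_or]
        exact ⟨A0.symm, B0.symm, C0.symm⟩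
    exact h2
  have hodd : Odd (Nat.card D.range) := by
    rw [← Nat.not_even_iff_odd]
    intro hev
    have : Fact (Nat.Prime 2) := ⟨Nat.prime_two⟩
    obtain ⟨x, hx⟩ := exists_prime_addOrderOf_dvd_card' (G := D.range) 2 hev.two_dvd
    have hx0 : x ≠ 0 := by
      rintro rfl
      rw [addOrderOf_zero] at hx
      omega
    have hx2 : x + x = 0 := by
      have h3 := addOrderOf_nsmul_eq_zero x
      rw [hx, two_nsmul] at h3
      exact h3
    have hx2' : (x : G) + (x : G) = 0 := by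
      have := congrArg (fun y : D.range => (y : G)) hx2
      simpa using this
    obtain ⟨y, hy⟩ := x.2
    have hy' : y + y = (x : G) := hy
    rcases huniq _ hx2' with h | h | h | h
    · exact hx0 (Subtype.ext h)
    · exact nA y (hy'.trans h)
    · exact nB y (hy'.trans h)
    · exact nC y (hy'.trans h)
  exact ⟨_, hodd, by rw [e2, hker, mul_comm]⟩

/-- the first coordinate of twice a point -/
lemma dbl {a b u v X Y : ℚ} (hn : (Wt a b).toAffine.Nonsingular u v)
    (hm : (Wt a b).toAffine.Nonsingular X Y)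
    (h : (Affine.Point.some u v hn : (Wt a b).toAffine.Point) + .some u v hn = .some X Y hm) :
    v ≠ 0 ∧ v ^ 2 = u ^ 3 + a * u ^ 2 + b * u ∧ X = ((u ^ 2 - b) / (2 * v)) ^ 2 := by
  have he : v ^ 2 = u ^ 3 + a * u ^ 2 + b * u := by
    have := hn.1
    rw [Affine.equation_iff] at this
    have h' : v ^ 2 + 0 * u * v + 0 * v = u ^ 3 + a * u ^ 2 + b * u + 0 := this
    linear_combination h'
  have hv : v ≠ 0 := by
    intro hv0
    have h0 : (Affine.Point.some u v hn : (Wt a b).toAffine.Point) + .some u v hn = 0 := by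
      apply Affine.Point.add_self_of_Y_eq
      show v = -v - 0 * u - 0
      rw [hv0]; ring
    rw [h0] at h
    exact Affine.Point.some_ne_zero _ h.symm
  refine ⟨hv, he, ?_⟩
  have hY : v ≠ (Wt a b).toAffine.negY u v := by
    show v ≠ -v - 0 * u - 0
    intro h; apply hv; linarith
  rw [Affine.Point.add_self_of_Y_ne hY, Affine.Point.some.injEq] at h
  obtain ⟨hx1, -⟩ := h
  rw [Affine.slope_of_Y_ne rfl hY] at hx1
  have hx2 : ((3 * u ^ 2 + 2 * a * u + b - 0 * v) / (v - (-v - 0 * u - 0))) ^ 2 +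
    0 * ((3 * u ^ 2 + 2 * a * u + b - 0 * v) / (v - (-v - 0 * u - 0))) - a - u - u = X := hx1
  rw [← hx2]
  have e0 : v - (-v - 0 * u - 0) = 2 * v := by ring
  rw [e0]
  have hv2 : (2 * v) ≠ 0 := mul_ne_zero two_ne_zero hv
  have e4 : (2 * v) ^ 2 ≠ 0 := pow_ne_zero 2 hv2
  rw [div_pow, div_pow, eq_div_iff e4]
  have e5 : (3 * u ^ 2 + 2 * a * u + b - 0 * v) ^ 2 / (2 * v) ^ 2 * (2 * v) ^ 2 =
    (3 * u ^ 2 + 2 * a * u + b - 0 * v) ^ 2 := div_mul_cancel₀ _ e4
  have e6 : ((3 * u ^ 2 + 2 * a * u + b - 0 * v) ^ 2 / (2 * v) ^ 2 +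
    0 * ((3 * u ^ 2 + 2 * a * u + b - 0 * v) / (2 * v)) - a - u - u) * (2 * v) ^ 2 =
    (3 * u ^ 2 + 2 * a * u + b - 0 * v) ^ 2 / (2 * v) ^ 2 * (2 * v) ^ 2 -
      (a + 2 * u) * (4 * v ^ 2) := by ring
  rw [e6, e5, he]
  ring

section

variable {a b e1 e2 : ℚ}

/-- the points of order two are not halved -/
lemma no_half (ha : a = -(e1 + e2)) (hb : b = e1 * e2) (he1 : e1 ≠ 0) (he2 : e2 ≠ 0)
    (s1 : ¬ IsSquare e1) (s2 : ¬ IsSquare e2) (s3 : ¬ IsSquare (-e1)) {X Y : ℚ}
    (hX : X = 0 ∨ X = e1 ∨ X = e2) (hm : (Wt a b).toAffine.Nonsingular X Y)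
    (P : (Wt a b).toAffine.Point) : P + P ≠ .some X Y hm := by
  intro h
  rcases P with _ | ⟨u, v, hn⟩
  · exact Affine.Point.some_ne_zero hm (h.symm.trans (add_zero _))
  · obtain ⟨hv, he, hx⟩ := dbl hn hm h
    have hv2 : (2 * v) ≠ 0 := mul_ne_zero two_ne_zero hv
    rcases hX with h0 | h0 | h0
    · rw [h0] at hx
      have h1 : (u ^ 2 - b) / (2 * v) = 0 := pow_eq_zero_iff two_ne_zero |>.1 hx.symm
      have h2 : u ^ 2 = b := by
        rcases div_eq_zero_iff.1 h1 with h3 | h3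
        · linarith
        · exact absurd h3 hv2
      have hu : u ≠ 0 := by
        rintro rfl
        apply mul_ne_zero he1 he2
        rw [← hb, ← h2]
        ring
      apply s3
      refine ⟨(u - e1) * u / v, ?_⟩
      have e : (u - e1) * u / v * ((u - e1) * u / v) = ((u - e1) * u) ^ 2 / v ^ 2 := by
        field_simp
      rw [e, eq_div_iff (pow_ne_zero 2 hv), he, ha]
      have h3 : u ^ 2 = e1 * e2 := by rw [h2, hb]
      have h4 : b = u ^ 2 := h2.symm
      rw [h4]
      linear_combination (-(u ^ 2)) * h3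
    · apply s1
      refine ⟨(u ^ 2 - b) / (2 * v), ?_⟩
      rw [← h0, hx]
      ring
    · apply s2
      refine ⟨(u ^ 2 - b) / (2 * v), ?_⟩
      rw [← h0, hx]
      ring

/-- the points of order two -/
lemma two_tors (ha : a = -(e1 + e2)) (hb : b = e1 * e2) (P : (Wt a b).toAffine.Point)
    (hP : P + P = 0) : P = 0 ∨ ∃ (X : ℚ) (hm : (Wt a b).toAffine.Nonsingular X 0),
      (X = 0 ∨ X = e1 ∨ X = e2) ∧ P = .some X 0 hm := by
  have h1 : P = -P := by
    rw [← add_eq_zero_iff_eq_neg]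
    exact hP
  cases P with
  | zero => exact Or.inl rfl
  | some x y h =>
    right
    rw [Affine.Point.neg_some, Affine.Point.some.injEq] at h1
    have h2 := h1.2
    have hy : y = 0 := by
      simp only [Affine.negY, Wt] at h2
      linarith
    subst hy
    refine ⟨x, h, ?_, rfl⟩
    have he : (0 : ℚ) ^ 2 = x ^ 3 + a * x ^ 2 + b * x := by
      have := h.1
      rw [Affine.equation_iff] at this
      have h' : (0 : ℚ) ^ 2 + 0 * x * 0 + 0 * 0 = x ^ 3 + a * x ^ 2 + b * x + 0 := this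
      linear_combination h'
    rw [ha, hb] at he
    have h3 : x * ((x - e1) * (x - e2)) = 0 := by linear_combination -he
    rcases mul_eq_zero.1 h3 with h4 | h4
    · exact Or.inl h4
    · rcases mul_eq_zero.1 h4 with h5 | h5
      · exact Or.inr (Or.inl (by linarith))
      · exact Or.inr (Or.inr (by linarith))

/-- the points `(0, 0)`, `(e1, 0)`, `(e2, 0)` -/
lemma ns_two (ha : a = -(e1 + e2)) (hb : b = e1 * e2) (he1 : e1 ≠ 0) (he2 : e2 ≠ 0)
    (h12 : e1 ≠ e2) {X : ℚ} (hX : X = 0 ∨ X = e1 ∨ X = e2) :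
    (Wt a b).toAffine.Nonsingular X 0 := by
  rw [Affine.nonsingular_iff]
  refine ⟨?_, Or.inl ?_⟩
  · rw [Affine.equation_iff]
    show (0 : ℚ) ^ 2 + 0 * X * 0 + 0 * 0 = X ^ 3 + a * X ^ 2 + b * X + 0
    rw [ha, hb]
    rcases hX with rfl | rfl | rfl <;> ring
  · show (0 : ℚ) * 0 ≠ 3 * X ^ 2 + 2 * a * X + b
    rw [ha, hb]
    have h12' : e1 - e2 ≠ 0 := sub_ne_zero.2 h12
    rcases hX with rfl | rfl | rfl
    · intro h
      exact mul_ne_zero he1 he2 (by linear_combination -h)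
    · intro h
      exact mul_ne_zero he1 h12' (by linear_combination -h)
    · intro h
      exact mul_ne_zero he2 h12' (by linear_combination h)

lemma two_pt {X : ℚ} (hm : (Wt a b).toAffine.Nonsingular X 0) :
    (Affine.Point.some X 0 hm : (Wt a b).toAffine.Point) + .some X 0 hm = 0 := by
  apply Affine.Point.add_self_of_Y_eq
  show (0 : ℚ) = -0 - 0 * X - 0
  ring

/-- a subgroup of the group of points which contains the points of order two and is finite has order
four times an odd number -/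
theorem card_sub (ha : a = -(e1 + e2)) (hb : b = e1 * e2) (he1 : e1 ≠ 0) (he2 : e2 ≠ 0)
    (h12 : e1 ≠ e2) (s1 : ¬ IsSquare e1) (s2 : ¬ IsSquare e2) (s3 : ¬ IsSquare (-e1))
    (H : AddSubgroup (Wt a b).toAffine.Point) (hH : Finite H)
    (hmem : ∀ P : (Wt a b).toAffine.Point, P + P = 0 → P ∈ H) :
    ∃ k, Odd k ∧ Nat.card H = 4 * k := by
  have n0 := ns_two ha hb he1 he2 h12 (X := 0) (Or.inl rfl)
  have n1 := ns_two ha hb he1 he2 h12 (X := e1) (Or.inr (Or.inl rfl))
  have n2 := ns_two ha hb he1 he2 h12 (X := e2) (Or.inr (Or.inr rfl))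
  refine four_part (G := H) (A := ⟨.some 0 0 n0, hmem _ (two_pt n0)⟩)
    (B := ⟨.some e1 0 n1, hmem _ (two_pt n1)⟩) (C := ⟨.some e2 0 n2, hmem _ (two_pt n2)⟩)
    (Subtype.ext (two_pt n0)) (Subtype.ext (two_pt n1)) (Subtype.ext (two_pt n2)) ?_ ?_ ?_ ?_ ?_ ?_
    ?_ ?_ ?_ ?_
  · intro h
    exact Affine.Point.some_ne_zero _ (congrArg Subtype.val h)
  · intro h
    exact Affine.Point.some_ne_zero _ (congrArg Subtype.val h)
  · intro h
    exact Affine.Point.some_ne_zero _ (congrArg Subtype.val h)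
  · intro h
    have h1 := congrArg Subtype.val h
    rw [Affine.Point.some.injEq] at h1
    exact he1 h1.1.symm
  · intro h
    have h1 := congrArg Subtype.val h
    rw [Affine.Point.some.injEq] at h1
    exact he2 h1.1.symm
  · intro h
    have h1 := congrArg Subtype.val h
    rw [Affine.Point.some.injEq] at h1
    exact h12 h1.1
  · rintro ⟨x, hx⟩ h
    rcases two_tors ha hb x (congrArg Subtype.val h) with h1 | ⟨X, hm, hX, h1⟩
    · exact Or.inl (Subtype.ext h1)
    · right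
      rcases hX with rfl | rfl | rfl
      · exact Or.inl (Subtype.ext h1)
      · exact Or.inr (Or.inl (Subtype.ext h1))
      · exact Or.inr (Or.inr (Subtype.ext h1))
  · rintro ⟨x, hx⟩ h
    exact no_half ha hb he1 he2 s1 s2 s3 (Or.inl rfl) n0 x (congrArg Subtype.val h)
  · rintro ⟨x, hx⟩ h
    exact no_half ha hb he1 he2 s1 s2 s3 (Or.inr (Or.inl rfl)) n1 x (congrArg Subtype.val h)
  · rintro ⟨x, hx⟩ h
    exact no_half ha hb he1 he2 s1 s2 s3 (Or.inr (Or.inr rfl)) n2 x (congrArg Subtype.val h)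

/-- the torsion subgroup has order four times an odd number -/
theorem card_tors (hfg : AddGroup.FG (Wt a b).toAffine.Point) (ha : a = -(e1 + e2))
    (hb : b = e1 * e2) (he1 : e1 ≠ 0) (he2 : e2 ≠ 0)
    (h12 : e1 ≠ e2) (s1 : ¬ IsSquare e1) (s2 : ¬ IsSquare e2) (s3 : ¬ IsSquare (-e1)) :
    ∃ k, Odd k ∧ Nat.card (AddCommGroup.torsion (Wt a b).toAffine.Point) = 4 * k := by
  have hfin : Finite (AddCommGroup.torsion (Wt a b).toAffine.Point) := by
    have hmf : Module.Finite ℤ (Wt a b).toAffine.Point := Module.Finite.iff_addGroup_fg.2 hfg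
    have hsub : AddGroup.FG (AddCommGroup.torsion (Wt a b).toAffine.Point) := by
      rw [← Module.Finite.iff_addGroup_fg]
      have h6 : Module.Finite ℤ
          (AddSubgroup.toIntSubmodule (AddCommGroup.torsion (Wt a b).toAffine.Point)) :=
        inferInstance
      exact h6
    have htor : IsAddTorsion (AddCommGroup.torsion (Wt a b).toAffine.Point) := by
      intro x
      have hx := x.2
      rw [AddCommGroup.mem_torsion, isOfFinAddOrder_iff_nsmul_eq_zero] at hx
      obtain ⟨n, hn, hx⟩ := hx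
      rw [isOfFinAddOrder_iff_nsmul_eq_zero]
      exact ⟨n, hn, Subtype.ext (by simpa using hx)⟩
    exact AddCommGroup.finite_of_fg_isAddTorsion _ htor
  refine card_sub ha hb he1 he2 h12 s1 s2 s3 _ hfin ?_
  intro P hP
  change IsOfFinAddOrder P
  rw [isOfFinAddOrder_iff_nsmul_eq_zero]
  exact ⟨2, by norm_num, by rw [two_nsmul, hP]⟩

end

/-! ### the curve -/

lemma four_of_Fm {D : ℕ} (h : Pool.Agent.H757_X15.DD.Fm D) : (D : ℤ) % 4 = 1 := by
  rcases h with h | h <;> omega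

lemma not_sq_D {D : ℕ} (hD : Squarefree D) (h1 : D ≠ 1) (n : ℤ) (hn : n ≠ 0) :
    ¬ IsSquare ((n : ℚ) ^ 2 * (D : ℚ)) := by
  have e : (n : ℚ) ^ 2 * (D : ℚ) = ((n ^ 2 * (D : ℤ) : ℤ) : ℚ) := by push_cast; ring
  rw [e, Rat.isSquare_intCast_iff]
  rintro ⟨r, hr⟩
  have h2 : n ∣ r := by
    have : n ^ 2 ∣ r ^ 2 := ⟨(D : ℤ), by rw [sq r, ← hr]⟩
    exact (Int.pow_dvd_pow_iff two_ne_zero).1 this
  obtain ⟨t, rfl⟩ := h2
  have h3 : (D : ℤ) = t * t := by
    apply mul_left_cancel₀ (pow_ne_zero 2 hn)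
    rw [hr]
    ring
  have h4 : D = t.natAbs * t.natAbs := by
    have := congrArg Int.natAbs h3
    rw [Int.natAbs_mul] at this
    simpa using this
  have h5 := hD t.natAbs (by rw [← h4])
  rw [Nat.isUnit_iff] at h5
  rw [h5] at h4
  exact h1 h4

lemma delta_EQ {M : ℤ} (hM : M % 4 = 1) : (Pool.Agent.Y700.EQ (Pool.Agent.H757_X15.WD M)).Δ ≠ 0 := by
  intro h6
  have h7 := (vr_WD hM).delta
  rw [h6, mul_zero] at h7
  have hM0 : (M : ℚ) ≠ 0 := by
    have : M ≠ 0 := by rintro rfl; norm_num at hM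
    exact_mod_cast this
  have h8 : (Pool.Agent.Z702.WZ (-34 * M) (225 * M ^ 2)).Δ = 16 * (225 * (M : ℚ) ^ 2) ^ 2 *
      (256 * (M : ℚ) ^ 2) := by
    simp only [WeierstrassCurve.Δ, WeierstrassCurve.b₂, WeierstrassCurve.b₄,
      WeierstrassCurve.b₆, WeierstrassCurve.b₈, Pool.Agent.Z702.WZ, Wt]
    push_cast
    ring
  rw [h8] at h7
  have : 16 * (225 * (M : ℚ) ^ 2) ^ 2 * (256 * (M : ℚ) ^ 2) ≠ 0 := by positivity
  exact this h7

/-- TOR4 from TRN -/
theorem tor4 (hT : Pool.Agent.Z702.S_TRN) : S_TOR4 := by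
  intro D hD hF h1
  have h4 := four_of_Fm hF
  have hD0 : (D : ℚ) ≠ 0 := by exact_mod_cast hD.ne_zero
  have hDp : (0 : ℚ) < D := lt_of_le_of_ne (Nat.cast_nonneg D) hD0.symm
  have ha : ((-34 * (D : ℤ) : ℤ) : ℚ) = -(25 * (D : ℚ) + 9 * (D : ℚ)) := by push_cast; ring
  have hb : ((225 * (D : ℤ) ^ 2 : ℤ) : ℚ) = 25 * (D : ℚ) * (9 * (D : ℚ)) := by push_cast; ring
  have hb0 : ((225 * (D : ℤ) ^ 2 : ℤ) : ℚ) ≠ 0 := by rw [hb]; positivity
  have hab : ((-34 * (D : ℤ) : ℤ) : ℚ) ^ 2 - 4 * ((225 * (D : ℤ) ^ 2 : ℤ) : ℚ) ≠ 0 := by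
    have e : ((-34 * (D : ℤ) : ℤ) : ℚ) ^ 2 - 4 * ((225 * (D : ℤ) ^ 2 : ℤ) : ℚ) =
      256 * (D : ℚ) ^ 2 := by push_cast; ring
    rw [e]
    positivity
  have s1 : ¬ IsSquare (25 * (D : ℚ)) := by
    have := not_sq_D hD h1 5 (by norm_num)
    norm_num at this
    exact this
  have s2 : ¬ IsSquare (9 * (D : ℚ)) := by
    have := not_sq_D hD h1 3 (by norm_num)
    norm_num at this
    exact this
  have s3 : ¬ IsSquare (-(25 * (D : ℚ))) := by
    intro h
    have := h.nonneg
    linarith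
  obtain ⟨k, hk, hc⟩ := card_tors (Pool.Agent.Y668.fg_Wt hb0 hab) ha hb (by positivity)
    (by positivity) (by intro h; apply hD0; linarith) s1 s2 s3
  refine ⟨k, hk, ?_⟩
  rw [← hc]
  exact (hT _ _ _ _ _ _ (vr_WD h4) (delta_EQ h4)).2.2.symm

end Pool.Agent.H757_X15.EE.T4

namespace Pool.Agent.H757_X15.EE

/-- E4 (TOR4) -/
theorem t_TOR4 : S_TOR4 := T4.tor4 Pool.Agent.Z932.Z702.t_TRN

end Pool.Agent.H757_X15.EE
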