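import Pool.Agent.H757_X15.ES.AlgA
import Pool.Agent.H757_X15.ES.CNT4
import Pool.Agent.H757_X15.ES.Card
import Pool.Agent.H757_X15.ES.Conv
import Pool.Agent.H757_X15.ES.Dens
import Pool.Agent.H757_X15.ES.FullA
import Pool.Agent.H757_X15.ES.LOCE
import Pool.Agent.H757_X15.ES.LocG
import Pool.Agent.H757_X15.ES.Rank
import Pool.Agent.H757_X15.ES.SelB
import Pool.Agent.H757_X15.ES.Sela
import Pool.Agent.H757_X15.ES.Sh
import Pool.Agent.H757_X15.ES.T3
import Pool.Agent.H757_X15.ES.T5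
import Pool.Agent.H757_X15.ES.TQ
import Pool.Agent.H757_X15.ES.Tor4
import Pool.Agent.H757_X15.CS.FinC
import Pool.Agent.H757_X15.BS.FinB
import Pool.Agent.H757_X15.MT.Fin15
import Pool.Agent.H757_X15.MT.Sym15
import Pool.Agent.H757_X15.MT.Lm15
import Pool.Agent.H757_X15.MT.Lfin15
import Pool.Agent.H757_X15.MT.OMEGA
import Pool.Agent.H757_X15.MT.MOD
import Pool.Agent.Z702.Fin
import Pool.Agent.Y809.BSD14.E0

/-!
# Project X15: the final theorems

Everything for the twists of `X_0(15)` by the squarefree `D ≡ 1, 49` modulo `60`, without hypotheses.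
The parts are the work of the helpers named in the headers of the modules `Pool.Agent.H757_X15`.
-/

set_option autoImplicit false

namespace Pool.Agent.H757_X15.EE

open Pool.Agent.H757_X15 (t_SYMB t_VAL t_EUL t_OMEGA t_MOD)
open Pool.Agent.H757_X15.CC (S_MAINC2)
open Pool.Agent.Z702 (f_COC f_LOT f_COB f_LQ f_TRN)

/-- the parity theorem -/
theorem t_MAINC2' : S_MAINC2 := Pool.Agent.H757_X15.CC.t_MAINC2 Pool.Agent.H757_X15.BB.t_BIL

/-- ALG -/
theorem t_ALG : S_ALG := t_ALGA t_SELA t_SELB t_CARD t_CNT4 f_TRN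

/-- everything for a given `D` -/
theorem t_FULL : S_FULL := t_FULLA t_SYMB t_VAL t_MOD t_OMEGA t_MAINC2'
  (t_TAM Pool.Agent.Y809.BSD14.t_E0 t_T3 t_T5 t_TQ) t_ALG t_TOR4
  (t_CONV f_COC f_LOT f_COB t_TORI f_LQ t_LOCG t_LOCE f_TRN)

/-- the rank form -/
theorem t_RANK : S_RANK := t_RANKA t_SYMB t_EUL t_MAINC2' f_TRN t_ALG

end Pool.Agent.H757_X15.EE
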