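import Pool.Agent.H757_X15.ES.Tor4

/-!
# X15-E4: the algebraic side from the Selmer sets
-/

set_option autoImplicit false

namespace Pool.Agent.H757_X15.EE

open WeierstrassCurve

open scoped Classical

open Pool.Agent.Y668 hiding PC
open Pool.Agent.TH841.SH

/-- E4 (ALGA) -/
theorem t_ALGA : S_ALGA := by
  intro sA sB hC hN hT D hD hF h1 hc
  have h4 := T4.four_of_Fm hF
  have hDz : (0 : ℤ) < D := by
    have := hD.ne_zero
    omega
  have hD1 : (D : ℤ) ≠ 1 := by exact_mod_cast h1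
  have hD0 : (D : ℚ) ≠ 0 := by exact_mod_cast hD.ne_zero
  have hDp : (0 : ℚ) < D := lt_of_le_of_ne (Nat.cast_nonneg D) hD0.symm
  obtain ⟨hfin, hcard⟩ := hC (-34 * (D : ℤ)) (225 * (D : ℤ) ^ 2) (by linarith) (by positivity)
    (by
      have e : (-34 * (D : ℤ)) ^ 2 - 4 * (225 * (D : ℤ) ^ 2) = 256 * (D : ℤ) ^ 2 := by ring
      rw [e]
      positivity) {1, (D : ℤ)} {1, -(D : ℤ)} (Set.toFinite _) (Set.toFinite _)
    (fun z hz hz0 hpc => by simpa using sA D hD hF h1 hc z hz hz0 (fun l _ => hpc l))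
    (fun z hz hpc => by simpa using sB D hD hF h1 hc z hz (fun l _ => hpc l))
  have hc4 : Nat.card (selCoc (Wt ((-34 * (D : ℤ) : ℤ) : ℚ) ((225 * (D : ℤ) ^ 2 : ℤ) : ℚ))) ≤ 4 := by
    refine hcard.trans ?_
    rw [Set.ncard_pair (Ne.symm hD1), Set.ncard_pair (by omega)]
  have ha : ((-34 * (D : ℤ) : ℤ) : ℚ) = -(25 * (D : ℚ) + 9 * (D : ℚ)) := by push_cast; ring
  have hb : ((225 * (D : ℤ) ^ 2 : ℤ) : ℚ) = 25 * (D : ℚ) * (9 * (D : ℚ)) := by push_cast; ring
  have s1 : ¬ IsSquare (25 * (D : ℚ)) := by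
    have := T4.not_sq_D hD h1 5 (by norm_num)
    norm_num at this
    exact this
  have s2 : ¬ IsSquare (9 * (D : ℚ)) := by
    have := T4.not_sq_D hD h1 3 (by norm_num)
    norm_num at this
    exact this
  have s3 : ¬ IsSquare (-(25 * (D : ℚ))) := by
    intro h
    have := h.nonneg
    linarith
  obtain ⟨c1, c2, -⟩ := hN _ _ (25 * (D : ℚ)) (9 * (D : ℚ)) ha hb (by positivity)
    (by positivity) (by intro h; apply hD0; linarith) s1 s2 s3 hfin hc4
  obtain ⟨t1, t2, -⟩ := hT _ _ _ _ _ _ (vr_WD h4) (T4.delta_EQ h4)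
  have c3 := t2.1 c1
  refine ⟨?_, t1.1 c2⟩
  intro n
  induction n with
  | zero => intro x hx; simpa using hx
  | succ n ih =>
    intro x hx
    have h5 : 2 • x = 0 := by
      apply ih
      rw [← mul_smul, ← pow_succ]
      exact hx
    exact c3 x (by rw [← two_nsmul]; exact h5)

end Pool.Agent.H757_X15.EE
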