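import Pool.Agent.H757_X15.StmE
import Pool.Agent.H757_X15.ES.Coord
import Pool.Agent.Y809.BSD14.E0

/-!
# The Tamagawa number at `5` is four (split multiplicative reduction of type `I₄`)
-/

set_option autoImplicit false

namespace Pool.Agent.H757_X15.EE.T5

open scoped Classical
open Pool.Agent.Y700 (PtP E0 SingRed S_E0 tam)
open Pool.Agent.H757_X15 (WD)
open Pool.Agent.H757_X15.EE.Co
open Pool.Agent.Y809.BSD14 (nadd nsub nmul npow nneg ladd lsub lneg lmul lmul' norm_eq_of_lt)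
open WeierstrassCurve.Affine (Point)

section five

variable [Fact (Nat.Prime 5)] {k : ℤ}

theorem n5 : ‖(5 : ℚ_[5])‖ = 1 / 5 := by
  have := Padic.norm_p (p := 5)
  simpa using this

theorem n5lt : ‖(5 : ℚ_[5])‖ < 1 := by rw [n5]; norm_num

theorem nint (z : ℤ) (h : ¬ (5 : ℤ) ∣ z) : ‖(z : ℚ_[5])‖ = 1 := by
  refine le_antisymm (Padic.norm_int_le_one z) (not_lt.1 fun h1 => h ?_)
  exact_mod_cast Padic.norm_intCast_lt_one_iff.1 h1

theorem zle (z : ℤ) : ‖(z : ℚ_[5])‖ ≤ 1 := Padic.norm_int_le_one z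

theorem n2' : ‖(2 : ℚ_[5])‖ = 1 := by exact_mod_cast nint 2 (by norm_num)

theorem n4' : ‖(4 : ℚ_[5])‖ = 1 := by exact_mod_cast nint 4 (by norm_num)

theorem n16 : ‖(16 : ℚ_[5])‖ = 1 := by exact_mod_cast nint 16 (by norm_num)

theorem n41 : ‖(41 : ℚ_[5])‖ = 1 := by exact_mod_cast nint 41 (by norm_num)

theorem n3' : ‖(3 : ℚ_[5])‖ ≤ 1 := by exact_mod_cast zle 3

theorem n400 : ‖(400 : ℚ_[5])‖ = 1 / 25 := by
  have : (400 : ℚ_[5]) = 16 * 5 ^ 2 := by norm_num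
  rw [this, norm_mul, norm_pow, n16, n5]; norm_num

theorem lt_le {x : ℚ_[5]} (h : ‖x‖ < 1) : ‖x‖ ≤ 1 / 5 := by
  have := (Padic.norm_lt_pow_iff_norm_le_pow_sub_one x 0).1 (by simpa using h)
  simpa using this

variable (hM : ¬ (5 : ℤ) ∣ 4 * k + 1)

include hM in
theorem nM : ‖(4 * (k : ℚ_[5]) + 1)‖ = 1 := by exact_mod_cast nint (4 * k + 1) hM

include hM in
theorem n400M : ‖400 * (4 * (k : ℚ_[5]) + 1) ^ 2‖ = 1 / 25 := by
  rw [norm_mul, norm_pow, nM hM, n400]; norm_num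

/-- the singular points -/
theorem sing5 (hM : ¬ (5 : ℤ) ∣ 4 * k + 1) {x y : ℚ_[5]}
    (h : ((WD (4 * k + 1)).map (Int.castRingHom ℚ_[5])).toAffine.Nonsingular x y) :
    SingRed (WD (4 * k + 1)) 5 x y ↔ ‖4 * (x - 3 * (4 * k + 1))‖ < 1 := by
  have he := eqn_xy h
  have hm := nM hM
  have h400 : ‖400 * (4 * (k : ℚ_[5]) + 1) ^ 2‖ < 1 := by rw [n400M hM]; norm_num
  set m : ℚ_[5] := 4 * (k : ℚ_[5]) + 1 with hmdef
  set X : ℚ_[5] := 4 * (x - 3 * m) with hX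
  set Y : ℚ_[5] := 4 * (2 * y + x + 1) with hY
  have hYX : Y ^ 2 = X * (X ^ 2 + 41 * m * X + 400 * m ^ 2) := by
    rw [hY, hX, hmdef]
    linear_combination 64 * he
  have hFx : 16 * (y - (3 * x ^ 2 + 2 * (5 * k + 1) * x + -(152 * k ^ 2 + 76 * k + 10))) =
      2 * Y - (3 * X ^ 2 + 82 * m * X + 400 * m ^ 2) := by
    rw [hY, hX, hmdef]
    ring
  have hcoef : SingRed (WD (4 * k + 1)) 5 x y ↔ ‖x‖ ≤ 1 ∧ ‖y‖ ≤ 1 ∧
      ‖y - (3 * x ^ 2 + 2 * (5 * k + 1) * x + -(152 * k ^ 2 + 76 * k + 10))‖ < 1 ∧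
      ‖2 * y + x + 1‖ < 1 := by
    unfold SingRed
    rw [WD_eq]
    simp only
    push_cast
    rw [one_mul, one_mul]
  rw [hcoef]
  have hm3 : ‖3 * m‖ ≤ 1 := nmul n3' hm.le
  constructor
  · rintro ⟨hx, hy, h1, h2⟩
    have hYl : ‖Y‖ < 1 := lmul n4'.le h2
    have hX1 : ‖X‖ ≤ 1 := nmul n4'.le (nsub hx hm3)
    by_contra hcon
    rw [not_lt] at hcon
    have hXe : ‖X‖ = 1 := le_antisymm hX1 hcon
    have h3 : ‖X ^ 2 + 41 * m * X + 400 * m ^ 2‖ < 1 := by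
      have h5 := congrArg norm hYX
      rw [norm_pow, norm_mul X, hXe, one_mul] at h5
      rw [← h5]
      exact pow_lt_one₀ (norm_nonneg _) hYl (by norm_num)
    have h4 : ‖X + 41 * m‖ < 1 := by
      have : ‖X * (X + 41 * m)‖ < 1 := by
        have e : X * (X + 41 * m) = (X ^ 2 + 41 * m * X + 400 * m ^ 2) - 400 * m ^ 2 := by ring
        rw [e]
        exact lsub h3 h400
      rwa [norm_mul, hXe, one_mul] at this
    have h6 : ‖3 * X ^ 2 + 82 * m * X + 400 * m ^ 2‖ < 1 := by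
      have : 3 * X ^ 2 + 82 * m * X + 400 * m ^ 2 = 2 * Y -
          16 * (y - (3 * x ^ 2 + 2 * (5 * k + 1) * x + -(152 * k ^ 2 + 76 * k + 10))) := by
        rw [hFx]; ring
      rw [this]
      exact lsub (lmul n2'.le hYl) (lmul n16.le h1)
    have h7 : ‖X * (41 * m)‖ < 1 := by
      have : X * (41 * m) = (3 * X) * (X + 41 * m) -
          ((3 * X ^ 2 + 82 * m * X + 400 * m ^ 2) - 400 * m ^ 2) := by ring
      rw [this]
      exact lsub (lmul (nmul n3' hX1) h4) (lsub h6 h400)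
    rw [norm_mul X, hXe, one_mul, norm_mul, n41, hm] at h7
    norm_num at h7
  · intro hXl
    have hx : ‖x‖ ≤ 1 := by
      have : x = X / 4 + 3 * m := by rw [hX]; ring
      rw [this]
      exact nadd (by rw [norm_div, n4', div_one]; exact hXl.le) hm3
    have hXi : ‖X ^ 2 + 41 * m * X + 400 * m ^ 2‖ ≤ 1 :=
      nadd (nadd (npow hXl.le 2) (nmul (nmul n41.le hm.le) hXl.le)) h400.le
    have hYl : ‖Y‖ < 1 := by
      have h5 : ‖Y‖ ^ 2 < 1 := by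
        rw [← norm_pow, hYX]
        exact lmul' hXl hXi
      by_contra hcon
      rw [not_lt] at hcon
      have : 1 ≤ ‖Y‖ ^ 2 := one_le_pow₀ hcon
      linarith
    have h2 : ‖2 * y + x + 1‖ < 1 := by
      have h5 : ‖Y‖ = ‖2 * y + x + 1‖ := by rw [hY, norm_mul, n4', one_mul]
      rw [← h5]; exact hYl
    have hy : ‖y‖ ≤ 1 := by
      have : y = ((2 * y + x + 1) - x - 1) / 2 := by ring
      rw [this, norm_div, n2', div_one]
      exact nsub (nsub h2.le hx) (by simp)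
    refine ⟨hx, hy, ?_, h2⟩
    have h5 := congrArg norm hFx
    rw [norm_mul, n16, one_mul] at h5
    rw [h5]
    refine lsub (lmul n2'.le hYl) (ladd (ladd ?_ ?_) h400)
    · rw [pow_two]
      exact lmul n3' (lmul hXl.le hXl)
    · have n82 : ‖(82 : ℚ_[5])‖ ≤ 1 := by exact_mod_cast zle 82
      exact lmul (nmul n82 hm.le) hXl

/-- membership in terms of the coordinates -/
theorem mem5 (hE : S_E0) (hM : ¬ (5 : ℤ) ∣ 4 * k + 1) {P : PtP (WD (4 * k + 1)) 5}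
    {X Y : ℚ_[5]} (hP : At k P X Y) :
    P ∉ E0 (WD (4 * k + 1)) 5 ↔ ‖X‖ < 1 := by
  obtain ⟨x, y, hn, e, rfl, rfl⟩ := hP
  rw [At.sing hE e, not_not, sing5 hM hn]

/-- points outside `E⁰ ∪ (E⁰ + T)` -/
def Good (k : ℤ) (P : PtP (WD (4 * k + 1)) 5) (s : ℚ_[5]) : Prop :=
  ∃ u : ℚ_[5], At k P (5 * u) (5 * (s * u)) ∧ ‖u‖ = 1 ∧ ‖s‖ = 1

theorem trich (hE : S_E0) (hM : ¬ (5 : ℤ) ∣ 4 * k + 1) {T : PtP (WD (4 * k + 1)) 5}
    (hT : At k T 0 0) (P : PtP (WD (4 * k + 1)) 5) :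
    P ∈ E0 (WD (4 * k + 1)) 5 ∨ P + T ∈ E0 (WD (4 * k + 1)) 5 ∨ ∃ s, Good k P s := by
  by_contra hcon
  push Not at hcon
  obtain ⟨h1, h2, h3⟩ := hcon
  have hP0 : P ≠ 0 := fun h0 => h1 (by rw [h0]; exact zero_mem _)
  obtain ⟨X, Y, hP⟩ := exists_at hP0
  have hXl := (mem5 hE hM hP).1 h1
  have hm := nM hM
  have heq := hP.eqn
  by_cases hX0 : X = 0
  · subst hX0
    have hY0 : Y = 0 := by
      have : Y ^ 2 = 0 := by rw [heq]; ring
      exact pow_eq_zero_iff (by norm_num) |>.1 this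
    subst hY0
    apply h2
    rw [hP.ext hT, T_add_T hT]
    exact zero_mem _
  obtain ⟨Y3, hPT⟩ := hP.addT hT hX0
  have hPT8 := (mem5 hE hM hPT).1 h2
  have e2 := n400M hM
  rw [norm_div, e2] at hPT8
  have hXp : 0 < ‖X‖ := norm_pos_iff.2 hX0
  have hX25 : 1 / 25 < ‖X‖ := by
    rwa [div_lt_one hXp] at hPT8
  have hX5 : ‖X‖ ≤ 1 / 5 := lt_le hXl
  have hXn : ‖X‖ = 1 / 5 := by
    refine le_antisymm hX5 (not_lt.1 fun hlt => ?_)
    have h5 := (Padic.norm_lt_pow_iff_norm_le_pow_sub_one X (-1)).1 (by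
      norm_num; exact hlt)
    norm_num at h5
    linarith
  have hs : ‖X ^ 2 + 41 * (4 * (k : ℚ_[5]) + 1) * X + 400 * (4 * k + 1) ^ 2‖ = 1 / 5 := by
    have e1 : ‖41 * (4 * (k : ℚ_[5]) + 1) * X‖ = 1 / 5 := by
      rw [norm_mul, norm_mul, n41, hm, hXn]; ring
    have e3 : ‖X ^ 2‖ < 1 / 5 := by rw [norm_pow, hXn]; norm_num
    have e4 : X ^ 2 + 41 * (4 * (k : ℚ_[5]) + 1) * X + 400 * (4 * k + 1) ^ 2 =
        41 * (4 * k + 1) * X + (X ^ 2 + 400 * (4 * k + 1) ^ 2) := by ring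
    rw [e4, norm_eq_of_lt, e1]
    rw [e1]
    refine lt_of_le_of_lt (IsUltrametricDist.norm_add_le_max _ _) (max_lt e3 ?_)
    rw [e2]; norm_num
  have hYn : ‖Y‖ = 1 / 5 := by
    have : ‖Y‖ ^ 2 = (1 / 5) ^ 2 := by
      rw [← norm_pow, heq, norm_mul, hs, hXn]; ring
    have h0 := norm_nonneg Y
    nlinarith
  have h50 : (5 : ℚ_[5]) ≠ 0 := by norm_num
  apply h3 (Y / X)
  refine ⟨X / 5, ?_, ?_, ?_⟩
  · have e1 : 5 * (X / 5) = X := mul_div_cancel₀ _ h50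
    have e3 : 5 * (Y / X * (X / 5)) = Y := by field_simp
    rw [e1, e3]; exact hP
  · rw [norm_div, hXn, n5]; norm_num
  · rw [norm_div, hXn, hYn]; norm_num

/-- the slope of a good point -/
theorem Good.slope {P : PtP (WD (4 * k + 1)) 5} {u s : ℚ_[5]} (hM : ¬ (5 : ℤ) ∣ 4 * k + 1)
    (h : At k P (5 * u) (5 * (s * u))) (hu : ‖u‖ = 1) : ‖s ^ 2 - (4 * k + 1)‖ < 1 := by
  have hm := nM hM
  have hu0 : u ≠ 0 := by intro h0; rw [h0, norm_zero] at hu; exact zero_ne_one hu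
  have e := h.eqn
  have e1 : (25 * u) * (u * (s ^ 2 - (4 * k + 1)) - 5 * (u ^ 2 + 8 * (4 * k + 1) * u +
      16 * (4 * k + 1) ^ 2)) = 0 := by
    linear_combination e
  have e2 : u * (s ^ 2 - (4 * (k : ℚ_[5]) + 1)) = 5 * (u ^ 2 + 8 * (4 * k + 1) * u +
      16 * (4 * k + 1) ^ 2) := by
    rcases mul_eq_zero.1 e1 with h | h
    · exact absurd h (mul_ne_zero (by norm_num) hu0)
    · linear_combination h
  have e3 : ‖u * (s ^ 2 - (4 * (k : ℚ_[5]) + 1))‖ < 1 := by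
    rw [e2]
    have n8 : ‖(8 : ℚ_[5])‖ ≤ 1 := by exact_mod_cast zle 8
    exact lmul' n5lt (nadd (nadd (npow hu.le 2) (nmul (nmul n8 hm.le) hu.le))
      (nmul n16.le (npow hm.le 2)))
  rwa [norm_mul, hu, one_mul] at e3

theorem Good.neg {P : PtP (WD (4 * k + 1)) 5} {s : ℚ_[5]} (h : Good k P s) : Good k (-P) (-s) := by
  obtain ⟨u, hP, hu, hs⟩ := h
  refine ⟨u, ?_, hu, by rwa [norm_neg]⟩
  have := hP.neg
  have e : 5 * (-s * u) = -(5 * (s * u)) := by ring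
  rw [e]
  exact this

/-- doubling of the good points -/
theorem good_dbl (hE : S_E0) (hM : ¬ (5 : ℤ) ∣ 4 * k + 1) {T P : PtP (WD (4 * k + 1)) 5}
    {s : ℚ_[5]} (hT : At k T 0 0) (h : Good k P s) : P + P + T ∈ E0 (WD (4 * k + 1)) 5 := by
  have hm := nM hM
  have e2 := n400M hM
  obtain ⟨u, hP, hu, hs⟩ := h
  have hu0 : u ≠ 0 := by intro h0; rw [h0, norm_zero] at hu; exact zero_ne_one hu
  have hs0 : s ≠ 0 := by intro h0; rw [h0, norm_zero] at hs; exact zero_ne_one hs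
  have h50 : (5 : ℚ_[5]) ≠ 0 := by norm_num
  have hY0 : 5 * (s * u) ≠ 0 := mul_ne_zero h50 (mul_ne_zero hs0 hu0)
  obtain ⟨Y3, h3⟩ := hP.dbl' hY0
  set X3 := ((5 * u) ^ 2 - 400 * (4 * (k : ℚ_[5]) + 1) ^ 2) ^ 2 / (4 * (5 * (s * u)) ^ 2) with hX3
  have hn : ‖X3‖ ≤ 1 / 25 := by
    have e1 : X3 = 5 ^ 2 * ((u ^ 2 - 16 * (4 * k + 1) ^ 2) ^ 2 / (4 * (s * u) ^ 2)) := by
      rw [hX3]
      field_simp
      ring
    have e3 : ‖(u ^ 2 - 16 * (4 * (k : ℚ_[5]) + 1) ^ 2) ^ 2 / (4 * (s * u) ^ 2)‖ ≤ 1 := by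
      rw [norm_div, norm_mul, n4', norm_pow (s * u), norm_mul, hs, hu]
      norm_num
      exact nsub (npow hu.le 2) (nmul n16.le (npow hm.le 2))
    rw [e1, norm_mul, norm_pow, n5]
    nlinarith [norm_nonneg ((u ^ 2 - 16 * (4 * (k : ℚ_[5]) + 1) ^ 2) ^ 2 / (4 * (s * u) ^ 2))]
  by_cases hX30 : X3 = 0
  · rw [hX30] at h3
    have hY30 : Y3 = 0 := by
      have : Y3 ^ 2 = 0 := by rw [h3.eqn]; ring
      exact pow_eq_zero_iff (by norm_num) |>.1 this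
    rw [hY30] at h3
    rw [h3.ext hT, T_add_T hT]
    exact zero_mem _
  · obtain ⟨Y4, h4⟩ := h3.addT hT hX30
    by_contra hcon
    have h5 := (mem5 hE hM h4).1 hcon
    have hXp : 0 < ‖X3‖ := norm_pos_iff.2 hX30
    rw [norm_div, e2, div_lt_one hXp] at h5
    linarith

/-- points with the same slope -/
theorem same5 (hE : S_E0) (hM : ¬ (5 : ℤ) ∣ 4 * k + 1) {P P' : PtP (WD (4 * k + 1)) 5}
    {s s' : ℚ_[5]} (h : Good k P s) (h' : Good k P' s') (hss : ‖s' - s‖ < 1) :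
    P - P' ∈ E0 (WD (4 * k + 1)) 5 := by
  have h50 : (5 : ℚ_[5]) ≠ 0 := by norm_num
  have hm := nM hM
  obtain ⟨u, hP, hu, hs⟩ := h
  obtain ⟨u', hP', hu', hs'⟩ := h'
  have hsl := Good.slope hM hP hu
  have hneg := hP'.neg
  rw [sub_eq_add_neg]
  -- the numerator
  set N : ℚ_[5] := (s * u + s' * u') ^ 2 - (41 * (4 * k + 1) + 5 * u + 5 * u') * (u - u') ^ 2 with hN
  have hNn : ‖N‖ = 1 := by
    have e1 : N = 4 * (4 * k + 1) * u * u' + ((s ^ 2 - (4 * k + 1)) * (u + u') ^ 2 +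
        (2 * s * (u + u') * u' * (s' - s) + u' ^ 2 * (s' - s) * (s' - s)) -
        5 * ((8 * (4 * k + 1) + u + u') * (u - u') ^ 2)) := by
      rw [hN]; ring
    have e2 : ‖4 * (4 * (k : ℚ_[5]) + 1) * u * u'‖ = 1 := by
      rw [norm_mul, norm_mul, norm_mul, n4', hm, hu, hu']; norm_num
    have n8 : ‖(8 : ℚ_[5])‖ ≤ 1 := by exact_mod_cast zle 8
    rw [e1, norm_eq_of_lt, e2]
    rw [e2]
    refine lsub (ladd (lmul' hsl (npow (nadd hu.le hu'.le) 2)) (ladd (lmul ?_ hss) (lmul ?_ hss)))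
      (lmul' n5lt ?_)
    · exact nmul (nmul (nmul n2'.le hs.le) (nadd hu.le hu'.le)) hu'.le
    · exact nmul (npow hu'.le 2) hss.le
    · exact nmul (nadd (nadd (nmul n8 hm.le) hu.le) hu'.le) (npow (nsub hu.le hu'.le) 2)
  by_cases heq : u = u'
  · subst heq
    have hsum : ‖s + s'‖ = 1 := by
      have : s + s' = 2 * s + (s' - s) := by ring
      have h2s : ‖2 * s‖ = 1 := by rw [norm_mul, n2', hs, one_mul]
      rw [this, norm_eq_of_lt (by rw [h2s]; exact hss), h2s]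
    have hu0 : u ≠ 0 := by intro h0; rw [h0, norm_zero] at hu; exact zero_ne_one hu
    have e1 := hP.eqn
    have e2 := hP'.eqn
    have e3 : (s - s') * (s + s') = 0 := by
      have : (25 * u ^ 2) * ((s - s') * (s + s')) = 0 := by linear_combination e1 - e2
      rcases mul_eq_zero.1 this with h | h
      · exact absurd h (mul_ne_zero (by norm_num) (pow_ne_zero 2 hu0))
      · exact h
    rcases mul_eq_zero.1 e3 with h3 | h3
    · have h4 : s = s' := sub_eq_zero.1 h3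
      subst h4
      rw [hP.ext hP', add_neg_cancel]
      exact zero_mem _
    · rw [h3, norm_zero] at hsum
      exact absurd hsum zero_ne_one
  · have hXne : 5 * u ≠ 5 * u' := fun h3 => heq (mul_left_cancel₀ h50 h3)
    obtain ⟨Y3, h3⟩ := hP.add hneg hXne
    by_contra hcon
    have h4 := (mem5 hE hM h3).1 hcon
    have huu : u - u' ≠ 0 := sub_ne_zero.2 heq
    have e1 : ((5 * (s * u) - -(5 * (s' * u'))) / (5 * u - 5 * u')) ^ 2 -
        41 * (4 * (k : ℚ_[5]) + 1) - 5 * u - 5 * u' = N / (u - u') ^ 2 := by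
      have h5 : 5 * (s * u) - -(5 * (s' * u')) = 5 * (s * u + s' * u') := by ring
      have h6 : 5 * u - 5 * u' = 5 * (u - u') := by ring
      rw [h5, h6, mul_div_mul_left _ _ h50, hN]
      field_simp
      ring
    rw [e1, norm_div, hNn, norm_pow] at h4
    have h5 : ‖u - u'‖ ^ 2 ≤ 1 := pow_le_one₀ (norm_nonneg _) (nsub hu.le hu'.le)
    have h6 : 0 < ‖u - u'‖ ^ 2 := pow_pos (norm_pos_iff.2 huu) 2
    rw [div_lt_one h6] at h4
    linarith

/-- two good points are congruent up to sign -/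
theorem pm5 (hE : S_E0) (hM : ¬ (5 : ℤ) ∣ 4 * k + 1) {P P' : PtP (WD (4 * k + 1)) 5}
    {s s' : ℚ_[5]} (h : Good k P s) (h' : Good k P' s') :
    P - P' ∈ E0 (WD (4 * k + 1)) 5 ∨ P + P' ∈ E0 (WD (4 * k + 1)) 5 := by
  have g1 : ‖s ^ 2 - (4 * k + 1)‖ < 1 := by
    obtain ⟨u, hP, hu, hs⟩ := h
    exact Good.slope hM hP hu
  have g2 : ‖s' ^ 2 - (4 * k + 1)‖ < 1 := by
    obtain ⟨u, hP, hu, hs⟩ := h'
    exact Good.slope hM hP hu
  have g3 : ‖(s' - s) * (-s' - s)‖ < 1 := by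
    have : (s' - s) * (-s' - s) = (s ^ 2 - (4 * k + 1)) - (s' ^ 2 - (4 * k + 1)) := by ring
    rw [this]
    exact lsub g1 g2
  have g4 : ‖s' - s‖ < 1 ∨ ‖-s' - s‖ < 1 := by
    by_contra hcon
    rw [not_or, not_lt, not_lt] at hcon
    rw [norm_mul] at g3
    nlinarith [hcon.1, hcon.2]
  rcases g4 with g | g
  · exact Or.inl (same5 hE hM h h' g)
  · right
    have := same5 hE hM h h'.neg g
    rwa [sub_neg_eq_add] at this

/-- square roots -/
theorem sqrt5 {c : ℤ} (hc : c % 5 = 1 ∨ c % 5 = 4) : ∃ δ : ℚ_[5], δ ^ 2 = c ∧ ‖δ‖ = 1 := by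
  obtain ⟨n, hn5, hn⟩ : ∃ n : ℤ, ¬ (5 : ℤ) ∣ n ∧ (5 : ℤ) ∣ n ^ 2 - c := by
    rcases hc with h | h
    · exact ⟨1, by norm_num, by omega⟩
    · exact ⟨2, by norm_num, by omega⟩
  have h1 : ‖((n : ℤ_[5]) ^ 2 - c)‖ < 1 := by
    have : ((n : ℤ_[5]) ^ 2 - c) = ((n ^ 2 - c : ℤ) : ℤ_[5]) := by push_cast; ring
    rw [this, PadicInt.norm_intCast_lt_one_iff]
    exact_mod_cast hn
  have h2 : ‖(2 * (n : ℤ_[5]))‖ = 1 := by
    have : (2 * (n : ℤ_[5])) = ((2 * n : ℤ) : ℤ_[5]) := by push_cast; ring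
    rw [this, PadicInt.norm_def, PadicInt.coe_intCast]
    exact nint _ (by omega)
  obtain ⟨z, hz, -⟩ := hensels_lemma (p := 5) (R := ℤ) (F := (Polynomial.X ^ 2 - Polynomial.C c))
    (a := (n : ℤ_[5])) (by
      simp only [Polynomial.derivative_X_pow, Polynomial.derivative_C,
        map_sub, map_mul, map_pow, Polynomial.aeval_X, Polynomial.aeval_C, sub_zero]
      have e1 : ((algebraMap ℤ ℤ_[5]) c) = c := by simp
      rw [e1]
      have e2 : ‖(algebraMap ℤ ℤ_[5]) ((2 : ℕ) : ℤ) * (n : ℤ_[5]) ^ (2 - 1)‖ = 1 := by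
        rw [← h2]
        norm_num
      norm_num at e2 ⊢
      rw [e2]
      norm_num
      exact h1)
  simp only [map_sub, map_pow, Polynomial.aeval_X, Polynomial.aeval_C] at hz
  have e1 : ((algebraMap ℤ ℤ_[5]) c) = c := by simp
  rw [e1] at hz
  have hz2 : (z : ℚ_[5]) ^ 2 = c := by
    have : ((z ^ 2 - c : ℤ_[5]) : ℚ_[5]) = 0 := by rw [hz]; rfl
    rw [PadicInt.coe_sub, PadicInt.coe_pow, PadicInt.coe_intCast] at this
    linear_combination this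
  refine ⟨z, hz2, ?_⟩
  have h3 := congrArg norm hz2
  rw [norm_pow, nint c (by omega)] at h3
  exact (pow_eq_one_iff_of_nonneg (norm_nonneg _) two_ne_zero).1 h3

/-- every solution of the equation is a point -/
theorem exists_pt {X Y : ℚ_[5]} (hY : Y ≠ 0)
    (e : Y ^ 2 = X * (X ^ 2 + 41 * (4 * k + 1) * X + 400 * (4 * k + 1) ^ 2)) :
    ∃ P : PtP (WD (4 * k + 1)) 5, At k P X Y := by
  have hn : ((WD (4 * k + 1)).map (Int.castRingHom ℚ_[5])).toAffine.Nonsingular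
      (X / 4 + 3 * (4 * k + 1)) ((Y / 4 - (X / 4 + 3 * (4 * k + 1)) - 1) / 2) := by
    rw [WeierstrassCurve.Affine.nonsingular_iff', WeierstrassCurve.Affine.equation_iff, c1, c2, c3,
      c4, c6]
    refine ⟨by linear_combination e / 64, Or.inr ?_⟩
    have h2 : 2 * ((Y / 4 - (X / 4 + 3 * (4 * (k : ℚ_[5]) + 1)) - 1) / 2) +
      1 * (X / 4 + 3 * (4 * k + 1)) + 1 = Y / 4 := by ring
    rw [h2]
    exact div_ne_zero hY (by norm_num)
  refine ⟨Point.some _ _ hn, _, _, hn, rfl, ?_, ?_⟩ <;> ring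

theorem exists_good (hM : (4 * k + 1) % 5 = 1 ∨ (4 * k + 1) % 5 = 4) :
    ∃ (P : PtP (WD (4 * k + 1)) 5) (s : ℚ_[5]), Good k P s := by
  obtain ⟨δ, hδ, hδn⟩ := sqrt5 (c := 5 + 41 * (4 * k + 1) + 80 * (4 * k + 1) ^ 2) (by
    have h80 : (80 * (4 * k + 1) ^ 2) % 5 = 0 := by
      rw [show 80 * (4 * k + 1) ^ 2 = 5 * (16 * (4 * k + 1) ^ 2) by ring]
      exact Int.mul_emod_right _ _
    omega)
  have hδ0 : δ ≠ 0 := by intro h0; rw [h0, norm_zero] at hδn; exact zero_ne_one hδn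
  obtain ⟨P, hP⟩ := exists_pt (k := k) (X := 5 * 1) (Y := 5 * (δ * 1))
    (mul_ne_zero (by norm_num) (by rwa [mul_one])) (by
      push_cast at hδ
      linear_combination 25 * hδ)
  exact ⟨P, δ, 1, hP, norm_one, hδn⟩

/-- the Tamagawa number at `5` -/
theorem tam5 (hE : S_E0) (hM : (4 * k + 1) % 5 = 1 ∨ (4 * k + 1) % 5 = 4) :
    tam (WD (4 * k + 1)) 5 = 4 := by
  have hM5 : ¬ (5 : ℤ) ∣ 4 * k + 1 := by omega
  obtain ⟨T, hT⟩ := exists_T 5 k
  obtain ⟨P0, s0, hP0⟩ := exists_good hM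
  set H := E0 (WD (4 * k + 1)) 5 with hH
  have hTH : T ∉ H := (mem5 hE hM5 hT).2 (by simp)
  have hTT := T_add_T hT
  have hq0 : ∀ P : PtP (WD (4 * k + 1)) 5,
      (QuotientAddGroup.mk P : PtP (WD (4 * k + 1)) 5 ⧸ H) = 0 ↔ P ∈ H := fun P =>
    QuotientAddGroup.eq_zero_iff P
  set q : PtP (WD (4 * k + 1)) 5 ⧸ H := QuotientAddGroup.mk P0 with hq
  set t : PtP (WD (4 * k + 1)) 5 ⧸ H := QuotientAddGroup.mk T with ht
  have ht0 : t ≠ 0 := fun h => hTH ((hq0 T).1 h)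
  have htt : t + t = 0 := by
    rw [ht, ← QuotientAddGroup.mk_add, hTT]; rfl
  have hqt : q + q = t := by
    have h1 : q + q + t = 0 := by
      rw [hq, ht, ← QuotientAddGroup.mk_add, ← QuotientAddGroup.mk_add, hq0]
      exact good_dbl hE hM5 hT hP0
    calc q + q = q + q + t - t := by abel
      _ = -t := by rw [h1, zero_sub]
      _ = t := by rw [neg_eq_iff_add_eq_zero]; exact htt
  have hall : ∀ x : PtP (WD (4 * k + 1)) 5 ⧸ H, x ∈ AddSubgroup.zmultiples q := by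
    intro x
    obtain ⟨P, rfl⟩ := QuotientAddGroup.mk_surjective x
    rw [AddSubgroup.mem_zmultiples_iff]
    rcases trich hE hM5 hT P with h | h | ⟨s, h⟩
    · exact ⟨0, by rw [zero_smul, (hq0 P).2 h]⟩
    · refine ⟨2, ?_⟩
      have h1 : (QuotientAddGroup.mk P : PtP (WD (4 * k + 1)) 5 ⧸ H) + t = 0 := by
        rw [ht, ← QuotientAddGroup.mk_add, hq0]; exact h
      rw [two_zsmul, hqt]
      have h2 : (QuotientAddGroup.mk P : PtP (WD (4 * k + 1)) 5 ⧸ H) = -t :=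
        eq_neg_of_add_eq_zero_left h1
      rw [h2]
      exact (neg_eq_iff_add_eq_zero.2 htt).symm
    · rcases pm5 hE hM5 hP0 h with h1 | h1
      · refine ⟨1, ?_⟩
        rw [one_zsmul, ← sub_eq_zero, hq, ← QuotientAddGroup.mk_sub, hq0]
        exact h1
      · refine ⟨-1, ?_⟩
        rw [neg_one_zsmul, neg_eq_iff_add_eq_zero, hq, ← QuotientAddGroup.mk_add, hq0]
        exact h1
  have hord : addOrderOf q = 2 ^ 2 := by
    have : Fact (Nat.Prime 2) := ⟨Nat.prime_two⟩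
    refine addOrderOf_eq_prime_pow ?_ ?_
    · rw [pow_one, two_nsmul, hqt]; exact ht0
    · have : (2 ^ (1 + 1) : ℕ) • q = (q + q) + (q + q) := by
        norm_num
        abel
      rw [this, hqt, htt]
  have hcard : Nat.card (PtP (WD (4 * k + 1)) 5 ⧸ H) = 4 := by
    rw [← addOrderOf_eq_card_of_forall_mem_zmultiples hall, hord]; norm_num
  exact hcard

end five

theorem t5 : S_T5 := by
  intro hE hp M hM4 hM5
  obtain ⟨k, rfl⟩ : ∃ k : ℤ, M = 4 * k + 1 := ⟨M / 4, by omega⟩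
  exact tam5 hE hM5

end Pool.Agent.H757_X15.EE.T5

namespace Pool.Agent.H757_X15.EE

/-- the Tamagawa number at `5` -/
theorem t_T5 : S_T5 := T5.t5

end Pool.Agent.H757_X15.EE
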